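import Mathlib

/-! Analytic functionals on `ℂⁿ`, carriers, convex supports. -/

set_option autoImplicit false

open Set Filter Topology Complex Metric

namespace Pool.Agent.H810R2.CSg

/-- The standard additive group structure of `C(X, ℂ)` (shortcut instance). -/
noncomputable instance cAdd (X : Type) [TopologicalSpace X] : AddCommGroup C(X, ℂ) := inferInstance

/-- The standard vector space structure of `C(X, ℂ)` (shortcut instance). -/
noncomputable instance cMod (X : Type) [TopologicalSpace X] : Module ℂ C(X, ℂ) := inferInstance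

/-- `f : ℂⁿ → ℂ` is entire. -/
def IsEntire {n : ℕ} (f : C(Fin n → ℂ, ℂ)) : Prop := Differentiable ℂ f

/-- The entire functions, as a subspace of `C(ℂⁿ, ℂ)`. -/
def entireSub (n : ℕ) : Submodule ℂ C(Fin n → ℂ, ℂ) where
  carrier := {f | IsEntire f}
  add_mem' hf hg := Differentiable.add hf hg
  zero_mem' := differentiable_const 0
  smul_mem' c _ hf := Differentiable.const_smul hf c

/-- The space `H(ℂⁿ)` of entire functions, with the topology of uniform convergence on compact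
sets (the topology induced by the compact-open topology of `C(ℂⁿ, ℂ)`). -/
def Entire (n : ℕ) : Type := entireSub n

noncomputable instance eTop (n : ℕ) : TopologicalSpace (Entire n) :=
  inferInstanceAs (TopologicalSpace (entireSub n))

noncomputable instance eAdd (n : ℕ) : AddCommGroup (Entire n) :=
  inferInstanceAs (AddCommGroup (entireSub n))

noncomputable instance eMod (n : ℕ) : Module ℂ (Entire n) :=
  inferInstanceAs (Module ℂ (entireSub n))

/-- `g : ω → ℂ` is (the restriction to `ω` of) a function holomorphic on `ω`. -/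
def IsHol {n : ℕ} (ω : Set (Fin n → ℂ)) (g : C(ω, ℂ)) : Prop :=
  ∃ G : (Fin n → ℂ) → ℂ, DifferentiableOn ℂ G ω ∧ ∀ z : ω, g z = G z

theorem IsHol.add {n : ℕ} {ω : Set (Fin n → ℂ)} {f g : C(ω, ℂ)} : IsHol ω f → IsHol ω g →
    IsHol ω (f + g) := by
  rintro ⟨F, hF, h⟩ ⟨G, hG, h'⟩
  exact ⟨F + G, hF.add hG, fun z => by simp [h, h']⟩

theorem IsHol.smul {n : ℕ} {ω : Set (Fin n → ℂ)} (c : ℂ) {f : C(ω, ℂ)} : IsHol ω f →
    IsHol ω (c • f) := by
  rintro ⟨F, hF, h⟩
  exact ⟨c • F, hF.const_smul c, fun z => by simp [h]⟩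

theorem IsHol.zero {n : ℕ} {ω : Set (Fin n → ℂ)} : IsHol ω 0 :=
  ⟨0, differentiableOn_const 0, fun _ => rfl⟩

/-- The holomorphic functions on `ω`, as a subspace of `C(ω, ℂ)`. -/
def holSub {n : ℕ} (ω : Set (Fin n → ℂ)) : Submodule ℂ C(ω, ℂ) where
  carrier := {g | IsHol ω g}
  add_mem' := IsHol.add
  zero_mem' := IsHol.zero
  smul_mem' _ _ := IsHol.smul _

/-- The space `H(ω)` of holomorphic functions on the open set `ω ⊆ ℂⁿ`, with the topology of
uniform convergence on compact sets (induced by the compact-open topology of `C(ω, ℂ)`). -/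
def Hol {n : ℕ} (ω : Set (Fin n → ℂ)) : Type := holSub ω

noncomputable instance hTop {n : ℕ} (ω : Set (Fin n → ℂ)) : TopologicalSpace (Hol ω) :=
  inferInstanceAs (TopologicalSpace (holSub ω))

noncomputable instance hAdd {n : ℕ} (ω : Set (Fin n → ℂ)) : AddCommGroup (Hol ω) :=
  inferInstanceAs (AddCommGroup (holSub ω))

noncomputable instance hMod {n : ℕ} (ω : Set (Fin n → ℂ)) : Module ℂ (Hol ω) :=
  inferInstanceAs (Module ℂ (holSub ω))

/-- Restriction `H(ℂⁿ) → H(ω)`. -/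
noncomputable def res {n : ℕ} (ω : Set (Fin n → ℂ)) (f : Entire n) : Hol ω :=
  ⟨f.1.restrict ω, f.1, Differentiable.differentiableOn f.2, fun _ => rfl⟩

/-- Analytic functionals: the dual `H'(ℂⁿ)`. -/
abbrev AnFun (n : ℕ) : Type := Entire n →L[ℂ] ℂ

/-- The compact set `K` is a carrier of `T`: for every open `ω ⊇ K`, `T` extends to a continuous
linear functional on `H(ω)`. -/
def IsCarrier {n : ℕ} (T : AnFun n) (K : Set (Fin n → ℂ)) : Prop :=
  IsCompact K ∧ ∀ ω : Set (Fin n → ℂ), IsOpen ω → K ⊆ ω →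
    ∃ S : Hol ω →L[ℂ] ℂ, ∀ f : Entire n, S (res ω f) = T f

/-- `K` is a convex support of `T`: minimal (for inclusion) among the convex compact carriers. -/
def IsCSupport {n : ℕ} (T : AnFun n) (K : Set (Fin n → ℂ)) : Prop :=
  Minimal (fun L => Convex ℝ L ∧ IsCarrier T L) K

/-- The convex compact set `K` is a unique C-support: whenever it is a C-support of an analytic
functional, it is its only C-support. -/
def IsUniqueCSupport {n : ℕ} (K : Set (Fin n → ℂ)) : Prop :=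
  Convex ℝ K ∧ IsCompact K ∧ ∀ T : AnFun n, IsCSupport T K → ∀ L, IsCSupport T L → L = K

/-- local estimate -/
def Est {n : ℕ} (T : AnFun n) (K' : Set (Fin n → ℂ)) (C : ℝ) : Prop :=
  ∀ f : Entire n, ∀ M : ℝ, 0 ≤ M → (∀ z ∈ K', ‖f.1 z‖ ≤ M) → ‖T f‖ ≤ C * M

theorem exists_bound_of_clm {X : Type} [TopologicalSpace X] (V : Submodule ℂ C(X, ℂ))
    (S : V →L[ℂ] ℂ) : ∃ K' : Set X, IsCompact K' ∧ ∃ C : ℝ, 0 ≤ C ∧
      ∀ g : V, ∀ M : ℝ, 0 ≤ M → (∀ z ∈ K', ‖g.1 z‖ ≤ M) → ‖S g‖ ≤ C * M := by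
  have h1 : S ⁻¹' (ball 0 1) ∈ 𝓝 (0 : V) :=
    S.continuous.continuousAt.preimage_mem_nhds (by rw [map_zero]; exact ball_mem_nhds _ one_pos)
  rw [nhds_subtype_eq_comap, Filter.mem_comap] at h1
  obtain ⟨U, hU, hUS⟩ := h1
  have hb := nhds_basis_uniformity
    (Metric.uniformity_basis_dist.compactConvergenceUniformity (α := X) (β := ℂ)) (x := (0 : C(X, ℂ)))
  obtain ⟨⟨K', ε⟩, ⟨hK', hε⟩, hsub⟩ := hb.mem_iff.1 hU
  simp only at hK' hε
  have key : ∀ g : V, (∀ z ∈ K', ‖g.1 z‖ < ε) → ‖S g‖ < 1 := by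
    intro g hg
    have : g ∈ S ⁻¹' (ball 0 1) := by
      apply hUS
      apply hsub
      intro z hz
      have := hg z hz
      simpa [dist_eq_norm] using this
    simpa using this
  refine ⟨K', hK', 2 / ε, by positivity, fun g M hM hg => ?_⟩
  -- for every δ > 0, ‖S g‖ ≤ (2/ε) (M + δ)
  have h2 : ∀ δ > 0, ‖S g‖ ≤ 2 / ε * (M + δ) := by
    intro δ hδ
    have hpos : 0 < ε / (2 * (M + δ)) := by positivity
    have h3 := key (((ε / (2 * (M + δ)) : ℝ) : ℂ) • g) (by
      intro z hz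
      show ‖((ε / (2 * (M + δ)) : ℝ) : ℂ) • g.1 z‖ < ε
      rw [norm_smul, Complex.norm_real, Real.norm_of_nonneg hpos.le]
      have h4 := hg z hz
      calc ε / (2 * (M + δ)) * ‖g.1 z‖ ≤ ε / (2 * (M + δ)) * (M + δ) :=
            mul_le_mul_of_nonneg_left (by linarith) hpos.le
        _ = ε / 2 := by field_simp
        _ < ε := by linarith)
    rw [map_smul, norm_smul, Complex.norm_real, Real.norm_of_nonneg hpos.le, div_mul_eq_mul_div,
      div_lt_one (by positivity)] at h3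
    rw [div_mul_eq_mul_div, le_div_iff₀ hε]
    linarith
  refine le_of_forall_pos_le_add fun η hη => ?_
  have := h2 (η * ε / 2) (by positivity)
  calc ‖S g‖ ≤ _ := this
    _ = 2 / ε * M + η := by field_simp

theorem IsCarrier.est {n : ℕ} {T : AnFun n} {K : Set (Fin n → ℂ)} (h : IsCarrier T K)
    {ω : Set (Fin n → ℂ)} (hω : IsOpen ω) (hK : K ⊆ ω) :
    ∃ K' ⊆ ω, IsCompact K' ∧ ∃ C : ℝ, 0 ≤ C ∧ Est T K' C := by
  obtain ⟨S, hS⟩ := h.2 ω hω hK
  obtain ⟨K', hK', C, hC, hb⟩ := exists_bound_of_clm (holSub ω) S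
  refine ⟨Subtype.val '' K', by simp, hK'.image continuous_subtype_val, C, hC,
    fun f M hM hf => ?_⟩
  rw [← hS f]
  exact hb (res ω f) M hM fun z hz => hf z ⟨z, hz, rfl⟩

/-- restriction to a compact set -/
noncomputable def rK {n : ℕ} (K' : Set (Fin n → ℂ)) : Entire n →ₗ[ℂ] C(K', ℂ) where
  toFun f := f.1.restrict K'
  map_add' _ _ := rfl
  map_smul' _ _ := rfl

theorem LM.sub {n : ℕ} (T : Entire n →ₗ[ℂ] ℂ) (f g : Entire n) : T (f - g) = T f - T g := by
  exact map_sub T f g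

theorem rK_sub {n : ℕ} (K' : Set (Fin n → ℂ)) (f g : Entire n) :
    rK K' (f - g) = rK K' f - rK K' g := by
  exact map_sub (rK K') f g

/-- **Hahn–Banach**: an estimate gives a functional on `C(K')`. -/
theorem exists_measure' {n : ℕ} {T : Entire n →ₗ[ℂ] ℂ} {K' : Set (Fin n → ℂ)}
    [CompactSpace K'] {C : ℝ} (h : ∀ f : Entire n, ∀ M : ℝ, 0 ≤ M → (∀ z ∈ K', ‖f.1 z‖ ≤ M) →
      ‖T f‖ ≤ C * M) :
    ∃ μ : C(K', ℂ) →L[ℂ] ℂ, ∀ f : Entire n, μ (rK K' f) = T f := by
  have hnorm : ∀ f : Entire n, ‖T f‖ ≤ C * ‖rK K' f‖ := by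
    intro f
    exact h f _ (norm_nonneg _) fun z hz => (rK K' f).norm_coe_le_norm ⟨z, hz⟩
  set R := LinearMap.range (rK K') with hR
  have hproj : Module.Projective ℂ R := Module.Projective.of_basis (Module.Basis.ofVectorSpace ℂ R)
  obtain ⟨s, hs⟩ := LinearMap.exists_rightInverse_of_surjective (rK K').rangeRestrict
    (LinearMap.range_rangeRestrict _)
  have hs' : ∀ x : R, rK K' (s x) = x := by
    intro x
    have := congrArg Subtype.val (LinearMap.congr_fun hs x)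
    simpa using this
  let φ : R →ₗ[ℂ] ℂ := T.comp s
  have hφ : ∀ x, ‖φ x‖ ≤ C * ‖x‖ := by
    intro x
    have := hnorm (s x)
    rw [hs' x] at this
    exact this
  obtain ⟨μ, hμ, -⟩ := exists_extension_norm_eq R (φ.mkContinuous C hφ)
  refine ⟨μ, fun f => ?_⟩
  have h1 := hμ ⟨rK K' f, LinearMap.mem_range_self _ f⟩
  have h2 : φ.mkContinuous C hφ ⟨rK K' f, LinearMap.mem_range_self _ f⟩ =
      T (s ⟨rK K' f, LinearMap.mem_range_self _ f⟩) := rfl
  rw [h2] at h1
  rw [show μ (rK K' f) = μ ((⟨rK K' f, LinearMap.mem_range_self _ f⟩ : R) : C(K', ℂ)) from rfl, h1]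
  have h4 : rK K' (s ⟨rK K' f, LinearMap.mem_range_self _ f⟩ - f) = 0 := by
    have e1 : rK K' (s ⟨rK K' f, LinearMap.mem_range_self _ f⟩) = rK K' f := hs' _
    rw [rK_sub, e1, sub_self]
  have h3 := hnorm (s ⟨rK K' f, LinearMap.mem_range_self _ f⟩ - f)
  rw [h4, norm_zero, mul_zero, LM.sub] at h3
  exact sub_eq_zero.1 (norm_le_zero_iff.1 h3)

/-- **Hahn–Banach**: an estimate gives a functional on `C(K')`. -/
theorem Est.exists_measure {n : ℕ} {T : AnFun n} {K' : Set (Fin n → ℂ)}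
    [CompactSpace K'] {C : ℝ} (h : Est T K' C) :
    ∃ μ : C(K', ℂ) →L[ℂ] ℂ, ∀ f : Entire n, μ (rK K' f) = T f :=
  exists_measure' (T := (T : Entire n →ₗ[ℂ] ℂ)) h

theorem continuous_rK {n : ℕ} (K' : Set (Fin n → ℂ)) : Continuous (rK K') := by
  have h1 : Continuous fun f : Entire n => f.1 := continuous_subtype_val
  have h2 : Continuous fun g : C(Fin n → ℂ, ℂ) => g.restrict K' := ContinuousMap.continuous_restrict K'
  exact h2.comp h1

/-- a linear functional with an estimate is an analytic functional -/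
theorem exists_anFun {n : ℕ} (T : Entire n →ₗ[ℂ] ℂ) {K' : Set (Fin n → ℂ)} (hK' : IsCompact K')
    {C : ℝ} (h : ∀ f : Entire n, ∀ M : ℝ, 0 ≤ M → (∀ z ∈ K', ‖f.1 z‖ ≤ M) →
      ‖T f‖ ≤ C * M) : ∃ T' : AnFun n, ∀ f, T' f = T f := by
  have : CompactSpace K' := isCompact_iff_compactSpace.1 hK'
  obtain ⟨μ, hμ⟩ := exists_measure' h
  refine ⟨⟨T, ?_⟩, fun f => rfl⟩
  have : (T : Entire n → ℂ) = fun f => μ (rK K' f) := by
    ext f; exact (hμ f).symm
  show Continuous (T : Entire n → ℂ)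
  rw [this]
  exact μ.continuous.comp (continuous_rK K')

theorem isCarrier_of_est {n : ℕ} {T : AnFun n} {K : Set (Fin n → ℂ)} (hK : IsCompact K)
    (h : ∀ ω : Set (Fin n → ℂ), IsOpen ω → K ⊆ ω →
      ∃ K' ⊆ ω, IsCompact K' ∧ ∃ C : ℝ, 0 ≤ C ∧ Est T K' C) : IsCarrier T K := by
  refine ⟨hK, fun ω hω hKω => ?_⟩
  obtain ⟨K', hK'ω, hK', C, hC, hest⟩ := h ω hω hKω
  have : CompactSpace K' := isCompact_iff_compactSpace.1 hK'
  obtain ⟨μ, hμ⟩ := hest.exists_measure
  let ι : C(K', ω) := ⟨fun z => ⟨z, hK'ω z.2⟩, by fun_prop⟩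
  let r : C(ω, ℂ) →L[ℂ] C(K', ℂ) :=
    { toFun := fun g => g.comp ι
      map_add' := fun _ _ => rfl
      map_smul' := fun _ _ => rfl
      cont := ContinuousMap.continuous_precomp ι }
  let S : holSub ω →L[ℂ] ℂ := (μ.comp r).comp (holSub ω).subtypeL
  refine ⟨S, fun f => ?_⟩
  rw [← hμ f]
  rfl

theorem Est.mono {n : ℕ} {T : AnFun n} {K' : Set (Fin n → ℂ)} {C : ℝ} (h : Est T K' C)
    {K'' : Set (Fin n → ℂ)} (hs : K' ⊆ K'') : Est T K'' C :=
  fun f M hM hf => h f M hM fun z hz => hf z (hs hz)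

end Pool.Agent.H810R2.CSg
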