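import Mathlib
import Pool.Agent.H810R2.CSg

/-! Analytic functionals on `ℂⁿ`, carriers, convex supports: elementary definitions, and their
equivalence with those of `Pool.Agent.H810R2.CSg`. -/

set_option autoImplicit false

open Set Filter Topology Complex Metric

namespace Pool.Agent.H810R2.AF

/-- `S` is (restricts to) a continuous linear functional on the space `H(ω)` of functions
holomorphic on the open set `ω ⊆ ℂⁿ`, with the topology of uniform convergence on compact subsets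
of `ω`: it is linear, and `|S f| ≤ C sup_{K'} |f|` for some compact `K' ⊆ ω` and some `C`. -/
structure IsDual {n : ℕ} (ω : Set (Fin n → ℂ)) (S : ((Fin n → ℂ) → ℂ) → ℂ) : Prop where
  add : ∀ f g, DifferentiableOn ℂ f ω → DifferentiableOn ℂ g ω → S (f + g) = S f + S g
  smul : ∀ (c : ℂ) f, DifferentiableOn ℂ f ω → S (c • f) = c * S f
  bound : ∃ K' ⊆ ω, IsCompact K' ∧ ∃ C : ℝ, ∀ f, DifferentiableOn ℂ f ω →
    ∀ M : ℝ, 0 ≤ M → (∀ z ∈ K', ‖f z‖ ≤ M) → ‖S f‖ ≤ C * M

/-- `T` is an analytic functional on `ℂⁿ`, an element of the dual `H'(ℂⁿ)`. -/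
def IsAnFun {n : ℕ} (T : ((Fin n → ℂ) → ℂ) → ℂ) : Prop := IsDual univ T

/-- The compact set `K` is a carrier of `T`: for every open `ω ⊇ K`, `T` extends to a continuous
linear functional on `H(ω)`. -/
def IsCarrier {n : ℕ} (T : ((Fin n → ℂ) → ℂ) → ℂ) (K : Set (Fin n → ℂ)) : Prop :=
  IsCompact K ∧ ∀ ω : Set (Fin n → ℂ), IsOpen ω → K ⊆ ω →
    ∃ S, IsDual ω S ∧ ∀ f, Differentiable ℂ f → S f = T f

/-- `K` is a convex support of `T`: minimal (for inclusion) among the convex compact carriers. -/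
def IsCSupport {n : ℕ} (T : ((Fin n → ℂ) → ℂ) → ℂ) (K : Set (Fin n → ℂ)) : Prop :=
  Minimal (fun L => Convex ℝ L ∧ IsCarrier T L) K

/-- The convex compact set `K` is a unique C-support: whenever it is a C-support of an analytic
functional, it is its only C-support. -/
def IsUniqueCSupport {n : ℕ} (K : Set (Fin n → ℂ)) : Prop :=
  Convex ℝ K ∧ IsCompact K ∧ ∀ T : ((Fin n → ℂ) → ℂ) → ℂ, IsAnFun T → IsCSupport T K →
    ∀ L, IsCSupport T L → L = K

open Pool.Agent.H810R2.CSg in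
theorem exists_anFun_of {n : ℕ} {T : ((Fin n → ℂ) → ℂ) → ℂ} (hT : IsAnFun T) :
    ∃ T' : AnFun n, ∀ f : Entire n, T' f = T f.1 := by
  obtain ⟨K', -, hK', C, hC⟩ := hT.bound
  have hd : ∀ f : Entire n, DifferentiableOn ℂ (f.1 : (Fin n → ℂ) → ℂ) univ := fun f =>
    Differentiable.differentiableOn f.2
  let T₁ : Entire n →ₗ[ℂ] ℂ :=
    { toFun := fun f => T f.1
      map_add' := fun f g => hT.add f.1 g.1 (hd f) (hd g)
      map_smul' := fun c f => hT.smul c f.1 (hd f) }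
  obtain ⟨T', hT'⟩ := exists_anFun T₁ hK' (C := C) fun f M hM hf => hC f.1 (hd f) M hM hf
  exact ⟨T', hT'⟩

open Pool.Agent.H810R2.CSg in
theorem isCarrier_iff {n : ℕ} {T : ((Fin n → ℂ) → ℂ) → ℂ} {T' : AnFun n}
    (h : ∀ f : Entire n, T' f = T f.1) {K : Set (Fin n → ℂ)} :
    IsCarrier T K ↔ CSg.IsCarrier T' K := by
  have hentire : ∀ f : (Fin n → ℂ) → ℂ, Differentiable ℂ f → ∃ f' : Entire n, (f'.1 : _ → ℂ) = f :=
    fun f hf => ⟨⟨⟨f, hf.continuous⟩, hf⟩, rfl⟩
  constructor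
  · intro hK
    refine isCarrier_of_est hK.1 fun ω hω hsub => ?_
    obtain ⟨S, hS, hST⟩ := hK.2 ω hω hsub
    obtain ⟨K', hK'ω, hK', C, hC⟩ := hS.bound
    refine ⟨K', hK'ω, hK', |C|, abs_nonneg C, fun f M hM hf => ?_⟩
    rw [h f, ← hST f.1 f.2]
    exact (hC f.1 (Differentiable.differentiableOn f.2) M hM hf).trans
      (mul_le_mul_of_nonneg_right (le_abs_self C) hM)
  · intro hK
    refine ⟨hK.1, fun ω hω hsub => ?_⟩
    obtain ⟨K', hK'ω, hK', C, hC, hest⟩ := hK.est hω hsub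
    have : CompactSpace K' := isCompact_iff_compactSpace.1 hK'
    obtain ⟨μ, hμ⟩ := hest.exists_measure
    classical
    have hc : ∀ f : (Fin n → ℂ) → ℂ, DifferentiableOn ℂ f ω → Continuous fun z : K' => f z := by
      intro f hf
      exact (hf.continuousOn.mono hK'ω).domRestrict
    let S : ((Fin n → ℂ) → ℂ) → ℂ := fun f =>
      if hf : Continuous fun z : K' => f z then μ ⟨fun z => f z, hf⟩ else 0
    have hSf : ∀ f (hf : DifferentiableOn ℂ f ω), S f = μ ⟨fun z => f z, hc f hf⟩ := by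
      intro f hf
      exact dif_pos (hc f hf)
    refine ⟨S, ⟨fun f g hf hg => ?_, fun c f hf => ?_, K', hK'ω, hK', ‖μ‖, fun f hf M hM hb => ?_⟩,
      fun f hf => ?_⟩
    · rw [hSf f hf, hSf g hg, hSf _ (hf.add hg), ← map_add]
      rfl
    · rw [hSf f hf, hSf _ (hf.const_smul c), ← smul_eq_mul, ← map_smul]
      rfl
    · rw [hSf f hf]
      refine (μ.le_opNorm _).trans (mul_le_mul_of_nonneg_left ?_ (norm_nonneg _))
      exact (ContinuousMap.norm_le _ hM).2 fun z => hb z.1 z.2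
    · obtain ⟨f', rfl⟩ := hentire f hf
      rw [hSf _ (Differentiable.differentiableOn hf), ← h f', ← hμ f']
      rfl

theorem isCSupport_iff {n : ℕ} {T : ((Fin n → ℂ) → ℂ) → ℂ} {T' : CSg.AnFun n}
    (h : ∀ f : CSg.Entire n, T' f = T f.1) {K : Set (Fin n → ℂ)} :
    IsCSupport T K ↔ CSg.IsCSupport T' K := by
  unfold IsCSupport CSg.IsCSupport
  simp only [isCarrier_iff h]

theorem isUniqueCSupport_of {n : ℕ} {K : Set (Fin n → ℂ)} (h : CSg.IsUniqueCSupport K) :
    IsUniqueCSupport K := by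
  refine ⟨h.1, h.2.1, fun T hT hK L hL => ?_⟩
  obtain ⟨T', hT'⟩ := exists_anFun_of hT
  exact h.2.2 T' ((isCSupport_iff hT').1 hK) L ((isCSupport_iff hT').1 hL)

/-- bundle an entire function -/
noncomputable def mkE {n : ℕ} (f : (Fin n → ℂ) → ℂ) (hf : Differentiable ℂ f) : CSg.Entire n :=
  ⟨⟨f, hf.continuous⟩, hf⟩

open Pool.Agent.H810R2.CSg in
theorem exists_of_anFun {n : ℕ} (T' : AnFun n) :
    ∃ T : ((Fin n → ℂ) → ℂ) → ℂ, IsAnFun T ∧ ∀ f : Entire n, T' f = T f.1 := by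
  classical
  let T : ((Fin n → ℂ) → ℂ) → ℂ := fun f =>
    if hf : Differentiable ℂ f then T' (mkE f hf) else 0
  have hTf : ∀ f (hf : Differentiable ℂ f), T f = T' (mkE f hf) := fun f hf =>
    dif_pos hf
  obtain ⟨K', hK', C, hC, hb⟩ := exists_bound_of_clm (entireSub n) T'
  refine ⟨T, ⟨fun f g hf hg => ?_, fun c f hf => ?_, K', subset_univ _, hK', C,
    fun f hf M hM hz => ?_⟩, fun f => ?_⟩
  · rw [differentiableOn_univ] at hf hg
    rw [hTf f hf, hTf g hg, hTf _ (hf.add hg)]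
    exact map_add T' (mkE f hf) (mkE g hg)
  · rw [differentiableOn_univ] at hf
    rw [hTf f hf, hTf _ (hf.const_smul c)]
    exact map_smul T' c (mkE f hf)
  · rw [differentiableOn_univ] at hf
    rw [hTf f hf]
    exact hb (mkE f hf) M hM hz
  · rw [hTf _ f.2]
    rfl

end Pool.Agent.H810R2.AF
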