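import Mathlib

set_option autoImplicit false

namespace Pool.Agent.H810R2.BAa

open Complex Metric Filter Topology Set

/-- Phragmen-Lindelof for bounded functions on a half plane. -/
lemma pl {φ : ℂ → ℂ} {R' R M K : ℝ} (hR : R' < R) (hφ : DifferentiableOn ℂ φ {s | R' < s.re})
    (hb : ∀ s : ℂ, R ≤ s.re → ‖φ s‖ ≤ K) (hbd : ∀ s : ℂ, s.re = R → ‖φ s‖ ≤ M) :
    ∀ s : ℂ, R ≤ s.re → ‖φ s‖ ≤ M := by
  intro s hs
  have h1 : DifferentiableOn ℂ (fun z : ℂ => φ (R + z)) {z | R' - R < z.re} := by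
    apply hφ.comp (by fun_prop)
    intro z hz
    simp only [mem_ofPred_eq, add_re, ofReal_re] at hz ⊢
    linarith
  have h2 : DiffContOnCl ℂ (fun z : ℂ => φ (R + z)) {z | 0 < z.re} := by
    constructor
    · apply h1.mono
      intro z hz
      simp only [mem_ofPred_eq] at hz ⊢
      linarith
    · apply h1.continuousOn.mono
      have : closure {z : ℂ | 0 < z.re} ⊆ {z | 0 ≤ z.re} := by
        apply closure_minimal
        · intro z (hz : 0 < z.re); exact le_of_lt hz
        · exact isClosed_le continuous_const continuous_re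
      intro z hz
      have := this hz
      simp only [mem_ofPred_eq] at this ⊢
      linarith
  have h3 := PhragmenLindelof.right_half_plane_of_bounded_on_real (z := s - R) (C := M) h2 ?_ ?_ ?_ ?_
  · simpa using h3
  · refine ⟨1, by norm_num, 0, ?_⟩
    apply Asymptotics.IsBigO.of_bound K
    rw [Filter.eventually_inf_principal]
    refine Filter.Eventually.of_forall fun z hz => ?_
    simp only [mem_ofPred_eq] at hz
    have := hb (R + z) (by simp; linarith)
    simpa using this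
  · refine ⟨K, ?_⟩
    simp only [eventually_map]
    filter_upwards [eventually_ge_atTop 0] with x hx
    exact hb _ (by simpa using hx)
  · intro x
    apply hbd
    simp
  · simp; exact hs

/-- the determinant is Lipschitz on bounded sets -/
lemma det_lip (k : ℕ) (B : ℝ) : ∃ L : ℝ, 0 ≤ L ∧ ∀ (M N : Matrix (Fin k) (Fin k) ℂ) (e : ℝ), 0 ≤ e →
    (∀ i j, ‖M i j‖ ≤ B) → (∀ i j, ‖N i j‖ ≤ B) → (∀ i j, ‖M i j - N i j‖ ≤ e) →
    ‖M.det - N.det‖ ≤ L * e := by
  obtain ⟨C, hC, hCb⟩ := (Matrix.detRowAlternating (R := ℂ) (n := Fin k)).toMultilinearMap.exists_bound_of_continuous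
    (by exact continuous_id.matrix_det)
  by_cases hB : 0 ≤ B
  swap
  · refine ⟨0, le_refl _, fun M N e he hM hN hMN => ?_⟩
    rcases Nat.eq_zero_or_pos k with rfl | hk
    · simp
    · exact absurd ((norm_nonneg _).trans (hM ⟨0, hk⟩ ⟨0, hk⟩)) hB
  refine ⟨C * Fintype.card (Fin k) * B ^ (Fintype.card (Fin k) - 1), by positivity, ?_⟩
  intro M N e he hM hN hMN
  have h1 : ∀ m n : Fin k → Fin k → ℂ, ‖Matrix.det (Matrix.of m) - Matrix.det (Matrix.of n)‖ ≤
      C * Fintype.card (Fin k) * max ‖m‖ ‖n‖ ^ (Fintype.card (Fin k) - 1) * ‖m - n‖ := fun m n =>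
    MultilinearMap.norm_image_sub_le_of_bound _ hC.le hCb m n
  obtain ⟨m, rfl⟩ : ∃ m, Matrix.of m = M := ⟨fun i j => M i j, rfl⟩
  obtain ⟨n, rfl⟩ : ∃ m, Matrix.of m = N := ⟨fun i j => N i j, rfl⟩
  have hM' : ‖m‖ ≤ B := by
    rw [pi_norm_le_iff_of_nonneg hB]; intro i
    rw [pi_norm_le_iff_of_nonneg hB]; intro j; exact hM i j
  have hN' : ‖n‖ ≤ B := by
    rw [pi_norm_le_iff_of_nonneg hB]; intro i
    rw [pi_norm_le_iff_of_nonneg hB]; intro j; exact hN i j
  have hMN' : ‖m - n‖ ≤ e := by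
    rw [pi_norm_le_iff_of_nonneg he]; intro i
    rw [pi_norm_le_iff_of_nonneg he]; intro j; exact hMN i j
  refine le_trans (h1 m n) ?_
  gcongr
  exact max_le hM' hN'

/-- a product of a `(k+1) × k` matrix and a `k × (k+1)` matrix is singular -/
lemma det_lowrank (k : ℕ) (b : Fin (k+1) → Fin k → ℂ) (c : Fin k → Fin (k+1) → ℂ) :
    (Matrix.of fun i x => ∑ l, b i l * c l x).det = 0 := by
  have : (Matrix.of fun i x => ∑ l, b i l * c l x) = (Matrix.of b) * (Matrix.of c) := by
    ext i x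
    simp [Matrix.mul_apply]
  rw [this]
  by_contra h
  have h1 : IsUnit ((Matrix.of b) * (Matrix.of c)) := by
    rw [Matrix.isUnit_iff_isUnit_det]
    exact isUnit_iff_ne_zero.mpr h
  have h2 := Matrix.rank_of_isUnit _ h1
  have h3 := Matrix.rank_mul_le_left (Matrix.of b) (Matrix.of c)
  have h4 := Matrix.rank_le_width (Matrix.of b)
  rw [h2] at h3
  simp at h3
  omega

end Pool.Agent.H810R2.BAa
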