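import Mathlib
import Pool.Agent.H810R2.BAa

set_option autoImplicit false

namespace Pool.Agent.H810R2.BAb

open Metric Filter Topology Set

/-- The closed Euclidean unit ball of `ℂⁿ`, as a type. -/
abbrev ClosedUnitBall (n : ℕ) : Type := closedBall (0 : EuclideanSpace ℂ (Fin n)) 1

/-- `f` is holomorphic in the open unit ball. -/
def IsHol (n : ℕ) (f : C(ClosedUnitBall n, ℂ)) : Prop :=
  ∃ F : EuclideanSpace ℂ (Fin n) → ℂ,
    DifferentiableOn ℂ F (ball 0 1) ∧ ∀ z : ClosedUnitBall n, ‖z.1‖ < 1 → F z = f z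

theorem IsHol.mul {n : ℕ} {f g : C(ClosedUnitBall n, ℂ)} (hf : IsHol n f) (hg : IsHol n g) :
    IsHol n (f * g) := by
  obtain ⟨F, hF, hFf⟩ := hf
  obtain ⟨G, hG, hGg⟩ := hg
  exact ⟨fun z => F z * G z, hF.mul hG, fun z hz => by simp [hFf z hz, hGg z hz]⟩

theorem IsHol.add {n : ℕ} {f g : C(ClosedUnitBall n, ℂ)} (hf : IsHol n f) (hg : IsHol n g) :
    IsHol n (f + g) := by
  obtain ⟨F, hF, hFf⟩ := hf
  obtain ⟨G, hG, hGg⟩ := hg
  exact ⟨fun z => F z + G z, hF.add hG, fun z hz => by simp [hFf z hz, hGg z hz]⟩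

theorem IsHol.const {n : ℕ} (c : ℂ) : IsHol n (algebraMap ℂ C(ClosedUnitBall n, ℂ) c) :=
  ⟨fun _ => c, differentiableOn_const _, fun z hz => by simp⟩

/-- The ball algebra `A(B)`: complex functions that are continuous on the closed unit ball of `ℂⁿ`
and holomorphic in the open unit ball, as a subalgebra of `C(B̄, ℂ)`, whose topology is that of
the supremum norm. -/
def ballAlgebra (n : ℕ) : Subalgebra ℂ C(ClosedUnitBall n, ℂ) where
  carrier := {f | IsHol n f}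
  mul_mem' := IsHol.mul
  add_mem' := IsHol.add
  algebraMap_mem' := IsHol.const

/-- The zero set `Z(J)` of an ideal of the ball algebra. -/
def zeroSet {n : ℕ} (J : Ideal (ballAlgebra n)) : Set (ClosedUnitBall n) :=
  {w | ∀ f ∈ J, f.1 w = 0}

/-- The norm closure of an ideal of the ball algebra, as a set. -/
def normClosure {n : ℕ} (I : Ideal (ballAlgebra n)) : Set (ballAlgebra n) :=
  closure (I : Set (ballAlgebra n))

section geometry

variable {n : ℕ}

open scoped Classical in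
/-- evaluation of an element of the ball algebra at a vector (zero outside the closed ball) -/
noncomputable def ev (f : ballAlgebra n) (z : (EuclideanSpace ℂ (Fin n))) : ℂ :=
  if h : z ∈ closedBall (0 : (EuclideanSpace ℂ (Fin n))) 1 then (f : C(ClosedUnitBall n, ℂ)) ⟨z, h⟩ else 0

lemma ev_of_mem (f : ballAlgebra n) {z : (EuclideanSpace ℂ (Fin n))} (h : z ∈ closedBall (0 : (EuclideanSpace ℂ (Fin n))) 1) :
    ev f z = (f : C(ClosedUnitBall n, ℂ)) ⟨z, h⟩ := by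
  rw [ev, dif_pos h]

lemma ev_diff (f : ballAlgebra n) : DifferentiableOn ℂ (ev f) (ball 0 1) := by
  obtain ⟨F, hF, hFf⟩ := f.2
  refine hF.congr fun z hz => ?_
  rw [ev_of_mem f (ball_subset_closedBall hz)]
  exact (hFf ⟨z, ball_subset_closedBall hz⟩ (mem_ball_zero_iff.mp hz)).symm

/-- the supremum norm -/
noncomputable def nm (f : ballAlgebra n) : ℝ := ‖(f : C(ClosedUnitBall n, ℂ))‖

lemma nm_nonneg (f : ballAlgebra n) : 0 ≤ nm f := norm_nonneg _

lemma nm_cont : Continuous (nm (n := n)) := continuous_norm.comp continuous_subtype_val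

lemma ev_norm_le (f : ballAlgebra n) (z : (EuclideanSpace ℂ (Fin n))) : ‖ev f z‖ ≤ nm f := by
  rw [ev]
  split_ifs with h
  · exact ContinuousMap.norm_coe_le_norm (f : C(ClosedUnitBall n, ℂ)) _
  · rw [norm_zero]; exact norm_nonneg _

lemma ev_add (f g : ballAlgebra n) (z : (EuclideanSpace ℂ (Fin n))) : ev (f + g) z = ev f z + ev g z := by
  by_cases h : z ∈ closedBall (0 : (EuclideanSpace ℂ (Fin n))) 1
  · simp [ev_of_mem _ h]
  · simp [ev, h]

lemma ev_mul (f g : ballAlgebra n) (z : (EuclideanSpace ℂ (Fin n))) : ev (f * g) z = ev f z * ev g z := by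
  by_cases h : z ∈ closedBall (0 : (EuclideanSpace ℂ (Fin n))) 1
  · simp [ev_of_mem _ h]
  · simp [ev, h]

lemma ev_zero (z : (EuclideanSpace ℂ (Fin n))) : ev (0 : ballAlgebra n) z = 0 := by
  by_cases h : z ∈ closedBall (0 : (EuclideanSpace ℂ (Fin n))) 1
  · simp [ev_of_mem _ h]
  · simp [ev, h]

lemma ev_sum {ι : Type} (s : Finset ι) (f : ι → ballAlgebra n) (z : (EuclideanSpace ℂ (Fin n))) :
    ev (∑ i ∈ s, f i) z = ∑ i ∈ s, ev (f i) z := by
  classical
  induction s using Finset.induction_on with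
  | empty => simp [ev_zero]
  | insert a s ha ih => rw [Finset.sum_insert ha, Finset.sum_insert ha, ev_add, ih]

lemma ev_cont (z : (EuclideanSpace ℂ (Fin n))) : Continuous fun f : ballAlgebra n => ev f z := by
  by_cases h : z ∈ closedBall (0 : (EuclideanSpace ℂ (Fin n))) 1
  · simp only [ev_of_mem _ h]
    exact (continuous_eval_const _).comp continuous_subtype_val
  · simp only [ev, h, ↓reduceDIte]
    exact continuous_const

/-- the point `(1 - 1/s) ζ + (v/s) η` -/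
noncomputable def pt (ζ η : (EuclideanSpace ℂ (Fin n))) (s v : ℂ) : (EuclideanSpace ℂ (Fin n)) := (1 - 1 / s) • ζ + (v / s) • η

lemma norm_comb {ζ η : (EuclideanSpace ℂ (Fin n))} (hζ : ‖ζ‖ = 1) (hη : ‖η‖ = 1) (ho : inner ℂ ζ η = 0) (a b : ℂ) :
    ‖a • ζ + b • η‖ ^ 2 = ‖a‖ ^ 2 + ‖b‖ ^ 2 := by
  have h := @norm_add_sq ℂ (EuclideanSpace ℂ (Fin n)) _ _ _ (a • ζ) (b • η)
  rw [h, inner_smul_left, inner_smul_right, ho]
  simp [norm_smul, hζ, hη]

lemma pt_mem {ζ η : (EuclideanSpace ℂ (Fin n))} (hζ : ‖ζ‖ = 1) (hη : ‖η‖ = 1) (ho : inner ℂ ζ η = 0) {s v : ℂ}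
    (hs : 1 ≤ s.re) (hv : ‖v‖ < 1) : pt ζ η s v ∈ ball (0 : (EuclideanSpace ℂ (Fin n))) 1 := by
  rw [mem_ball_zero_iff]
  have h1 := norm_comb hζ hη ho (1 - 1 / s) (v / s)
  have hs0 : s ≠ 0 := by rintro rfl; simp at hs; linarith
  have hsn : 0 < ‖s‖ ^ 2 := by positivity
  have h2 : ‖1 - 1 / s‖ ^ 2 = ‖s - 1‖ ^ 2 / ‖s‖ ^ 2 := by
    rw [← div_pow, ← norm_div]; congr 2; field_simp
  have h3 : ‖v / s‖ ^ 2 = ‖v‖ ^ 2 / ‖s‖ ^ 2 := by rw [norm_div, div_pow]
  have h4 : ‖s - 1‖ ^ 2 = ‖s‖ ^ 2 - 2 * s.re + 1 := by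
    rw [← Complex.normSq_eq_norm_sq, ← Complex.normSq_eq_norm_sq, Complex.normSq_apply,
      Complex.normSq_apply]
    simp; ring
  have h5 : ‖v‖ ^ 2 < 1 := by
    have := norm_nonneg v
    nlinarith
  have h6 : ‖pt ζ η s v‖ ^ 2 < 1 := by
    rw [pt, h1, h2, h3, ← add_div, h4, div_lt_one hsn]
    linarith
  nlinarith [norm_nonneg (pt ζ η s v)]

lemma inner_pt_left {ζ η : (EuclideanSpace ℂ (Fin n))} (hζ : ‖ζ‖ = 1) (ho : inner ℂ ζ η = 0) (s v : ℂ) :
    inner ℂ ζ (pt ζ η s v) = 1 - 1 / s := by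
  rw [pt, inner_add_right, inner_smul_right, inner_smul_right, ho,
    inner_self_eq_norm_sq_to_K, hζ]
  simp

lemma inner_pt_right {ζ η : (EuclideanSpace ℂ (Fin n))} (hη : ‖η‖ = 1) (ho : inner ℂ ζ η = 0) (s v : ℂ) :
    inner ℂ η (pt ζ η s v) = v / s := by
  have ho' : inner ℂ η ζ = 0 := by rw [← inner_conj_symm, ho]; simp
  rw [pt, inner_add_right, inner_smul_right, inner_smul_right, ho',
    inner_self_eq_norm_sq_to_K, hη]
  simp

/-- the monomial `z₂^j exp(-c/(1-z₁)) (1-z₁)` -/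
noncomputable def mono (ζ η : (EuclideanSpace ℂ (Fin n))) (j : ℕ) (c : ℝ) (z : (EuclideanSpace ℂ (Fin n))) : ℂ :=
  (inner ℂ η z) ^ j * Complex.exp (-(c / (1 - inner ℂ ζ z))) * (1 - inner ℂ ζ z)

lemma mono_pt {ζ η : (EuclideanSpace ℂ (Fin n))} (hζ : ‖ζ‖ = 1) (hη : ‖η‖ = 1) (ho : inner ℂ ζ η = 0) (j : ℕ) (c : ℝ)
    {s : ℂ} (hs : s ≠ 0) (v : ℂ) :
    mono ζ η j c (pt ζ η s v) = (v / s) ^ j * Complex.exp (-(c * s)) * (1 / s) := by
  rw [mono, inner_pt_left hζ ho, inner_pt_right hη ho]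
  have : (1 : ℂ) - (1 - 1 / s) = 1 / s := by ring
  rw [this]
  congr 4
  field_simp

lemma inner_bound {ζ : (EuclideanSpace ℂ (Fin n))} (hζ : ‖ζ‖ = 1) {z : (EuclideanSpace ℂ (Fin n))} (hz : z ∈ closedBall (0 : (EuclideanSpace ℂ (Fin n))) 1) :
    ‖inner ℂ ζ z‖ ≤ 1 := by
  have := norm_inner_le_norm (𝕜 := ℂ) ζ z
  rw [mem_closedBall_zero_iff] at hz
  rw [hζ, one_mul] at this
  linarith

lemma exp_bound {c : ℝ} (hc : 0 ≤ c) {w : ℂ} (hw : ‖w‖ ≤ 1) :
    ‖Complex.exp (-(c / (1 - w)))‖ ≤ 1 := by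
  rw [Complex.norm_exp, Real.exp_le_one_iff]
  have h1 : 0 ≤ (1 - w).re := by
    have := Complex.re_le_norm w
    simp; linarith
  have h2 : ((c : ℂ) / (1 - w)).re = c * (1 - w).re / Complex.normSq (1 - w) := by
    rw [Complex.div_re]; simp
  rw [Complex.neg_re, h2]
  have : 0 ≤ c * (1 - w).re / Complex.normSq (1 - w) :=
    div_nonneg (mul_nonneg hc h1) (Complex.normSq_nonneg _)
  linarith

lemma inner_eq_one {ζ : (EuclideanSpace ℂ (Fin n))} (hζ : ‖ζ‖ = 1) {z : (EuclideanSpace ℂ (Fin n))} (hz : z ∈ closedBall (0 : (EuclideanSpace ℂ (Fin n))) 1)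
    (h : inner ℂ ζ z = 1) : z = ζ := by
  rw [mem_closedBall_zero_iff] at hz
  have h1 := @norm_sub_sq ℂ (EuclideanSpace ℂ (Fin n)) _ _ _ ζ z
  rw [h, hζ] at h1
  simp only [RCLike.one_re] at h1
  have h2 : ‖ζ - z‖ ^ 2 ≤ 0 := by
    rw [h1]
    nlinarith [norm_nonneg z]
  have h3 : ‖ζ - z‖ = 0 := by nlinarith [norm_nonneg (ζ - z)]
  rw [norm_eq_zero, sub_eq_zero] at h3
  exact h3.symm

lemma mono_cont {ζ η : (EuclideanSpace ℂ (Fin n))} (hζ : ‖ζ‖ = 1) (hη : ‖η‖ = 1) (j : ℕ) {c : ℝ} (hc : 0 ≤ c) :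
    ContinuousOn (mono ζ η j c) (closedBall (0 : (EuclideanSpace ℂ (Fin n))) 1) := by
  intro z hz
  by_cases h : inner ℂ ζ z = 1
  · have h0 : mono ζ η j c z = 0 := by simp [mono, h]
    rw [ContinuousWithinAt, h0]
    apply squeeze_zero_norm' (a := fun w => ‖1 - inner ℂ ζ w‖)
    · filter_upwards [self_mem_nhdsWithin] with w hw
      rw [mono, norm_mul, norm_mul, norm_pow]
      have h1 : ‖inner ℂ η w‖ ^ j ≤ 1 := pow_le_one₀ (norm_nonneg _) (inner_bound hη hw)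
      have h2 := exp_bound hc (inner_bound hζ hw)
      have h3 : ‖inner ℂ η w‖ ^ j * ‖Complex.exp (-(c / (1 - inner ℂ ζ w)))‖ ≤ 1 := by
        have := mul_le_mul h1 h2 (norm_nonneg _) zero_le_one
        simpa using this
      have := mul_le_mul_of_nonneg_right h3 (norm_nonneg (1 - inner ℂ ζ w))
      simpa using this
    · have hc : ContinuousAt (fun w : (EuclideanSpace ℂ (Fin n)) => ‖1 - inner ℂ ζ w‖) z := by
        apply Continuous.continuousAt
        fun_prop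
      have := hc.tendsto
      simp only [h, sub_self, norm_zero] at this
      exact this.mono_left nhdsWithin_le_nhds
  · apply ContinuousAt.continuousWithinAt
    have h' : (1 : ℂ) - inner ℂ ζ z ≠ 0 := fun hh => h (sub_eq_zero.mp hh).symm
    unfold mono
    fun_prop (disch := assumption)

lemma mono_diff {ζ η : (EuclideanSpace ℂ (Fin n))} (hζ : ‖ζ‖ = 1) (j : ℕ) (c : ℝ) :
    DifferentiableOn ℂ (mono ζ η j c) (ball (0 : (EuclideanSpace ℂ (Fin n))) 1) := by
  intro z hz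
  apply DifferentiableAt.differentiableWithinAt
  have h : inner ℂ ζ z ≠ 1 := by
    intro h
    have := inner_eq_one hζ (ball_subset_closedBall hz) h
    rw [this, mem_ball_zero_iff, hζ] at hz
    exact lt_irrefl _ hz
  have h' : (1 : ℂ) - inner ℂ ζ z ≠ 0 := fun hh => h (sub_eq_zero.mp hh).symm
  have e1 : DifferentiableAt ℂ (fun z : (EuclideanSpace ℂ (Fin n)) => inner ℂ ζ z) z := (innerSL ℂ ζ).differentiableAt
  have e2 : DifferentiableAt ℂ (fun z : (EuclideanSpace ℂ (Fin n)) => inner ℂ η z) z := (innerSL ℂ η).differentiableAt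
  unfold mono
  have e3 : DifferentiableAt ℂ (fun z : (EuclideanSpace ℂ (Fin n)) => (1 : ℂ) - inner ℂ ζ z) z := e1.const_sub 1
  have e5 : DifferentiableAt ℂ (fun z : (EuclideanSpace ℂ (Fin n)) => (1 - inner ℂ ζ z : ℂ)⁻¹) z := e3.inv h'
  have e4 : DifferentiableAt ℂ (fun z : (EuclideanSpace ℂ (Fin n)) => -((c : ℂ) / (1 - inner ℂ ζ z))) z := by
    simp only [div_eq_mul_inv]
    exact (e5.const_mul _).neg
  exact ((e2.pow j).mul e4.cexp).mul e3

/-- the monomials as elements of the ball algebra -/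
noncomputable def monoA (ζ η : (EuclideanSpace ℂ (Fin n))) (hζ : ‖ζ‖ = 1) (hη : ‖η‖ = 1) (j : ℕ) (c : ℝ) (hc : 0 ≤ c) :
    ballAlgebra n :=
  ⟨⟨fun z => mono ζ η j c z, by
    have := mono_cont hζ hη j hc
    rw [continuousOn_iff_continuous_domRestrict] at this
    exact this⟩, mono ζ η j c, mono_diff hζ j c, fun _ _ => rfl⟩

lemma ev_monoA (ζ η : (EuclideanSpace ℂ (Fin n))) (hζ : ‖ζ‖ = 1) (hη : ‖η‖ = 1) (j : ℕ) (c : ℝ) (hc : 0 ≤ c) {z : (EuclideanSpace ℂ (Fin n))}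
    (hz : z ∈ closedBall (0 : (EuclideanSpace ℂ (Fin n))) 1) : ev (monoA ζ η hζ hη j c hc) z = mono ζ η j c z := by
  rw [ev_of_mem _ hz]
  rfl

/-- Lipschitz estimate along the second coordinate (Schwarz lemma). -/
lemma ev_schwarz {ζ η : (EuclideanSpace ℂ (Fin n))} (hζ : ‖ζ‖ = 1) (hη : ‖η‖ = 1) (ho : inner ℂ ζ η = 0)
    (f : ballAlgebra n) {s v : ℂ} (hs : 1 ≤ s.re) (hv : ‖v‖ < 1) :
    ‖ev f (pt ζ η s v) - ev f (pt ζ η s 0)‖ ≤ (2 * nm f + 1) * ‖v‖ := by
  have hd : DifferentiableOn ℂ (fun w : ℂ => ev f (pt ζ η s w)) (ball 0 1) := by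
    apply (ev_diff f).comp
    · unfold pt
      fun_prop
    · intro w hw
      exact pt_mem hζ hη ho hs (by simpa using hw)
  have h1 : MapsTo (fun w : ℂ => ev f (pt ζ η s w)) (ball 0 1)
      (closedBall (ev f (pt ζ η s 0)) (2 * nm f + 1)) := by
    intro w _
    rw [mem_closedBall, dist_eq_norm]
    have e1 := ev_norm_le f (pt ζ η s w)
    have e2 := ev_norm_le f (pt ζ η s 0)
    have := norm_sub_le (ev f (pt ζ η s w)) (ev f (pt ζ η s 0))
    linarith
  have h2 := Complex.dist_le_div_mul_dist_of_mapsTo_ball hd h1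
    (z := v) (by simpa using hv)
  simpa [dist_eq_norm] using h2

end geometry

section main

variable {n : ℕ}

/-- value along the curve `u = x exp(-s/16^k)`, normalised -/
noncomputable def val (ζ η : (EuclideanSpace ℂ (Fin n))) (k : ℕ) (x : ℝ) (f : ballAlgebra n) (s : ℂ) : ℂ :=
  Complex.exp ((2 / 4 ^ k : ℝ) * s) * ev f (pt ζ η s (x * Complex.exp (-((1 / (4 ^ k) ^ 2 : ℝ) * s))))

/-- the condition on the abscissa -/
def okR (k : ℕ) (R : ℝ) : Prop := 1 ≤ R ∧ (k + 1) * Real.exp (-((1 / (4 ^ k) ^ 2 : ℝ) * R)) < 1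

lemma exists_okR (k : ℕ) : ∃ R, okR k R := by
  have h1 : Tendsto (fun R : ℝ => (k + 1) * Real.exp (-((1 / (4 ^ k) ^ 2 : ℝ) * R))) atTop
      (𝓝 ((k + 1) * 0)) := by
    apply Tendsto.const_mul
    apply Real.tendsto_exp_neg_atTop_nhds_zero.comp
    exact tendsto_id.const_mul_atTop (by positivity)
  rw [mul_zero] at h1
  obtain ⟨R, hR1, hR2⟩ := ((h1.eventually_lt_const (zero_lt_one)).and
    (eventually_ge_atTop (1 : ℝ))).exists
  exact ⟨R, hR2, hR1⟩

lemma curve_norm {k : ℕ} {x : ℝ} (hx0 : 0 ≤ x) (hx : x ≤ k + 1) (s : ℂ) :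
    ‖(x : ℂ) * Complex.exp (-((1 / (4 ^ k) ^ 2 : ℝ) * s))‖ ≤
      (k + 1) * Real.exp (-((1 / (4 ^ k) ^ 2 : ℝ) * s.re)) := by
  rw [norm_mul, Complex.norm_exp, Complex.norm_real, Real.norm_eq_abs, abs_of_nonneg hx0]
  simp only [Complex.neg_re, Complex.re_ofReal_mul]
  gcongr

lemma curve_lt {k : ℕ} {R : ℝ} (hR : okR k R) {x : ℝ} (hx0 : 0 ≤ x) (hx : x ≤ k + 1) {s : ℂ}
    (hs : R ≤ s.re) :
    ‖(x : ℂ) * Complex.exp (-((1 / (4 ^ k) ^ 2 : ℝ) * s))‖ < 1 := by
  refine lt_of_le_of_lt (curve_norm hx0 hx s) (lt_of_le_of_lt ?_ hR.2)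
  gcongr

lemma val_diff {ζ η : (EuclideanSpace ℂ (Fin n))} (hζ : ‖ζ‖ = 1) (hη : ‖η‖ = 1) (ho : inner ℂ ζ η = 0) {k : ℕ} {R : ℝ}
    (hR : okR k R) {x : ℝ} (hx0 : 0 ≤ x) (hx : x ≤ k + 1) (f : ballAlgebra n) :
    DifferentiableOn ℂ (val ζ η k x f) {s | R < s.re} := by
  unfold val
  apply DifferentiableOn.mul
  · fun_prop
  · apply (ev_diff f).comp
    · intro s hs
      have hs0 : s ≠ 0 := by
        rintro rfl
        simp only [mem_ofPred_eq, Complex.zero_re] at hs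
        linarith [hR.1]
      apply DifferentiableAt.differentiableWithinAt
      unfold pt
      fun_prop (disch := assumption)
    · intro s hs
      simp only [mem_ofPred_eq] at hs
      exact pt_mem hζ hη ho (by linarith [hR.1]) (curve_lt hR hx0 hx hs.le)

/-- the admissible monomials -/
def gens (ζ η : (EuclideanSpace ℂ (Fin n))) (hζ : ‖ζ‖ = 1) (hη : ‖η‖ = 1) : Set (ballAlgebra n) :=
  {f | ∃ (j : ℕ) (c : ℝ) (hc : 0 ≤ c), (∀ k : ℕ, 2 / (4 : ℝ) ^ k ≤ c + j / ((4 : ℝ) ^ k) ^ 2) ∧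
    f = monoA ζ η hζ hη j c hc}

lemma val_add {ζ η : (EuclideanSpace ℂ (Fin n))} (k : ℕ) (x : ℝ) (f g : ballAlgebra n) (s : ℂ) :
    val ζ η k x (f + g) s = val ζ η k x f s + val ζ η k x g s := by
  simp only [val, ev_add]; ring

lemma val_zero {ζ η : (EuclideanSpace ℂ (Fin n))} (k : ℕ) (x : ℝ) (s : ℂ) :
    val ζ η k x (0 : ballAlgebra n) s = 0 := by
  simp only [val, ev_zero]; ring

lemma val_mul {ζ η : (EuclideanSpace ℂ (Fin n))} (k : ℕ) (x : ℝ) (f g : ballAlgebra n) (s : ℂ) :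
    val ζ η k x (f * g) s = ev f (pt ζ η s (x * Complex.exp (-((1 / (4 ^ k) ^ 2 : ℝ) * s)))) *
      val ζ η k x g s := by
  simp only [val, ev_mul]; ring

lemma val_norm_le {ζ η : (EuclideanSpace ℂ (Fin n))} (k : ℕ) (x : ℝ) (f : ballAlgebra n) (s : ℂ) :
    ‖val ζ η k x f s‖ ≤ Real.exp (2 / 4 ^ k * s.re) * nm f := by
  rw [val, norm_mul, Complex.norm_exp, Complex.re_ofReal_mul]
  gcongr
  exact ev_norm_le _ _

lemma val_cont {ζ η : (EuclideanSpace ℂ (Fin n))} (k : ℕ) (x : ℝ) (s : ℂ) :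
    Continuous fun f : ballAlgebra n => val ζ η k x f s := by
  unfold val
  exact (ev_cont _).const_mul _ |>.congr (fun _ => rfl)

lemma val_mono {ζ η : (EuclideanSpace ℂ (Fin n))} (hζ : ‖ζ‖ = 1) (hη : ‖η‖ = 1) (ho : inner ℂ ζ η = 0) {k : ℕ} {R : ℝ}
    (hR : okR k R) {x : ℝ} (hx0 : 0 ≤ x) (hx : x ≤ k + 1) (j : ℕ) (c : ℝ) (hc : 0 ≤ c) {s : ℂ}
    (hs : R ≤ s.re) :
    val ζ η k x (monoA ζ η hζ hη j c hc) s =
      x ^ j * (1 / s) ^ (j + 1) *
        Complex.exp (((2 / 4 ^ k - (c + j / (4 ^ k) ^ 2) : ℝ) : ℂ) * s) := by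
  have hs1 : 1 ≤ s.re := by linarith [hR.1]
  have hs0 : s ≠ 0 := by rintro rfl; simp at hs1; linarith
  rw [val, ev_monoA _ _ _ _ _ _ _ (ball_subset_closedBall
    (pt_mem hζ hη ho hs1 (curve_lt hR hx0 hx hs))), mono_pt hζ hη ho _ _ hs0, div_pow, mul_pow,
    ← Complex.exp_nat_mul]
  have : Complex.exp (((2 / 4 ^ k - (c + j / (4 ^ k) ^ 2) : ℝ) : ℂ) * s) =
      Complex.exp ((2 / 4 ^ k : ℝ) * s) * Complex.exp (j * -((1 / (4 ^ k) ^ 2 : ℝ) * s)) *
        Complex.exp (-(c * s)) := by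
    rw [← Complex.exp_add, ← Complex.exp_add]
    congr 1
    push_cast
    ring
  rw [this]
  rw [pow_succ, one_div_pow]
  ring

lemma gens_bound {ζ η : (EuclideanSpace ℂ (Fin n))} (hζ : ‖ζ‖ = 1) (hη : ‖η‖ = 1) (ho : inner ℂ ζ η = 0) {k : ℕ} {R : ℝ}
    (hR : okR k R) {x : ℝ} (hx0 : 0 ≤ x) (hx : x ≤ k + 1) {f : ballAlgebra n}
    (hf : f ∈ Ideal.span (gens ζ η hζ hη)) :
    ∃ K : ℝ, ∀ s : ℂ, R ≤ s.re → ‖val ζ η k x f s‖ ≤ K := by
  induction hf using Submodule.span_induction with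
  | mem f hf =>
    obtain ⟨j, c, hc, hadm, rfl⟩ := hf
    refine ⟨x ^ j, fun s hs => ?_⟩
    rw [val_mono hζ hη ho hR hx0 hx j c hc hs, norm_mul, norm_mul, Complex.norm_exp,
      Complex.re_ofReal_mul]
    have h1 : ‖(x : ℂ) ^ j‖ = x ^ j := by
      rw [norm_pow, Complex.norm_real, Real.norm_eq_abs, abs_of_nonneg hx0]
    have hs1 : 1 ≤ ‖s‖ := by
      have := Complex.re_le_norm s
      linarith [hR.1]
    have h2 : ‖(1 / s) ^ (j + 1)‖ ≤ 1 := by
      rw [norm_pow, norm_div, norm_one]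
      apply pow_le_one₀ (by positivity)
      rw [div_le_one (by positivity)]
      exact hs1
    have h3 : Real.exp ((2 / 4 ^ k - (c + j / (4 ^ k) ^ 2)) * s.re) ≤ 1 := by
      rw [Real.exp_le_one_iff]
      apply mul_nonpos_of_nonpos_of_nonneg
      · linarith [hadm k]
      · linarith [hR.1]
    rw [h1]
    have h4 : x ^ j * ‖(1 / s) ^ (j + 1)‖ ≤ x ^ j * 1 := by gcongr
    calc _ ≤ x ^ j * 1 * 1 := by gcongr
      _ = x ^ j := by ring
  | zero => exact ⟨0, fun s _ => by rw [val_zero, norm_zero]⟩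
  | add f g _ _ h1 h2 =>
    obtain ⟨K1, h1⟩ := h1
    obtain ⟨K2, h2⟩ := h2
    refine ⟨K1 + K2, fun s hs => ?_⟩
    rw [val_add]
    exact (norm_add_le _ _).trans (add_le_add (h1 s hs) (h2 s hs))
  | smul a f _ h =>
    obtain ⟨K, h⟩ := h
    refine ⟨nm a * K, fun s hs => ?_⟩
    rw [smul_eq_mul, val_mul, norm_mul]
    exact mul_le_mul (ev_norm_le _ _) (h s hs) (norm_nonneg _) (nm_nonneg _)

lemma val_bound0 {ζ η : (EuclideanSpace ℂ (Fin n))} (hζ : ‖ζ‖ = 1) (hη : ‖η‖ = 1) (ho : inner ℂ ζ η = 0) {k : ℕ} {R' R : ℝ}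
    (hR : okR k R') (hRR : R' < R) {x : ℝ} (hx0 : 0 ≤ x) (hx : x ≤ k + 1) {f : ballAlgebra n}
    (hf : f ∈ Ideal.span (gens ζ η hζ hη)) :
    ∀ s : ℂ, R ≤ s.re → ‖val ζ η k x f s‖ ≤ Real.exp (2 / 4 ^ k * R) * nm f := by
  obtain ⟨K, hK⟩ := gens_bound hζ hη ho hR hx0 hx hf
  apply Pool.Agent.H810R2.BAa.pl hRR (val_diff hζ hη ho hR hx0 hx f)
    (fun s hs => hK s (by linarith))
  intro s hs
  have := val_norm_le (ζ := ζ) (η := η) k x f s
  rwa [hs] at this

lemma val_bound {ζ η : (EuclideanSpace ℂ (Fin n))} (hζ : ‖ζ‖ = 1) (hη : ‖η‖ = 1) (ho : inner ℂ ζ η = 0) {k : ℕ} {R' R : ℝ}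
    (hR : okR k R') (hRR : R' < R) {x : ℝ} (hx0 : 0 ≤ x) (hx : x ≤ k + 1) {f : ballAlgebra n}
    (hf : f ∈ closure (Ideal.span (gens ζ η hζ hη) : Set (ballAlgebra n))) :
    ∀ s : ℂ, R ≤ s.re → ‖val ζ η k x f s‖ ≤ Real.exp (2 / 4 ^ k * R) * nm f := by
  intro s hs
  have hcl : IsClosed {f : ballAlgebra n | ‖val ζ η k x f s‖ ≤ Real.exp (2 / 4 ^ k * R) * nm f} :=
    isClosed_le (val_cont k x s).norm (continuous_const.mul nm_cont)
  exact closure_minimal (fun f hf => val_bound0 hζ hη ho hR hRR hx0 hx hf s hs) hcl hf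

/-- the determinant of the normalised values -/
noncomputable def D (ζ η : (EuclideanSpace ℂ (Fin n))) (k : ℕ) (f : Fin (k + 1) → ballAlgebra n) (s : ℂ) : ℂ :=
  (Matrix.of fun (i x : Fin (k + 1)) => val ζ η k ((x : ℝ) + 1) (f i) s).det

lemma x_nonneg {k : ℕ} (x : Fin (k + 1)) : (0 : ℝ) ≤ (x : ℝ) + 1 := by positivity

lemma x_le {k : ℕ} (x : Fin (k + 1)) : (x : ℝ) + 1 ≤ (k : ℝ) + 1 := by
  have := x.2
  have h : (x : ℕ) ≤ k := by omega
  have : ((x : ℕ) : ℝ) ≤ k := by exact_mod_cast h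
  linarith

lemma D_diff {ζ η : (EuclideanSpace ℂ (Fin n))} (hζ : ‖ζ‖ = 1) (hη : ‖η‖ = 1) (ho : inner ℂ ζ η = 0) {k : ℕ} {R : ℝ}
    (hR : okR k R) (f : Fin (k + 1) → ballAlgebra n) :
    DifferentiableOn ℂ (D ζ η k f) {s | R < s.re} := by
  unfold D
  simp only [Matrix.det_apply, Matrix.of_apply]
  apply DifferentiableOn.fun_sum
  intro σ _
  apply DifferentiableOn.const_smul
  apply DifferentiableOn.fun_finsetProd
  intro i _
  exact val_diff hζ hη ho hR (x_nonneg _) (x_le _) _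

lemma D_cont {ζ η : (EuclideanSpace ℂ (Fin n))} (k : ℕ) (s : ℂ) :
    Continuous fun f : Fin (k + 1) → ballAlgebra n => D ζ η k f s := by
  unfold D
  apply Continuous.matrix_det
  refine continuous_pi fun i => continuous_pi fun x => ?_
  exact (val_cont k _ s).comp (continuous_apply i)

/-- the bound of the determinant on the algebraic ideal, with a bad constant -/
lemma D_decay {ζ η : (EuclideanSpace ℂ (Fin n))} (hζ : ‖ζ‖ = 1) (hη : ‖η‖ = 1) (ho : inner ℂ ζ η = 0) {k : ℕ} {R' R : ℝ}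
    (hR : okR k R') (hRR : R' < R) (g : Fin k → ballAlgebra n)
    (hg : ∀ l, g l ∈ closure (Ideal.span (gens ζ η hζ hη) : Set (ballAlgebra n)))
    (f : Fin (k + 1) → ballAlgebra n) (hf : ∀ i, f i ∈ Ideal.span (range g)) :
    ∃ K : ℝ, ∀ s : ℂ, R ≤ s.re →
      ‖Complex.exp ((1 / (4 ^ k) ^ 2 : ℝ) * s) * D ζ η k f s‖ ≤ K := by
  have hf' : ∀ i, ∃ c : Fin k → ballAlgebra n, ∑ l, c l * g l = f i := by
    intro i
    obtain ⟨c, hc⟩ := (Submodule.mem_span_range_iff_exists_fun (ballAlgebra n)).mp (hf i)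
    exact ⟨c, by simpa using hc⟩
  choose h hh using hf'
  set E : ℝ := Real.exp (2 / 4 ^ k * R) with hE
  have hE0 : 0 ≤ E := (Real.exp_pos _).le
  set B : ℝ := ∑ i, ∑ l, (2 * nm (h i l) + 1) * (E * nm (g l)) with hB
  have hterm : ∀ i l, 0 ≤ (2 * nm (h i l) + 1) * (E * nm (g l)) := fun i l => by
    have := nm_nonneg (h i l)
    have := nm_nonneg (g l)
    positivity
  have hBi : ∀ i, ∑ l, (2 * nm (h i l) + 1) * (E * nm (g l)) ≤ B := fun i =>
    Finset.single_le_sum (f := fun i => ∑ l, (2 * nm (h i l) + 1) * (E * nm (g l)))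
      (fun i _ => Finset.sum_nonneg fun l _ => hterm i l) (Finset.mem_univ i)
  have hB0 : 0 ≤ B := (Finset.sum_nonneg fun l _ => hterm 0 l).trans (hBi 0)
  obtain ⟨L, hL0, hL⟩ := Pool.Agent.H810R2.BAa.det_lip (k + 1) B
  refine ⟨L * ((k + 1) * B), fun s hs => ?_⟩
  have hs1 : 1 ≤ s.re := by linarith [hR.1]
  set e : ℝ := Real.exp (-((1 / (4 ^ k) ^ 2 : ℝ) * s.re)) with he
  have he0 : 0 < e := Real.exp_pos _
  let v : Fin (k + 1) → ℂ := fun x =>
    (((x : ℝ) + 1 : ℝ) : ℂ) * Complex.exp (-((1 / (4 ^ k) ^ 2 : ℝ) * s))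
  have hv : ∀ x, ‖v x‖ ≤ (k + 1) * e := fun x => curve_norm (x_nonneg x) (x_le x) s
  have hv1 : ∀ x, ‖v x‖ < 1 := fun x => curve_lt hR (x_nonneg x) (x_le x) (by linarith)
  have hgv : ∀ l (x : Fin (k + 1)), ‖val ζ η k ((x : ℝ) + 1) (g l) s‖ ≤ E * nm (g l) := fun l x =>
    val_bound hζ hη ho hR hRR (x_nonneg x) (x_le x) (hg l) s hs
  have hM : ∀ i (x : Fin (k + 1)), val ζ η k ((x : ℝ) + 1) (f i) s =
      ∑ l, ev (h i l) (pt ζ η s (v x)) * val ζ η k ((x : ℝ) + 1) (g l) s := by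
    intro i x
    rw [← hh i]
    rw [val, ev_sum, Finset.mul_sum]
    apply Finset.sum_congr rfl
    intro l _
    rw [← val, val_mul]
  have hdet := hL (Matrix.of fun (i x : Fin (k + 1)) => val ζ η k ((x : ℝ) + 1) (f i) s)
    (Matrix.of fun (i x : Fin (k + 1)) =>
      ∑ l, ev (h i l) (pt ζ η s 0) * val ζ η k ((x : ℝ) + 1) (g l) s) ((k + 1) * e * B)
      (by positivity) ?_ ?_ ?_
  · rw [Pool.Agent.H810R2.BAa.det_lowrank k (fun i l => ev (h i l) (pt ζ η s 0))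
      (fun l (x : Fin (k + 1)) => val ζ η k ((x : ℝ) + 1) (g l) s), sub_zero] at hdet
    rw [norm_mul, Complex.norm_exp, Complex.re_ofReal_mul, D]
    have h1 : Real.exp (1 / (4 ^ k) ^ 2 * s.re) * e = 1 := by
      rw [he, ← Real.exp_add]; simp
    calc _ ≤ Real.exp (1 / (4 ^ k) ^ 2 * s.re) * (L * ((k + 1) * e * B)) := by gcongr
      _ = (Real.exp (1 / (4 ^ k) ^ 2 * s.re) * e) * (L * ((k + 1) * B)) := by ring
      _ = _ := by rw [h1, one_mul]
  · intro i x
    rw [Matrix.of_apply, hM]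
    refine (norm_sum_le _ _).trans ((Finset.sum_le_sum fun l _ => ?_).trans (hBi i))
    rw [norm_mul]
    have := ev_norm_le (h i l) (pt ζ η s (v x))
    have h0 := nm_nonneg (h i l)
    exact mul_le_mul (by linarith) (hgv l x) (norm_nonneg _) (by linarith)
  · intro i x
    rw [Matrix.of_apply]
    refine (norm_sum_le _ _).trans ((Finset.sum_le_sum fun l _ => ?_).trans (hBi i))
    rw [norm_mul]
    have := ev_norm_le (h i l) (pt ζ η s 0)
    have h0 := nm_nonneg (h i l)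
    exact mul_le_mul (by linarith) (hgv l x) (norm_nonneg _) (by linarith)
  · intro i x
    rw [Matrix.of_apply, Matrix.of_apply, hM, ← Finset.sum_sub_distrib]
    refine (norm_sum_le _ _).trans ?_
    calc _ ≤ ∑ l, ((k + 1) * e) * ((2 * nm (h i l) + 1) * (E * nm (g l))) := by
          apply Finset.sum_le_sum
          intro l _
          rw [← sub_mul, norm_mul]
          have h2 := ev_schwarz hζ hη ho (h i l) hs1 (hv1 x)
          have h0 := nm_nonneg (h i l)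
          have h3 : ‖ev (h i l) (pt ζ η s (v x)) - ev (h i l) (pt ζ η s 0)‖ ≤
              (2 * nm (h i l) + 1) * ((k + 1) * e) :=
            h2.trans (mul_le_mul_of_nonneg_left (hv x) (by linarith))
          calc _ ≤ ((2 * nm (h i l) + 1) * ((k + 1) * e)) * (E * nm (g l)) :=
                mul_le_mul h3 (hgv l x) (norm_nonneg _) (by positivity)
            _ = _ := by ring
      _ = ((k + 1) * e) * ∑ l, ((2 * nm (h i l) + 1) * (E * nm (g l))) := by
          rw [Finset.mul_sum]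
      _ ≤ (k + 1) * e * B := by gcongr; exact hBi i

/-- the bound of the determinant on the algebraic ideal, with a good constant -/
lemma D_unif {ζ η : (EuclideanSpace ℂ (Fin n))} (hζ : ‖ζ‖ = 1) (hη : ‖η‖ = 1) (ho : inner ℂ ζ η = 0) {k : ℕ} {R' R : ℝ}
    (hR : okR k R') (hRR : R' < R) (g : Fin k → ballAlgebra n)
    (hg : ∀ l, g l ∈ closure (Ideal.span (gens ζ η hζ hη) : Set (ballAlgebra n)))
    (f : Fin (k + 1) → ballAlgebra n) (hf : ∀ i, f i ∈ Ideal.span (range g)) (s : ℂ)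
    (hs : R ≤ s.re) :
    ‖Complex.exp ((1 / (4 ^ k) ^ 2 : ℝ) * s) * D ζ η k f s‖ ≤
      Real.exp (1 / (4 ^ k) ^ 2 * R) * ((k + 1).factorial *
        (∑ i, Real.exp (2 / 4 ^ k * R) * nm (f i)) ^ (k + 1)) := by
  obtain ⟨K, hK⟩ := D_decay hζ hη ho hR hRR g hg f hf
  refine Pool.Agent.H810R2.BAa.pl (φ := fun s => Complex.exp ((1 / (4 ^ k) ^ 2 : ℝ) * s) *
    D ζ η k f s) hRR ?_ hK ?_ s hs
  · apply DifferentiableOn.mul
    · fun_prop
    · exact D_diff hζ hη ho hR f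
  · intro s hs
    rw [norm_mul, Complex.norm_exp, Complex.re_ofReal_mul, hs]
    gcongr
    have := Matrix.det_le (A := Matrix.of fun (i x : Fin (k + 1)) => val ζ η k ((x : ℝ) + 1) (f i) s)
      (abv := (NormedField.toAbsoluteValue ℂ)) (x := ∑ i, Real.exp (2 / 4 ^ k * R) * nm (f i)) ?_
    · rw [nsmul_eq_mul, Fintype.card_fin] at this
      exact this
    · intro i x
      rw [Matrix.of_apply]
      have h1 := val_norm_le (ζ := ζ) (η := η) k ((x : ℝ) + 1) (f i) s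
      rw [hs] at h1
      refine h1.trans ?_
      exact Finset.single_le_sum (f := fun i => Real.exp (2 / 4 ^ k * R) * nm (f i))
        (fun i _ => mul_nonneg (Real.exp_pos _).le (nm_nonneg _)) (Finset.mem_univ i)

lemma D_unif' {ζ η : (EuclideanSpace ℂ (Fin n))} (hζ : ‖ζ‖ = 1) (hη : ‖η‖ = 1) (ho : inner ℂ ζ η = 0) {k : ℕ} {R' R : ℝ}
    (hR : okR k R') (hRR : R' < R) (g : Fin k → ballAlgebra n)
    (hg : ∀ l, g l ∈ closure (Ideal.span (gens ζ η hζ hη) : Set (ballAlgebra n)))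
    (f : Fin (k + 1) → ballAlgebra n)
    (hf : ∀ i, f i ∈ closure (Ideal.span (range g) : Set (ballAlgebra n))) (s : ℂ)
    (hs : R ≤ s.re) :
    ‖Complex.exp ((1 / (4 ^ k) ^ 2 : ℝ) * s) * D ζ η k f s‖ ≤
      Real.exp (1 / (4 ^ k) ^ 2 * R) * ((k + 1).factorial *
        (∑ i, Real.exp (2 / 4 ^ k * R) * nm (f i)) ^ (k + 1)) := by
  have hcl : IsClosed {f : Fin (k + 1) → ballAlgebra n |
      ‖Complex.exp ((1 / (4 ^ k) ^ 2 : ℝ) * s) * D ζ η k f s‖ ≤
      Real.exp (1 / (4 ^ k) ^ 2 * R) * ((k + 1).factorial *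
        (∑ i, Real.exp (2 / 4 ^ k * R) * nm (f i)) ^ (k + 1))} := by
    apply isClosed_le
    · exact (continuous_const.mul (D_cont k s)).norm
    · refine continuous_const.mul (continuous_const.mul (Continuous.pow ?_ _))
      exact continuous_finsetSum _ fun i _ => continuous_const.mul (nm_cont.comp (continuous_apply i))
  have h1 : f ∈ closure (Set.pi univ fun _ : Fin (k + 1) =>
      (Ideal.span (range g) : Set (ballAlgebra n))) := by
    rw [closure_pi_set]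
    exact fun i _ => hf i
  exact closure_minimal (fun f (hf : f ∈ Set.pi univ fun _ : Fin (k + 1) =>
    (Ideal.span (range g) : Set (ballAlgebra n))) =>
    D_unif hζ hη ho hR hRR g hg f (fun i => hf i (mem_univ i)) s hs) hcl h1

/-- the Newton polygon has an edge with `k + 1` lattice points, for every `k` -/
lemma newton (k i : ℕ) (hi : i ≤ k) (m : ℕ) :
    2 / (4 : ℝ) ^ m ≤ ((4 : ℝ) ^ k - i) / ((4 : ℝ) ^ k) ^ 2 + ((4 ^ k + i : ℕ) : ℝ) / ((4 : ℝ) ^ m) ^ 2 := by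
  have hk4 : ∀ k : ℕ, (2 * k : ℝ) ≤ 4 ^ k := by
    intro k
    induction k with
    | zero => simp
    | succ k ih =>
      rw [pow_succ]; push_cast
      have : (1 : ℝ) ≤ 4 ^ k := one_le_pow₀ (by norm_num)
      linarith
  set a : ℝ := 4 ^ k with ha
  set b : ℝ := 4 ^ m with hb
  have ha0 : 0 < a := by positivity
  have hb0 : 0 < b := by positivity
  have hia : 2 * (i : ℝ) ≤ a := by
    have h1 : (i : ℝ) ≤ k := by exact_mod_cast hi
    have := hk4 k
    linarith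
  have hi0 : (0 : ℝ) ≤ i := Nat.cast_nonneg i
  have key : 0 ≤ (b - a) * (a * (b - a) - i * (b + a)) := by
    rcases lt_trichotomy k m with h | h | h
    · have h4 : 4 * a ≤ b := by
        obtain ⟨d, rfl⟩ := Nat.exists_eq_add_of_lt h
        rw [hb, pow_succ, pow_add, ← ha]
        have : (1 : ℝ) ≤ 4 ^ d := one_le_pow₀ (by norm_num)
        nlinarith
      apply mul_nonneg
      · linarith
      · nlinarith
    · have : a = b := by rw [ha, hb, h]
      rw [this]; simp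
    · have h4 : b ≤ a := by
        rw [ha, hb]; exact pow_le_pow_right₀ (by norm_num) h.le
      apply mul_nonneg_of_nonpos_of_nonpos
      · linarith
      · nlinarith
  have h2 : (a - i) / a ^ 2 + ((4 ^ k + i : ℕ) : ℝ) / b ^ 2 - 2 / b =
      ((b - a) * (a * (b - a) - i * (b + a))) / (a ^ 2 * b ^ 2) := by
    push_cast
    rw [← ha]
    field_simp
    ring
  have h3 : 0 ≤ ((b - a) * (a * (b - a) - i * (b + a))) / (a ^ 2 * b ^ 2) := by positivity
  linarith

lemma test_c (k i : ℕ) (hi : i ≤ k) : 0 ≤ ((4 : ℝ) ^ k - i) / ((4 : ℝ) ^ k) ^ 2 := by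
  have hk4 : k < 4 ^ k := Nat.lt_pow_self (by norm_num)
  have h1 : (i : ℝ) ≤ 4 ^ k := by
    have : i ≤ 4 ^ k := by omega
    exact_mod_cast this
  apply div_nonneg
  · linarith
  · positivity

/-- the test functions -/
noncomputable def test (ζ η : (EuclideanSpace ℂ (Fin n))) (hζ : ‖ζ‖ = 1) (hη : ‖η‖ = 1) (k : ℕ) (i : Fin (k + 1)) :
    ballAlgebra n :=
  monoA ζ η hζ hη (4 ^ k + i) (((4 : ℝ) ^ k - i) / ((4 : ℝ) ^ k) ^ 2)
    (test_c k i (Nat.lt_succ_iff.mp i.2))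

lemma test_mem (ζ η : (EuclideanSpace ℂ (Fin n))) (hζ : ‖ζ‖ = 1) (hη : ‖η‖ = 1) (k : ℕ) (i : Fin (k + 1)) :
    test ζ η hζ hη k i ∈ gens ζ η hζ hη :=
  ⟨4 ^ k + i, _, test_c k i (Nat.lt_succ_iff.mp i.2),
    fun m => newton k i (Nat.lt_succ_iff.mp i.2) m, rfl⟩

lemma D_test {ζ η : (EuclideanSpace ℂ (Fin n))} (hζ : ‖ζ‖ = 1) (hη : ‖η‖ = 1) (ho : inner ℂ ζ η = 0) {k : ℕ} {R : ℝ}
    (hR : okR k R) : ∃ (c : ℂ) (M : ℕ), c ≠ 0 ∧ ∀ s : ℂ, R ≤ s.re →
      D ζ η k (test ζ η hζ hη k) s = c * (1 / s) ^ M := by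
  let A : Matrix (Fin (k + 1)) (Fin (k + 1)) ℂ :=
    Matrix.vandermonde fun x : Fin (k + 1) => ((x : ℂ) + 1)
  have hA : A.det ≠ 0 := by
    rw [Matrix.det_vandermonde_ne_zero_iff]
    intro x y hxy
    have : (x : ℂ) = y := by simpa using hxy
    exact Fin.ext (by exact_mod_cast this)
  refine ⟨(∏ x : Fin (k + 1), ((x : ℂ) + 1) ^ (4 ^ k)) * A.det,
    ∑ i : Fin (k + 1), (4 ^ k + i + 1), ?_, fun s hs => ?_⟩
  · apply mul_ne_zero _ hA
    rw [Finset.prod_ne_zero_iff]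
    intro x _
    apply pow_ne_zero
    exact_mod_cast Nat.succ_ne_zero (x : ℕ)
  · have e1 : (Matrix.of fun (i x : Fin (k + 1)) =>
        val ζ η k ((x : ℝ) + 1) (test ζ η hζ hη k i) s) =
        Matrix.of fun i x : Fin (k + 1) => ((1 / s) ^ (4 ^ k + (i : ℕ) + 1)) *
          (Matrix.of fun i x : Fin (k + 1) => (((x : ℂ) + 1) ^ (4 ^ k)) * A.transpose i x) i x := by
      ext i x
      rw [Matrix.of_apply, Matrix.of_apply, Matrix.of_apply, test,
        val_mono hζ hη ho hR (x_nonneg x) (x_le x) _ _ _ hs]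
      have h0 : (2 / 4 ^ k - (((4 : ℝ) ^ k - i) / ((4 : ℝ) ^ k) ^ 2 +
          ((4 ^ k + i : ℕ) : ℝ) / (4 ^ k) ^ 2) : ℝ) = 0 := by
        push_cast
        field_simp
        ring
      rw [h0]
      simp only [Complex.ofReal_zero, zero_mul, Complex.exp_zero, mul_one, A,
        Matrix.transpose_apply, Matrix.vandermonde_apply]
      push_cast
      ring
    rw [D, e1, Matrix.det_mul_column, Matrix.det_mul_row, Matrix.det_transpose,
      Finset.prod_pow_eq_pow_sum]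
    ring

lemma not_fg_closure {ζ η : (EuclideanSpace ℂ (Fin n))} (hζ : ‖ζ‖ = 1) (hη : ‖η‖ = 1) (ho : inner ℂ ζ η = 0)
    (I : Ideal (ballAlgebra n)) (hI : I.FG) :
    closure (I : Set (ballAlgebra n)) ≠
      closure (Ideal.span (gens ζ η hζ hη) : Set (ballAlgebra n)) := by
  intro heq
  obtain ⟨k, g, hg⟩ := Submodule.fg_iff_exists_fin_generating_family.mp hI
  have hg' : Ideal.span (range g) = I := hg
  have hgJ : ∀ l, g l ∈ closure (Ideal.span (gens ζ η hζ hη) : Set (ballAlgebra n)) := by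
    intro l
    rw [← heq, ← hg']
    exact subset_closure (Ideal.subset_span (mem_range_self l))
  obtain ⟨R', hR'⟩ := exists_okR k
  have hft : ∀ i, test ζ η hζ hη k i ∈ closure (Ideal.span (range g) : Set (ballAlgebra n)) := by
    intro i
    rw [hg', heq]
    exact subset_closure (Ideal.subset_span (test_mem ζ η hζ hη k i))
  have hb := fun s hs => D_unif' hζ hη ho hR' (lt_add_one R') g hgJ (test ζ η hζ hη k) hft s hs
  obtain ⟨c, M, hc, hD⟩ := D_test hζ hη ho hR'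
  set K : ℝ := Real.exp (1 / (4 ^ k) ^ 2 * (R' + 1)) * ((k + 1).factorial *
        (∑ i, Real.exp (2 / 4 ^ k * (R' + 1)) * nm (test ζ η hζ hη k i)) ^ (k + 1)) with hK
  have hdel : (0 : ℝ) < 1 / (4 ^ k) ^ 2 := by positivity
  have hlo := isLittleO_pow_exp_pos_mul_atTop M hdel
  have hcn : 0 < ‖c‖ := norm_pos_iff.mpr hc
  have hK0 : 0 ≤ K := by
    have := hb ((R' + 1 : ℝ) : ℂ) (by simp)
    exact (norm_nonneg _).trans this
  have h1 := hlo.bound (c := ‖c‖ / (2 * (K + 1))) (by positivity)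
  obtain ⟨σ, hσ1, hσ2⟩ := (h1.and (eventually_ge_atTop (R' + 1))).exists
  have hσ0 : 0 < σ := by linarith [hR'.1]
  have h2 := hb (σ : ℂ) (by simpa using hσ2)
  rw [hD (σ : ℂ) (by simp; linarith), norm_mul, norm_mul, norm_pow, norm_div, norm_one,
    Complex.norm_exp, Complex.re_ofReal_mul, Complex.ofReal_re, Complex.norm_real,
    Real.norm_eq_abs, abs_of_pos hσ0] at h2
  rw [Real.norm_eq_abs, Real.norm_eq_abs, abs_of_pos (by positivity), abs_of_pos (by positivity)]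
    at hσ1
  have hσM : 0 < σ ^ M := by positivity
  rw [one_div_pow] at h2
  set X : ℝ := Real.exp (1 / (4 ^ k) ^ 2 * σ) with hX
  have hX0 : 0 < X := Real.exp_pos _
  have h3 : X * ‖c‖ ≤ K * σ ^ M := by
    have := mul_le_mul_of_nonneg_right h2 hσM.le
    calc X * ‖c‖ = X * (‖c‖ * (1 / σ ^ M)) * σ ^ M := by field_simp
      _ ≤ K * σ ^ M := this
  have h4 : K * σ ^ M ≤ K * (‖c‖ / (2 * (K + 1)) * X) := mul_le_mul_of_nonneg_left hσ1 hK0
  have h5 : K * (‖c‖ / (2 * (K + 1)) * X) = (K / (K + 1)) * (X * ‖c‖) / 2 := by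
    field_simp
  have h6 : K / (K + 1) ≤ 1 := by
    rw [div_le_one (by positivity)]; linarith
  have h7 : 0 < X * ‖c‖ := by positivity
  nlinarith

end main

/-- the norm closure of an ideal, as an ideal -/
def closIdeal {n : ℕ} (I : Ideal (ballAlgebra n)) : Ideal (ballAlgebra n) where
  carrier := closure (I : Set (ballAlgebra n))
  zero_mem' := subset_closure I.zero_mem
  add_mem' := by
    intro a b ha hb
    have hc : Continuous fun p : ballAlgebra n × ballAlgebra n => p.1 + p.2 :=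
      ((continuous_subtype_val.comp continuous_fst).add
        (continuous_subtype_val.comp continuous_snd)).subtype_mk _
    exact map_mem_closure₂ hc ha hb (fun a ha b hb => I.add_mem ha hb)
  smul_mem' := by
    intro c x hx
    have hc : Continuous fun p : ballAlgebra n => c * p :=
      (continuous_const.mul continuous_subtype_val).subtype_mk _
    exact map_mem_closure hc hx (fun a ha => I.mul_mem_left c ha)

/-- **Answer to Q1: yes.**  For every `n ≥ 2` and every point `ζ` of the unit sphere of `ℂⁿ` there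
is a closed ideal `J` of the ball algebra whose zero set is exactly `{ζ}` and which is not the norm
closure of any finitely generated ideal. -/
theorem main_result (n : ℕ) (hn : 2 ≤ n) (ζ : EuclideanSpace ℂ (Fin n)) (hζ : ‖ζ‖ = 1) :
    ∃ J : Ideal (ballAlgebra n), normClosure J = J ∧
      zeroSet J = {w | w.1 = ζ} ∧
      ∀ I : Ideal (ballAlgebra n), I.FG → normClosure I ≠ J := by
  -- a unit vector orthogonal to `ζ`
  obtain ⟨η, hη, ho⟩ : ∃ η : EuclideanSpace ℂ (Fin n), ‖η‖ = 1 ∧ inner ℂ ζ η = 0 := by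
    have hζ0 : ζ ≠ 0 := by rintro rfl; simp at hζ
    have hfin : Module.finrank ℂ (EuclideanSpace ℂ (Fin n)) = n := by simp
    have : Fact (Module.finrank ℂ (EuclideanSpace ℂ (Fin n)) = (n - 1) + 1) :=
      ⟨by rw [hfin]; omega⟩
    have h1 := Submodule.finrank_orthogonal_span_singleton (𝕜 := ℂ) (n := n - 1) hζ0
    have h2 : 0 < Module.finrank ℂ (Submodule.span ℂ {ζ})ᗮ := by rw [h1]; omega
    have := Module.finrank_pos_iff.mp h2
    obtain ⟨⟨v, hv⟩, hv0⟩ := exists_ne (0 : (Submodule.span ℂ {ζ})ᗮ)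
    have hv0' : v ≠ 0 := fun h => hv0 (Subtype.ext h)
    have hv1 : inner ℂ ζ v = 0 := by
      rw [Submodule.mem_orthogonal] at hv
      exact hv ζ (Submodule.mem_span_singleton_self ζ)
    refine ⟨((‖v‖⁻¹ : ℝ) : ℂ) • v, ?_, ?_⟩
    · rw [norm_smul, Complex.norm_real, norm_inv, norm_norm,
        inv_mul_cancel₀ (norm_ne_zero_iff.mpr hv0')]
    · rw [inner_smul_right, hv1, mul_zero]
  refine ⟨closIdeal (Ideal.span (gens ζ η hζ hη)), ?_, ?_, ?_⟩
  · exact closure_closure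
  · ext w
    constructor
    · intro (h : ∀ f ∈ closIdeal (Ideal.span (gens ζ η hζ hη)), f.1 w = 0)
      have hadm : ∀ k : ℕ, 2 / (4 : ℝ) ^ k ≤ 2 + (0 : ℕ) / ((4 : ℝ) ^ k) ^ 2 := by
        intro k
        have : (1 : ℝ) ≤ 4 ^ k := one_le_pow₀ (by norm_num)
        have h2 : 2 / (4 : ℝ) ^ k ≤ 2 := div_le_self (by norm_num) this
        simpa using h2
      have hmem : monoA ζ η hζ hη 0 2 (by norm_num) ∈ closIdeal (Ideal.span (gens ζ η hζ hη)) := by
        apply subset_closure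
        exact Ideal.subset_span ⟨0, 2, by norm_num, hadm, rfl⟩
      have h1 := h _ hmem
      change mono ζ η 0 2 w = 0 at h1
      rw [mono, pow_zero, one_mul, mul_eq_zero] at h1
      rcases h1 with h1 | h1
      · exact absurd h1 (Complex.exp_ne_zero _)
      · exact inner_eq_one hζ w.2 (sub_eq_zero.mp h1).symm
    · intro (hw : w.1 = ζ) f hf
      have hcl : IsClosed {f : ballAlgebra n | (f : C(ClosedUnitBall n, ℂ)) w = 0} :=
        isClosed_eq ((continuous_eval_const w).comp continuous_subtype_val) continuous_const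
      have hf' : f ∈ closure (Ideal.span (gens ζ η hζ hη) : Set (ballAlgebra n)) := hf
      refine closure_minimal ?_ hcl hf'
      intro f hf
      change (f : C(ClosedUnitBall n, ℂ)) w = 0
      induction hf using Submodule.span_induction with
      | mem f hf =>
        obtain ⟨j, c, hc, -, rfl⟩ := hf
        change mono ζ η j c w = 0
        rw [mono, hw, inner_self_eq_norm_sq_to_K, hζ]
        simp
      | zero => rfl
      | add f g _ _ h1 h2 =>
        rw [Subalgebra.coe_add, ContinuousMap.add_apply, h1, h2, add_zero]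
      | smul a f _ h =>
        rw [smul_eq_mul, Subalgebra.coe_mul, ContinuousMap.mul_apply, h, mul_zero]
  · intro I hI
    exact not_fg_closure hζ hη ho I hI

end Pool.Agent.H810R2.BAb
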