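import Mathlib
import Pool.Agent.Helper269.HinfG

set_option autoImplicit false

/-!
Pull-back of the bidisc construction to the unit ball of `ℂ²` under
`(z₁, z₂) ↦ (z₁, z₂ / sqrt (2 (1 - z₁)))`.
-/

open Metric Set Filter Topology

namespace Pool.Agent.H810R2.BallA

open Pool.Agent.Helper269.HinfA Pool.Agent.Helper269.HinfB Pool.Agent.Helper269.HinfC
  Pool.Agent.Helper269.HinfD Pool.Agent.Helper269.HinfF Pool.Agent.Helper269.HinfG

/-- the unit ball of `ℂ²` -/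
def UB : Set (ℂ × ℂ) := {z | ‖z.1‖ ^ 2 + ‖z.2‖ ^ 2 < 1}

theorem isOpen_UB : IsOpen UB := by
  apply isOpen_lt <;> fun_prop

/-- bounded holomorphic on the ball -/
def BB (f : ℂ × ℂ → ℂ) : Prop :=
  DifferentiableOn ℂ f UB ∧ ∃ C, ∀ z ∈ UB, ‖f z‖ ≤ C

theorem BB.add {f g : ℂ × ℂ → ℂ} (hf : BB f) (hg : BB g) : BB (fun z => f z + g z) := by
  obtain ⟨h1, C1, h2⟩ := hf
  obtain ⟨h3, C2, h4⟩ := hg
  exact ⟨h1.add h3, C1 + C2, fun z hz => (norm_add_le _ _).trans (add_le_add (h2 z hz) (h4 z hz))⟩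

theorem BB.mul {f g : ℂ × ℂ → ℂ} (hf : BB f) (hg : BB g) : BB (fun z => f z * g z) := by
  obtain ⟨h1, C1, h2⟩ := hf
  obtain ⟨h3, C2, h4⟩ := hg
  refine ⟨h1.mul h3, C1 * C2, fun z hz => ?_⟩
  rw [norm_mul]
  exact mul_le_mul (h2 z hz) (h4 z hz) (norm_nonneg _) ((norm_nonneg _).trans (h2 z hz))

theorem fst_lt {z : ℂ × ℂ} (hz : z ∈ UB) : z.1 ∈ ball (0 : ℂ) 1 := by
  rw [mem_ball_zero_iff]
  have h : ‖z.1‖ ^ 2 + ‖z.2‖ ^ 2 < 1 := hz
  nlinarith [norm_nonneg z.1, sq_nonneg ‖z.2‖]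

/-- the square root of two -/
noncomputable def r2 : ℂ := ((Real.sqrt 2 : ℝ) : ℂ)

theorem r2_norm : ‖r2‖ = Real.sqrt 2 := by
  rw [r2, Complex.norm_real, Real.norm_of_nonneg (Real.sqrt_nonneg 2)]

theorem r2_ne : r2 ≠ 0 := by
  rw [← norm_pos_iff, r2_norm]
  exact Real.sqrt_pos.mpr (by norm_num)

/-- square root of `1 - ζ` -/
noncomputable def sq (ζ : ℂ) : ℂ := Complex.exp (Complex.log (1 - ζ) / 2)

theorem sq_ne (ζ : ℂ) : sq ζ ≠ 0 := Complex.exp_ne_zero _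

theorem sq_sq {ζ : ℂ} (hζ : ζ ∈ ball (0 : ℂ) 1) : sq ζ ^ 2 = 1 - ζ := by
  rw [sq, ← Complex.exp_nat_mul]
  have : ((2 : ℕ) : ℂ) * (Complex.log (1 - ζ) / 2) = Complex.log (1 - ζ) := by
    push_cast; ring
  have hne : 1 - ζ ≠ 0 := ep_ne hζ
  rw [this, Complex.exp_log hne]

theorem sq_norm_sq {ζ : ℂ} (hζ : ζ ∈ ball (0 : ℂ) 1) : ‖sq ζ‖ ^ 2 = ‖1 - ζ‖ := by
  rw [← norm_pow, sq_sq hζ]

theorem sq_diff : DifferentiableOn ℂ sq (ball 0 1) := by
  unfold sq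
  exact (diff_log.div_const 2).cexp

/-- ball to bidisc -/
noncomputable def Phi (z : ℂ × ℂ) : ℂ × ℂ := (z.1, z.2 / (r2 * sq z.1))

/-- (part of) bidisc to ball -/
noncomputable def Psi (p : ℂ × ℂ) : ℂ × ℂ := (p.1, r2 * sq p.1 * p.2)

theorem Phi_Psi (p : ℂ × ℂ) : Phi (Psi p) = p := by
  unfold Phi Psi
  have h := mul_ne_zero r2_ne (sq_ne p.1)
  ext
  · rfl
  · simp only
    rw [mul_div_assoc, mul_comm, div_mul_cancel₀ _ h]

theorem mem_UB_Psi {p : ℂ × ℂ} (hp : p.1 ∈ ball (0 : ℂ) 1) :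
    Psi p ∈ UB ↔ ‖p.1‖ ^ 2 + 2 * ‖1 - p.1‖ * ‖p.2‖ ^ 2 < 1 := by
  unfold Psi UB
  simp only [mem_ofPred_eq, norm_mul, mul_pow, r2_norm, sq_norm_sq hp]
  rw [Real.sq_sqrt (by norm_num)]

theorem Phi_mem {z : ℂ × ℂ} (hz : z ∈ UB) : Phi z ∈ ball (0 : ℂ × ℂ) 1 := by
  have h1 := fst_lt hz
  have hz' : ‖z.1‖ ^ 2 + ‖z.2‖ ^ 2 < 1 := hz
  have h1' : ‖z.1‖ < 1 := by rwa [mem_ball_zero_iff] at h1
  refine pair_mem (a := z.1) (b := z.2 / (r2 * sq z.1)) h1 ?_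
  rw [mem_ball_zero_iff, norm_div, div_lt_one (norm_pos_iff.mpr (mul_ne_zero r2_ne (sq_ne z.1)))]
  apply lt_of_pow_lt_pow_left₀ 2 (norm_nonneg _)
  rw [norm_mul, mul_pow, r2_norm, sq_norm_sq h1, Real.sq_sqrt (by norm_num)]
  have h2 : 1 - ‖z.1‖ ≤ ‖1 - z.1‖ := by
    have := norm_sub_norm_le (1 : ℂ) z.1
    rwa [norm_one] at this
  nlinarith [norm_nonneg z.1]

theorem Phi_diff : DifferentiableOn ℂ Phi UB := by
  unfold Phi
  apply DifferentiableOn.prodMk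
  · exact differentiableOn_fst
  · have h1 : DifferentiableOn ℂ (fun z : ℂ × ℂ => r2 * sq z.1) UB :=
      (differentiableOn_const _).mul (sq_diff.comp differentiableOn_fst fun z hz => fst_lt hz)
    have h2 : DifferentiableOn ℂ (fun z : ℂ × ℂ => z.2 * (r2 * sq z.1)⁻¹) UB :=
      differentiableOn_snd.mul (h1.inv fun z _ => mul_ne_zero r2_ne (sq_ne z.1))
    exact h2.congr fun z _ => div_eq_mul_inv _ _

theorem B2_pull {f : ℂ × ℂ → ℂ} (hf : B2 f) : BB (fun z => f (Phi z)) := by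
  obtain ⟨h1, C, h2⟩ := hf
  exact ⟨h1.comp Phi_diff fun z hz => Phi_mem hz, C, fun z hz => h2 _ (Phi_mem hz)⟩

/-- membership in the ideal generated by the three functions -/
def InB (f : ℂ × ℂ → ℂ) : Prop :=
  ∃ a1 a2 a3 : ℂ × ℂ → ℂ, BB a1 ∧ BB a2 ∧ BB a3 ∧
    ∀ z ∈ UB, f z = a1 z * F1 (Phi z) + a2 z * F2 (Phi z) + a3 z * F3 (Phi z)

theorem InI_pull {f : ℂ × ℂ → ℂ} (hf : InI f) : InB (fun z => f (Phi z)) := by
  obtain ⟨a1, a2, a3, h1, h2, h3, h4⟩ := hf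
  exact ⟨_, _, _, B2_pull h1, B2_pull h2, B2_pull h3, fun z hz => h4 _ (Phi_mem hz)⟩

theorem InB_ff {k l : ℕ} (hl : l ≤ k) : InB (fun z => GG z.1 * ff k l (Phi z)) :=
  InI_pull (InI_ff hl)

/-- the radius -/
noncomputable def rho (k : ℕ) : ℝ := (1 / 4) ^ (k + 2)

theorem rho_pos (k : ℕ) : 0 < rho k := by
  unfold rho; positivity

theorem rho_lt (k : ℕ) : rho k < 1 := by
  unfold rho
  exact pow_lt_one₀ (by norm_num) (by norm_num) (by omega)

theorem rho_bt (k : ℕ) : bt k = 1 - 4 * rho k := by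
  unfold bt rho
  ring

theorem rho_mem (k : ℕ) {s : ℂ} (hs : s ∈ ball (0 : ℂ) 1) :
    (rho k : ℂ) * s ∈ ball (0 : ℂ) 1 := by
  rw [mem_ball_zero_iff] at hs ⊢
  rw [norm_mul, Complex.norm_real, Real.norm_of_nonneg (rho_pos k).le]
  have := rho_lt k
  have h0 := rho_pos k
  have h1 := norm_nonneg s
  nlinarith

theorem rho_norm (k : ℕ) {s : ℂ} (hs : s ∈ ball (0 : ℂ) 1) : ‖(rho k : ℂ) * s‖ < rho k := by
  rw [mem_ball_zero_iff] at hs
  rw [norm_mul, Complex.norm_real, Real.norm_of_nonneg (rho_pos k).le]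
  have h0 := rho_pos k
  nlinarith [norm_nonneg s]

theorem xx_small (k : ℕ) {y : ℂ} (hy : ‖y‖ ≤ rho k) : ‖xx (bt k) y‖ ≤ 1 - 2 * rho k := by
  have h0 := rho_pos k
  have hb := rho_bt k
  have hb0 := bt_pos k
  have hb1 := bt_lt k
  set d := rho k with hd
  set b := bt k with hbb
  have h4 : 4 * d ≤ 1 := by linarith
  have hn : ‖(b : ℂ) - y‖ ≤ b + d := by
    calc ‖(b : ℂ) - y‖ ≤ ‖(b : ℂ)‖ + ‖y‖ := norm_sub_le _ _
      _ ≤ b + d := by
        rw [Complex.norm_real, Real.norm_of_nonneg hb0.le]; linarith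
  have hden : 1 - d ≤ ‖1 - (b : ℂ) * y‖ := by
    have h1 : ‖(b : ℂ) * y‖ ≤ d := by
      rw [norm_mul, Complex.norm_real, Real.norm_of_nonneg hb0.le]
      nlinarith [norm_nonneg y]
    have h2 := norm_sub_norm_le (1 : ℂ) ((b : ℂ) * y)
    rw [norm_one] at h2
    linarith
  unfold xx
  rw [norm_div, div_le_iff₀ (by linarith)]
  calc ‖(b : ℂ) - y‖ ≤ b + d := hn
    _ = 1 - 3 * d := by rw [hb]; ring
    _ ≤ (1 - 2 * d) * (1 - d) := by nlinarith
    _ ≤ (1 - 2 * d) * ‖1 - (b : ℂ) * y‖ := by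
      apply mul_le_mul_of_nonneg_left hden
      linarith

/-- the region lemma -/
theorem region (k n : ℕ) (hn : 3 * eh n < rho k) {s : ℂ} (hs : ‖s‖ ≤ rho k) {w : ℂ}
    (hw : ‖w‖ ≤ 1 - 2 * rho k) : Psi (zt n s, w) ∈ UB := by
  have hρ := rho_pos k
  have hρ1 : 4 * rho k ≤ 1 := by
    have := rho_bt k
    have := bt_pos k
    linarith
  have hs1 : s ∈ ball (0 : ℂ) 1 := by
    rw [mem_ball_zero_iff]
    linarith
  have hz := zt_mem n hs1
  rw [mem_UB_Psi hz]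
  simp only
  have he := (log_zt n hs1).1
  set e := 1 - zt n s with hee
  have hze : zt n s = 1 - e := by rw [hee]; ring
  rw [hze]
  have hE : ‖e‖ = Real.exp (-s.re) * eh n := by
    rw [← he, norm_mul, Complex.norm_exp, Complex.norm_real, Real.norm_of_nonneg (eh_pos n).le,
      Complex.neg_re]
  have hEre : e.re = ‖e‖ * Real.cos s.im := by
    rw [hE, ← he, Complex.mul_re, Complex.ofReal_im, mul_zero, sub_zero, Complex.ofReal_re,
      Complex.exp_re, Complex.neg_re, Complex.neg_im, Real.cos_neg]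
    ring
  have hnorm : ‖1 - e‖ ^ 2 = 1 - 2 * e.re + ‖e‖ ^ 2 := by
    rw [← Complex.normSq_eq_norm_sq, ← Complex.normSq_eq_norm_sq, Complex.normSq_apply,
      Complex.normSq_apply, Complex.sub_re, Complex.sub_im, Complex.one_re, Complex.one_im]
    ring
  rw [hnorm, hEre]
  have hEpos : 0 < ‖e‖ := by
    rw [hE]
    exact mul_pos (Real.exp_pos _) (eh_pos n)
  have hEle : ‖e‖ ≤ 3 * eh n := by
    rw [hE]
    apply mul_le_mul_of_nonneg_right _ (eh_pos n).le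
    have h1 : -s.re ≤ 1 := by
      have := (abs_le.mp ((Complex.abs_re_le_norm s).trans hs)).1
      linarith
    have h2 := Real.exp_le_exp.mpr h1
    have h3 := Real.exp_one_lt_d9
    linarith
  have hcos : 1 - rho k ^ 2 / 2 ≤ Real.cos s.im := by
    have h1 := Real.one_sub_sq_div_two_le_cos (x := s.im)
    have h2 : s.im ^ 2 ≤ rho k ^ 2 := by
      rw [← sq_abs]
      have h3 := (Complex.abs_im_le_norm s).trans hs
      have h4 := abs_nonneg s.im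
      gcongr
    linarith
  have hw2 : ‖w‖ ^ 2 ≤ (1 - 2 * rho k) ^ 2 := by
    have := norm_nonneg w
    gcongr
  have hkey : ‖e‖ + 2 * ‖w‖ ^ 2 - 2 * Real.cos s.im < 0 := by
    nlinarith
  nlinarith

theorem region' (k n : ℕ) (hn : 3 * eh n < rho k) {s : ℂ} (hs : s ∈ ball (0 : ℂ) 1) {x : ℂ}
    (hx : x ∈ ball (0 : ℂ) 1) : Psi (zt n ((rho k : ℂ) * s), xx (bt k) ((rho k : ℂ) * x)) ∈ UB :=
  region k n hn (rho_norm k hs).le (xx_small k (rho_norm k hx).le)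

/-- lines in the ball -/
theorem line_diffB {f : ℂ × ℂ → ℂ} (hf : BB f) (k : ℕ) {ζ : ℂ} (_ : ζ ∈ ball (0 : ℂ) 1)
    (hU : ∀ x ∈ ball (0 : ℂ) 1, Psi (ζ, xx (bt k) ((rho k : ℂ) * x)) ∈ UB) :
    DifferentiableOn ℂ (fun x => f (Psi (ζ, xx (bt k) ((rho k : ℂ) * x)))) (ball 0 1) := by
  have hx : DifferentiableOn ℂ (fun x => xx (bt k) ((rho k : ℂ) * x)) (ball 0 1) :=
    (xx_diff (bt_pos k).le (bt_lt k)).comp (by fun_prop) fun x hx => rho_mem k hx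
  have h1 : DifferentiableOn ℂ (fun x : ℂ => Psi (ζ, xx (bt k) ((rho k : ℂ) * x))) (ball 0 1) := by
    exact (differentiableOn_const ζ).prodMk (hx.const_mul (r2 * sq ζ))
  exact hf.1.comp h1 hU

theorem rho_inv (k : ℕ) {x : ℂ} (hx : x ∈ ball (0 : ℂ) 1) :
    xx (bt k) (xx (bt k) ((rho k : ℂ) * x)) = (rho k : ℂ) * x :=
  xx_invol (bt_pos k).le (bt_lt k) (rho_mem k hx)

theorem constraintB {c : ℂ × ℂ → ℂ} (hc : InB (fun z => GG z.1 * c z)) (hcB : BB c) {k j : ℕ}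
    (hj : j ≤ k) {ζ : ℂ} (hζ : ζ ∈ ball (0 : ℂ) 1) (hT : TT ζ = j)
    (hU : ∀ x ∈ ball (0 : ℂ) 1, Psi (ζ, xx (bt k) ((rho k : ℂ) * x)) ∈ UB) :
    ∃ q : ℂ → ℂ, DifferentiableOn ℂ q (ball 0 1) ∧
      ∀ x ∈ ball (0 : ℂ) 1, c (Psi (ζ, xx (bt k) ((rho k : ℂ) * x))) = x ^ (k - j) * q x := by
  rcases hj.eq_or_lt with h | h
  · subst h
    refine ⟨fun x => c (Psi (ζ, xx (bt j) ((rho j : ℂ) * x))), line_diffB hcB j hζ hU,
      fun x _ => by simp⟩
  · obtain ⟨a1, a2, a3, h1, h2, h3, h4⟩ := hc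
    have huB : BB (fun z : ℂ × ℂ => uu k (Phi z).2) := B2_pull (B2.snd (BH_uu k))
    have hd := line_diffB h1 k hζ hU
    have hd2 := line_diffB h2 k hζ hU
    have hd3 := line_diffB h3 k hζ hU
    have hdu := line_diffB huB k hζ hU
    have hdE2 := line_diffB (B2_pull (B2_E2 k)) k hζ hU
    have hdE3 := line_diffB (B2_pull (B2_E3 k)) k hζ hU
    simp only [Phi_Psi] at hdu hdE2 hdE3
    refine ⟨fun x => (GG ζ)⁻¹ * (a1 (Psi (ζ, xx (bt k) ((rho k : ℂ) * x))) *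
        ((rho k : ℂ) ^ k * x ^ j * uu k (xx (bt k) ((rho k : ℂ) * x)))
      + a2 (Psi (ζ, xx (bt k) ((rho k : ℂ) * x))) *
        ((rho k : ℂ) ^ k * x ^ j * E2 k (ζ, xx (bt k) ((rho k : ℂ) * x)))
      + a3 (Psi (ζ, xx (bt k) ((rho k : ℂ) * x))) *
        ((lam k : ℂ) * uu k (xx (bt k) ((rho k : ℂ) * x)) * ((rho k : ℂ) ^ (k - j) * ep ζ ^ (k - 1))
        + (rho k : ℂ) ^ k * x ^ j * E3 k (ζ, xx (bt k) ((rho k : ℂ) * x)))), ?_, ?_⟩
    · have hpow : DifferentiableOn ℂ (fun x : ℂ => (rho k : ℂ) ^ k * x ^ j) (ball 0 1) := by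
        fun_prop
      exact (differentiableOn_const _).mul (((hd.mul (hpow.mul hdu)).add
        (hd2.mul (hpow.mul hdE2))).add
        (hd3.mul ((((differentiableOn_const _).mul hdu).mul (differentiableOn_const _)).add
          (hpow.mul hdE3))))
    · intro x hx
      have hb := xx_norm (bt_pos k).le (bt_lt k) (rho_mem k hx)
      have hz : (ζ, xx (bt k) ((rho k : ℂ) * x)) ∈ ball (0 : ℂ × ℂ) 1 := pair_mem hζ hb
      have hinv := rho_inv k hx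
      have hmain := h4 _ (hU x hx)
      rw [Phi_Psi, F1_eq k hz, F2_eq k hz, F3_eq k hz] at hmain
      simp only [hinv] at hmain
      have hN : Nn k (ζ, xx (bt k) ((rho k : ℂ) * x)) = 0 := by
        unfold Nn
        simp only [hT]
        rw [dP_node h, mul_zero]
      have hW : Ww k (ζ, xx (bt k) ((rho k : ℂ) * x)) =
          ((rho k : ℂ) * x) ^ (k - j) * ep ζ ^ (k - 1) := by
        unfold Ww
        simp only [hT, hinv]
        rw [Finset.sum_eq_single j]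
        · rw [eP_self h]; ring
        · intro i _ hij
          rw [eP_ne hij h]; ring
        · intro hn
          exact absurd (Finset.mem_range.mpr h) hn
      rw [hN, hW] at hmain
      have hG := GG_ne ζ
      have hxk : x ^ k = x ^ (k - j) * x ^ j := by
        rw [← pow_add]; congr 1; omega
      rw [mul_pow, mul_pow, hxk] at hmain
      have hfst : (Psi (ζ, xx (bt k) ((rho k : ℂ) * x))).1 = ζ := rfl
      simp only [hfst] at hmain
      have : c (Psi (ζ, xx (bt k) ((rho k : ℂ) * x))) =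
          (GG ζ)⁻¹ * (GG ζ * c (Psi (ζ, xx (bt k) ((rho k : ℂ) * x)))) := by
        rw [← mul_assoc, inv_mul_cancel₀ hG, one_mul]
      rw [this, hmain]
      ring

theorem PsiS_diff (n k : ℕ) (w : ℂ) :
    DifferentiableOn ℂ (fun s : ℂ => Psi (zt n ((rho k : ℂ) * s), w)) (ball 0 1) := by
  unfold Psi
  have h1 : DifferentiableOn ℂ (fun s : ℂ => zt n ((rho k : ℂ) * s)) (ball 0 1) :=
    ((zt_diff n).comp (by fun_prop)).differentiableOn
  have h2 : DifferentiableOn ℂ (fun s : ℂ => sq (zt n ((rho k : ℂ) * s))) (ball 0 1) :=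
    sq_diff.comp h1 fun s hs => zt_mem n (rho_mem k hs)
  exact h1.prodMk ((h2.const_mul r2).mul_const w)

theorem sep_cB {c : ℂ × ℂ → ℂ} (hc : DifferentiableOn ℂ c UB) {M : ℝ}
    (hM : ∀ z ∈ UB, ‖c z‖ ≤ M) (n k : ℕ) (hn : 3 * eh n < rho k) :
    Sep (fun s x => c (Psi (zt n ((rho k : ℂ) * s), xx (bt k) ((rho k : ℂ) * x)))) M := by
  refine ⟨fun s hs => ?_, fun x hx => ?_, fun s hs x hx => ?_⟩
  · exact line_diffB ⟨hc, M, hM⟩ k (zt_mem n (rho_mem k hs)) fun x hx => region' k n hn hs hx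
  · exact hc.comp (PsiS_diff n k _) fun s hs => region' k n hn hs hx
  · exact hM _ (region' k n hn hs hx)

end Pool.Agent.H810R2.BallA
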