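import Mathlib
import Pool.Agent.H810R2.BallA

set_option autoImplicit false

/-!
The core argument on the ball.
-/

open Metric Set Filter Topology

namespace Pool.Agent.H810R2.BallB

open Polynomial
open Pool.Agent.Helper269.HinfA Pool.Agent.Helper269.HinfB Pool.Agent.Helper269.HinfC
  Pool.Agent.Helper269.HinfD Pool.Agent.Helper269.HinfF Pool.Agent.Helper269.HinfG
  Pool.Agent.H810R2.BallA

theorem UB_zero : (0 : ℂ × ℂ) ∈ UB := by
  simp [UB]

theorem coreB (k : ℕ) (c : Fin k → ℂ × ℂ → ℂ) (hcB : ∀ m, BB (c m))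
    (hcI : ∀ m, InB (fun z => GG z.1 * c m z))
    (h : ℕ → Fin k → ℂ × ℂ → ℂ) (hB : ∀ l ≤ k, ∀ m, BB (h l m))
    (hf : ∀ l ≤ k, ∀ z ∈ UB, ff k l (Phi z) = ∑ m, h l m z * c m z) : False := by
  have hle : (Filter.hyperfilter ℕ : Filter ℕ) ≤ atTop := by
    rw [← Nat.cofinite_eq_atTop]
    exact Filter.hyperfilter_le_cofinite
  have hρ := rho_pos k
  have hρ1 := rho_lt k
  have hρc : (rho k : ℂ) ≠ 0 := by exact_mod_cast hρ.ne'
  -- good n
  have hgood : ∀ᶠ n in atTop, 3 * eh n < rho k ∧ 2 * (k : ℝ) * eh n ≤ rho k / 2 := by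
    have h1 : Tendsto (fun n => 2 * (k : ℝ) * eh n) atTop (𝓝 (2 * (k : ℝ) * 0)) :=
      eh_tendsto.const_mul _
    rw [mul_zero] at h1
    have h2 : Tendsto (fun n => 3 * eh n) atTop (𝓝 (3 * 0)) := eh_tendsto.const_mul _
    rw [mul_zero] at h2
    filter_upwards [h1.eventually (gt_mem_nhds (show (0 : ℝ) < rho k / 2 by linarith)),
      h2.eventually (gt_mem_nhds hρ)] with n hn hn2
    exact ⟨hn2, le_of_lt hn⟩
  set good : ℕ → Prop := fun n => 3 * eh n < rho k ∧ 2 * (k : ℝ) * eh n ≤ rho k / 2 with hgooddef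
  have hgood2 : ∀ n, good n → 2 * (k : ℝ) * eh n ≤ 1 / 2 := by
    intro n hn
    have := hn.2
    linarith
  -- nodes
  have hnode : ∀ n j : ℕ, ∃ t : ℝ, 2 * (j : ℝ) * eh n ≤ 1 / 2 →
      t ∈ Icc (0 : ℝ) (2 * j * eh n) ∧ Real.sin t = j * eh n * Real.exp (-t) := by
    intro n j
    by_cases hh : 2 * (j : ℝ) * eh n ≤ 1 / 2
    · obtain ⟨t, ht, ht2⟩ := node_exists (eh n) (eh_pos n) j hh
      exact ⟨t, fun _ => ⟨ht, ht2⟩⟩
    · exact ⟨0, fun h => absurd h hh⟩
  choose t ht using hnode
  have hsmall : ∀ n j : ℕ, good n → j ≤ k → 2 * (j : ℝ) * eh n ≤ 1 / 2 := by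
    intro n j hn hj
    have h1 : (j : ℝ) ≤ k := by exact_mod_cast hj
    have h2 := eh_pos n
    have h3 : (j : ℝ) * eh n ≤ k * eh n := by gcongr
    linarith [hgood2 n hn]
  have htb : ∀ n j : ℕ, good n → j ≤ k → ‖((t n j : ℝ) : ℂ)‖ ≤ 2 * k * eh n := by
    intro n j hn hj
    have h1 := (ht n j (hsmall n j hn hj)).1
    rw [Complex.norm_real, Real.norm_of_nonneg h1.1]
    have h2 : (j : ℝ) ≤ k := by exact_mod_cast hj
    have h3 := eh_pos n
    have h4 : (j : ℝ) * eh n ≤ k * eh n := by gcongr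
    linarith [h1.2]
  -- rescaled nodes
  set τ : ℕ → ℕ → ℂ := fun n j => ((t n j : ℝ) : ℂ) / (rho k : ℂ) with hτ
  have hτt : ∀ n j, (rho k : ℂ) * τ n j = ((t n j : ℝ) : ℂ) := by
    intro n j
    rw [hτ]
    field_simp
  have hτb : ∀ n j : ℕ, good n → j ≤ k → ‖τ n j‖ ≤ 2 * k * eh n / rho k := by
    intro n j hn hj
    rw [hτ]
    simp only
    rw [norm_div, Complex.norm_real (rho k), Real.norm_of_nonneg hρ.le]
    exact div_le_div_of_nonneg_right (htb n j hn hj) hρ.le
  have hτh : ∀ n j : ℕ, good n → j ≤ k → ‖τ n j‖ ≤ 1 / 2 := by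
    intro n j hn hj
    refine (hτb n j hn hj).trans ?_
    rw [div_le_iff₀ hρ]
    linarith [hn.2]
  have hτball : ∀ n j : ℕ, good n → j ≤ k → τ n j ∈ ball (0 : ℂ) 1 := by
    intro n j hn hj
    rw [mem_ball_zero_iff]
    linarith [hτh n j hn hj]
  have htball : ∀ n j : ℕ, good n → j ≤ k → ((t n j : ℝ) : ℂ) ∈ ball (0 : ℂ) 1 := by
    intro n j hn hj
    rw [mem_ball_zero_iff]
    linarith [htb n j hn hj, hgood2 n hn]
  have hTT : ∀ n j : ℕ, good n → j ≤ k → TT (zt n (t n j)) = j := by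
    intro n j hn hj
    exact TT_node (htball n j hn hj) (ht n j (hsmall n j hn hj)).2
  have hU : ∀ n j : ℕ, good n → j ≤ k → ∀ x ∈ ball (0 : ℂ) 1,
      Psi (zt n (t n j), xx (bt k) ((rho k : ℂ) * x)) ∈ UB := by
    intro n j hn hj x hx
    rw [← hτt]
    exact region' k n hn.1 (hτball n j hn hj) hx
  -- the quotient functions
  have hq : ∀ (n : ℕ) (m : Fin k) (j : ℕ), ∃ q : ℂ → ℂ, good n → j ≤ k →
      DifferentiableOn ℂ q (ball 0 1) ∧
      ∀ x ∈ ball (0 : ℂ) 1, c m (Psi (zt n (t n j), xx (bt k) ((rho k : ℂ) * x))) =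
        x ^ (k - j) * q x := by
    intro n m j
    by_cases hh : good n ∧ j ≤ k
    · obtain ⟨q, hq1, hq2⟩ := constraintB (hcI m) (hcB m) hh.2 (zt_mem n (htball n j hh.1 hh.2))
        (hTT n j hh.1 hh.2) (hU n j hh.1 hh.2)
      exact ⟨q, fun _ _ => ⟨hq1, hq2⟩⟩
    · exact ⟨0, fun h1 h2 => absurd ⟨h1, h2⟩ hh⟩
  choose q hq using hq
  -- bound
  have hqb : ∀ (m : Fin k) (j : ℕ), j ≤ k → ∃ M : ℝ, ∀ᶠ n in atTop,
      ‖q n m j 0 / (eh n : ℂ) ^ j‖ ≤ M := by
    intro m j hj
    obtain ⟨hc1, M, hM⟩ := hcB m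
    refine ⟨M * 4 ^ k * (4 * k / rho k) ^ j, ?_⟩
    filter_upwards [hgood] with n hn
    have hM0 : 0 ≤ M := (norm_nonneg _).trans (hM 0 UB_zero)
    have hcb := coeff_bound (sep_cB hc1 hM n k hn.1) hj (a := fun i => τ n i)
      (fun i hi => hτh n i hn (hi.trans hj))
      (fun i hi i' hi' hne heq => by
        apply hne
        have h1 := hTT n i hn (by omega)
        have h2 := hTT n i' hn (by omega)
        have h3 : ((t n i : ℝ) : ℂ) = ((t n i' : ℝ) : ℂ) := by
          rw [← hτt, ← hτt]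
          exact congrArg _ heq
        rw [h3, h2] at h1
        exact_mod_cast h1.symm)
      (q := fun i => q n m i)
      (fun i hi => (hq n m i hn (hi.trans hj)).1)
      (fun i hi x hx => by
        simp only [hτt]
        exact (hq n m i hn (hi.trans hj)).2 x hx)
    have hprod : ∏ i ∈ Finset.range j, ‖τ n j - τ n i‖ ≤ (4 * k / rho k * eh n) ^ j := by
      have : ∏ i ∈ Finset.range j, ‖τ n j - τ n i‖
          ≤ ∏ _i ∈ Finset.range j, (4 * k / rho k * eh n) := by
        apply Finset.prod_le_prod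
        · intro i _; exact norm_nonneg _
        · intro i hi
          rw [Finset.mem_range] at hi
          have h1 := hτb n j hn hj
          have h2 := hτb n i hn (by omega)
          have h3 := norm_sub_le (τ n j) (τ n i)
          have h4 : 4 * k / rho k * eh n = 2 * k * eh n / rho k + 2 * k * eh n / rho k := by ring
          linarith
      simpa using this
    rw [norm_div, norm_pow, Complex.norm_real, Real.norm_of_nonneg (eh_pos n).le,
      div_le_iff₀ (pow_pos (eh_pos n) j)]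
    calc ‖q n m j 0‖ ≤ M * 4 ^ k * ∏ i ∈ Finset.range j, ‖τ n j - τ n i‖ := hcb
      _ ≤ M * 4 ^ k * (4 * k / rho k * eh n) ^ j := by gcongr
      _ = M * 4 ^ k * (4 * k / rho k) ^ j * eh n ^ j := by rw [mul_pow (4 * (k : ℝ) / rho k)]; ring
  -- limits of q
  have hA : ∀ (j : ℕ) (m : Fin k), ∃ L : ℂ, j ≤ k →
      Tendsto (fun n => q n m j 0 / (eh n : ℂ) ^ j) (Filter.hyperfilter ℕ : Filter ℕ) (𝓝 L) := by
    intro j m
    by_cases hj : j ≤ k
    · obtain ⟨M, hM⟩ := hqb m j hj
      obtain ⟨L, hL⟩ := bounded_limit hM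
      exact ⟨L, fun _ => hL⟩
    · exact ⟨0, fun h => absurd h hj⟩
  choose A hA using hA
  have h0mem : (0 : ℂ) ∈ ball (0 : ℂ) 1 := by simp
  have hx0 : xx (bt k) 0 = bt k := by simp [xx]
  have hU0 : ∀ n, good n → ∀ s ∈ ball (0 : ℂ) 1, Psi (zt n ((rho k : ℂ) * s), (bt k : ℂ)) ∈ UB := by
    intro n hn s hs
    have := region' k n hn.1 hs h0mem
    rwa [mul_zero, hx0] at this
  -- limits of h
  have hH : ∀ (l : ℕ) (m : Fin k), ∃ L : ℂ, l ≤ k →
      Tendsto (fun n => h l m (Psi (zt n 0, (bt k : ℂ)))) (Filter.hyperfilter ℕ : Filter ℕ)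
        (𝓝 L) := by
    intro l m
    by_cases hl : l ≤ k
    · obtain ⟨-, M, hM⟩ := hB l hl m
      obtain ⟨L, hL⟩ := bounded_limit (a := fun n => h l m (Psi (zt n 0, (bt k : ℂ)))) (M := M) (by
        filter_upwards [hgood] with n hn
        have := hU0 n hn 0 h0mem
        rw [mul_zero] at this
        exact hM _ this)
      exact ⟨L, fun _ => hL⟩
    · exact ⟨0, fun h => absurd h hl⟩
  choose H hH using hH
  have hehH : Tendsto eh (Filter.hyperfilter ℕ : Filter ℕ) (𝓝 0) := eh_tendsto.mono_left hle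
  have hgoodH : ∀ᶠ n in (Filter.hyperfilter ℕ : Filter ℕ), good n := hle hgood
  -- t → 0
  have htlim : ∀ j ≤ k, Tendsto (fun n => ((t n j : ℝ) : ℂ)) (Filter.hyperfilter ℕ : Filter ℕ)
      (𝓝 0) := by
    intro j hj
    have h1 : Tendsto (fun n => 2 * (k : ℝ) * eh n) (Filter.hyperfilter ℕ : Filter ℕ) (𝓝 0) := by
      have := hehH.const_mul (2 * (k : ℝ))
      rwa [mul_zero] at this
    refine squeeze_zero_norm' ?_ h1
    filter_upwards [hgoodH] with n hn
    exact htb n j hn hj
  have hHt : ∀ l ≤ k, ∀ (m : Fin k), ∀ j ≤ k,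
      Tendsto (fun n => h l m (Psi (zt n (t n j), (bt k : ℂ)))) (Filter.hyperfilter ℕ : Filter ℕ)
        (𝓝 (H l m)) := by
    intro l hl m j hj
    obtain ⟨hc1, M, hM⟩ := hB l hl m
    have hM0 : 0 ≤ M := (norm_nonneg _).trans (hM 0 UB_zero)
    have hdiff : Tendsto (fun n => h l m (Psi (zt n (t n j), (bt k : ℂ))) -
        h l m (Psi (zt n 0, (bt k : ℂ)))) (Filter.hyperfilter ℕ : Filter ℕ) (𝓝 0) := by
      have h1 : Tendsto (fun n => 4 * M / rho k * (2 * (k : ℝ) * eh n))
          (Filter.hyperfilter ℕ : Filter ℕ) (𝓝 0) := by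
        have := (hehH.const_mul (2 * (k : ℝ))).const_mul (4 * M / rho k)
        rwa [mul_zero, mul_zero] at this
      refine squeeze_zero_norm' ?_ h1
      filter_upwards [hgoodH] with n hn
      have hd : DifferentiableOn ℂ
          (fun s => h l m (Psi (zt n ((rho k : ℂ) * s), (bt k : ℂ)))) (ball 0 1) :=
        hc1.comp (PsiS_diff n k _) fun s hs => hU0 n hn s hs
      obtain ⟨-, hb⟩ := dslope_bound (a := 0) hd
        (fun s hs => hM _ (hU0 n hn s hs)) (by simp)
      have h3 := sub_smul_dslope (fun s => h l m (Psi (zt n ((rho k : ℂ) * s), (bt k : ℂ)))) 0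
        (τ n j)
      rw [smul_eq_mul] at h3
      simp only [hτt, mul_zero] at h3
      rw [← h3, norm_mul, sub_zero]
      have h4 := hb _ (hτball n j hn hj)
      have h5 := hτb n j hn hj
      calc ‖τ n j‖ * ‖dslope (fun s => h l m (Psi (zt n ((rho k : ℂ) * s), (bt k : ℂ)))) 0 (τ n j)‖
          ≤ (2 * k * eh n / rho k) * (4 * M) := by
            apply mul_le_mul h5 h4 (norm_nonneg _)
            have := eh_pos n
            positivity
        _ = 4 * M / rho k * (2 * (k : ℝ) * eh n) := by ring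
    have := hdiff.add (hH l m hl)
    simpa using this
  -- the identity
  have hid : ∀ l ≤ k, ∀ j ≤ k, ∀ n, good n →
      ∑ m, h l m (Psi (zt n (t n j), (bt k : ℂ))) * (q n m j 0 / (eh n : ℂ) ^ j) =
        if l = k - j then (rho k : ℂ) ^ l * (uu k (bt k) ^ 2 *
          (Complex.exp (-((t n j : ℝ) : ℂ)) ^ j * (dP j).eval (j : ℂ)))
        else 0 := by
    intro l hl j hj n hn
    have hUj := hU n j hn hj
    set ζ := zt n (t n j) with hζ
    have hζm : ζ ∈ ball (0 : ℂ) 1 := zt_mem n (htball n j hn hj)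
    have hTζ : TT ζ = j := hTT n j hn hj
    have hdf : DifferentiableOn ℂ (fun x => ∑ m, h l m (Psi (ζ, xx (bt k) ((rho k : ℂ) * x))) *
        q n m j x) (ball 0 1) := by
      apply DifferentiableOn.fun_sum
      intro m _
      exact (line_diffB (hB l hl m) k hζm hUj).mul (hq n m j hn hj).1
    have hlhs : ∀ x ∈ ball (0 : ℂ) 1, x ^ (k - j) *
        (∑ m, h l m (Psi (ζ, xx (bt k) ((rho k : ℂ) * x))) * q n m j x)
        = ff k l (ζ, xx (bt k) ((rho k : ℂ) * x)) := by
      intro x hx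
      have h1 := hf l hl _ (hUj x hx)
      rw [Phi_Psi] at h1
      rw [h1, Finset.mul_sum]
      refine Finset.sum_congr rfl fun m _ => ?_
      rw [(hq n m j hn hj).2 x hx]
      ring
    have hff : ∀ x ∈ ball (0 : ℂ) 1, ff k l (ζ, xx (bt k) ((rho k : ℂ) * x)) =
        uu k (xx (bt k) ((rho k : ℂ) * x)) ^ 2 * ((rho k : ℂ) * x) ^ l *
          (ep ζ ^ (k - l) * (dP (k - l)).eval (j : ℂ)) := by
      intro x hx
      unfold ff Nn
      simp only [rho_inv k hx, hTζ]
    have heh : (eh n : ℂ) ≠ 0 := by exact_mod_cast (eh_pos n).ne'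
    have hval : ∑ m, h l m (Psi (ζ, (bt k : ℂ))) * q n m j 0 =
        if l = k - j then (rho k : ℂ) ^ l * (uu k (bt k) ^ 2 *
          (ep ζ ^ j * (dP j).eval (j : ℂ))) else 0 := by
      by_cases hlj : l < k - j
      · -- zero
        have h1 : ∀ x ∈ ball (0 : ℂ) 1, x ^ (k - j) *
            (∑ m, h l m (Psi (ζ, xx (bt k) ((rho k : ℂ) * x))) * q n m j x)
            = x ^ (k - j) * (fun _ => (0 : ℂ)) x := by
          intro x hx
          rw [hlhs x hx, hff x hx, dP_node (show j < k - l by omega)]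
          ring
        have h2 := cancel_pow hdf (differentiableOn_const (0 : ℂ)) h1
        simp only [mul_zero, hx0] at h2
        rw [if_neg (by omega)]
        exact h2
      · have h1 : ∀ x ∈ ball (0 : ℂ) 1, x ^ (k - j) *
            (∑ m, h l m (Psi (ζ, xx (bt k) ((rho k : ℂ) * x))) * q n m j x)
            = x ^ (k - j) * (fun x => uu k (xx (bt k) ((rho k : ℂ) * x)) ^ 2 *
              ((rho k : ℂ) ^ l * x ^ (l - (k - j))) *
              (ep ζ ^ (k - l) * (dP (k - l)).eval (j : ℂ))) x := by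
          intro x hx
          rw [hlhs x hx, hff x hx]
          have : x ^ l = x ^ (k - j) * x ^ (l - (k - j)) := by
            rw [← pow_add]; congr 1; omega
          rw [mul_pow, this]
          ring
        have hd2 : DifferentiableOn ℂ (fun x => uu k (xx (bt k) ((rho k : ℂ) * x)) ^ 2 *
              ((rho k : ℂ) ^ l * x ^ (l - (k - j))) *
              (ep ζ ^ (k - l) * (dP (k - l)).eval (j : ℂ))) (ball 0 1) := by
          have hu := line_diffB (B2_pull (B2.snd (BH_uu k))) k hζm hUj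
          simp only [Phi_Psi] at hu
          have hpow : DifferentiableOn ℂ (fun x : ℂ => (rho k : ℂ) ^ l * x ^ (l - (k - j)))
              (ball 0 1) := by fun_prop
          exact ((hu.pow 2).mul hpow).mul (differentiableOn_const _)
        have h2 := cancel_pow hdf hd2 h1
        simp only [mul_zero, hx0] at h2
        rw [h2]
        by_cases hll : l = k - j
        · rw [if_pos hll]
          have h3 : k - l = j := by omega
          rw [h3, hll]
          simp
          ring
        · rw [if_neg hll, zero_pow (by omega)]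
          ring
    have hdiv : ∑ m, h l m (Psi (ζ, (bt k : ℂ))) * (q n m j 0 / (eh n : ℂ) ^ j)
        = (∑ m, h l m (Psi (ζ, (bt k : ℂ))) * q n m j 0) / (eh n : ℂ) ^ j := by
      rw [Finset.sum_div]
      refine Finset.sum_congr rfl fun m _ => ?_
      ring
    rw [hdiv, hval]
    by_cases hll : l = k - j
    · rw [if_pos hll, if_pos hll, hζ, ep_zt n (htball n j hn hj), mul_pow]
      field_simp
    · rw [if_neg hll, if_neg hll, zero_div]
  -- limit identity
  have hlim : ∀ l ≤ k, ∀ j ≤ k, ∑ m, H l m * A j m =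
      if l = k - j then (rho k : ℂ) ^ l * (uu k (bt k) ^ 2 * (dP j).eval (j : ℂ)) else 0 := by
    intro l hl j hj
    have h1 : Tendsto (fun n => ∑ m, h l m (Psi (zt n (t n j), (bt k : ℂ))) *
        (q n m j 0 / (eh n : ℂ) ^ j))
        (Filter.hyperfilter ℕ : Filter ℕ) (𝓝 (∑ m, H l m * A j m)) :=
      tendsto_finsetSum _ fun m _ => (hHt l hl m j hj).mul (hA j m hj)
    have h2 : Tendsto (fun n => if l = k - j then (rho k : ℂ) ^ l * (uu k (bt k) ^ 2 *
        (Complex.exp (-((t n j : ℝ) : ℂ)) ^ j * (dP j).eval (j : ℂ))) else 0)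
        (Filter.hyperfilter ℕ : Filter ℕ)
        (𝓝 (if l = k - j then (rho k : ℂ) ^ l * (uu k (bt k) ^ 2 * (dP j).eval (j : ℂ))
          else 0)) := by
      by_cases hll : l = k - j
      · simp only [if_pos hll]
        apply Tendsto.const_mul
        apply Tendsto.const_mul
        have h3 : Tendsto (fun n => Complex.exp (-((t n j : ℝ) : ℂ)) ^ j)
            (Filter.hyperfilter ℕ : Filter ℕ) (𝓝 (Complex.exp (-0) ^ j)) :=
          ((Complex.continuous_exp.tendsto _).comp (htlim j hj).neg).pow j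
        simp only [neg_zero, Complex.exp_zero, one_pow] at h3
        have := h3.mul_const ((dP j).eval (j : ℂ))
        simpa using this
      · simp only [if_neg hll]
        exact tendsto_const_nhds
    refine tendsto_nhds_unique (h1.congr' ?_) h2
    filter_upwards [hgoodH] with n hn
    exact hid l hl j hj n hn
  -- linear algebra
  have hu : uu k (bt k) ≠ 0 := PP_ne (upd_le id_le k) k (by simp)
  have hli : LinearIndependent ℂ (fun j : Fin (k + 1) => (fun m : Fin k => A j m)) := by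
    rw [Fintype.linearIndependent_iff]
    intro g hg j
    have h1 : ∀ m : Fin k, ∑ i : Fin (k + 1), g i * A i m = 0 := by
      intro m
      have := congrFun hg m
      simpa using this
    have hjk : (j : ℕ) ≤ k := Nat.lt_succ_iff.mp j.2
    have h2 : ∑ i : Fin (k + 1), g i * (∑ m, H (k - j) m * A i m) = 0 := by
      have : ∑ i : Fin (k + 1), g i * (∑ m, H (k - j) m * A i m)
          = ∑ m, H (k - j) m * (∑ i : Fin (k + 1), g i * A i m) := by
        simp only [Finset.mul_sum]
        rw [Finset.sum_comm]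
        refine Finset.sum_congr rfl fun m _ => Finset.sum_congr rfl fun i _ => ?_
        ring
      rw [this]
      simp [h1]
    rw [Finset.sum_eq_single j] at h2
    · rw [hlim (k - j) (by omega) j hjk, if_pos rfl] at h2
      have h3 : (rho k : ℂ) ^ (k - (j : ℕ)) * (uu k (bt k) ^ 2 * (dP j).eval ((j : ℕ) : ℂ)) ≠ 0 :=
        mul_ne_zero (pow_ne_zero _ hρc) (mul_ne_zero (pow_ne_zero 2 hu) (dP_eval_self j))
      exact (mul_eq_zero.mp h2).resolve_right h3
    · intro i _ hij
      have hik : (i : ℕ) ≤ k := Nat.lt_succ_iff.mp i.2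
      rw [hlim (k - j) (by omega) i hik, if_neg, mul_zero]
      intro heq
      apply hij
      apply Fin.ext
      omega
    · intro hn
      exact absurd (Finset.mem_univ j) hn
  have hcard := hli.fintype_card_le_finrank
  simp at hcard

end Pool.Agent.H810R2.BallB
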