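import Mathlib

/-! Decay of functions of exponential type in two variables: three circles, propagation. -/

set_option autoImplicit false

open Set Filter Topology Complex Metric

namespace Pool.Agent.H810R2.CSa

/-- Three circles in exponential form. -/
theorem three_circles {g : ℂ → ℂ} (hg : Differentiable ℂ g) {r R a b : ℝ} (hr : 0 < r)
    (hrR : r < R) (ha : ∀ z, ‖z‖ ≤ r → ‖g z‖ ≤ Real.exp a)
    (hb : ∀ z, ‖z‖ ≤ R → ‖g z‖ ≤ Real.exp b) {z : ℂ} (h1 : r ≤ ‖z‖) (h2 : ‖z‖ ≤ R) :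
    ‖g z‖ ≤ Real.exp ((1 - (Real.log ‖z‖ - Real.log r) / (Real.log R - Real.log r)) * a +
      (Real.log ‖z‖ - Real.log r) / (Real.log R - Real.log r) * b) := by
  have hz0 : z ≠ 0 := by
    intro h
    rw [h, norm_zero] at h1
    linarith
  have hzpos : 0 < ‖z‖ := norm_pos_iff.2 hz0
  have hul : Real.log r < Real.log R := Real.log_lt_log hr hrR
  have hR : 0 < R := hr.trans hrR
  have hre : (Complex.log z).re = Real.log ‖z‖ := Complex.log_re z
  have hbd : ∀ w : ℂ, w.re ≤ Real.log R → ‖g (Complex.exp w)‖ ≤ Real.exp b := by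
    intro w hw
    apply hb
    rw [Complex.norm_exp]
    calc Real.exp w.re ≤ Real.exp (Real.log R) := Real.exp_le_exp.2 hw
      _ = R := Real.exp_log hR
  have hbd' : ∀ w : ℂ, w.re ≤ Real.log r → ‖g (Complex.exp w)‖ ≤ Real.exp a := by
    intro w hw
    apply ha
    rw [Complex.norm_exp]
    calc Real.exp w.re ≤ Real.exp (Real.log r) := Real.exp_le_exp.2 hw
      _ = r := Real.exp_log hr
  have h := Complex.HadamardThreeLines.norm_le_interp_of_mem_verticalClosedStrip'
    (f := fun w => g (Complex.exp w)) (z := Complex.log z) (a := Real.exp a) (b := Real.exp b)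
    hul ?_ ?_ ?_ ?_ ?_
  · rw [Complex.exp_log hz0, hre] at h
    refine h.trans (le_of_eq ?_)
    rw [← Real.exp_mul, ← Real.exp_mul, ← Real.exp_add]
    congr 1
    ring
  · constructor
    · rw [hre]
      exact Real.log_le_log hr h1
    · rw [hre]
      exact Real.log_le_log hzpos h2
  · exact (hg.comp Complex.differentiable_exp).diffContOnCl
  · refine ⟨Real.exp b, ?_⟩
    rintro _ ⟨w, hw, rfl⟩
    exact hbd w hw.2
  · intro w hw
    exact hbd' w (le_of_eq hw)
  · intro w hw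
    exact hbd w (le_of_eq hw)

theorem smul_fst_re (t : ℝ) (q : ℂ × ℂ) : (t • q).1.re = t * q.1.re := by simp

theorem smul_snd_re (t : ℝ) (q : ℂ × ℂ) : (t • q).2.re = t * q.2.re := by simp

/-- The open tube over the quadrant. -/
def P : Set (ℂ × ℂ) := {p | 0 < p.1.re ∧ 0 < p.2.re}

theorem isOpen_P : IsOpen P :=
  (isOpen_lt continuous_const (Complex.continuous_re.comp continuous_fst)).inter
    (isOpen_lt continuous_const (Complex.continuous_re.comp continuous_snd))

theorem convex_P : Convex ℝ P := by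
  intro p hp q hq a b ha hb hab
  obtain ⟨hp1, hp2⟩ := hp
  obtain ⟨hq1, hq2⟩ := hq
  have key : ∀ x y : ℝ, 0 < x → 0 < y → 0 < a * x + b * y := by
    intro x y hx hy
    rcases ha.eq_or_lt with h | h
    · have : b = 1 := by linarith
      rw [← h, this]; linarith
    · have := mul_pos h hx
      have := mul_nonneg hb hy.le
      linarith
  constructor
  · simpa using key _ _ hp1 hq1
  · simpa using key _ _ hp2 hq2

/-- Exponential decay along all rays close to the ray of `p`. -/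
def Dec (G : ℂ × ℂ → ℂ) (p : ℂ × ℂ) : Prop :=
  ∃ ρ > 0, ∃ c > 0, ∃ C : ℝ, ∀ q : ℂ × ℂ, ‖q - p‖ ≤ ρ → ∀ t : ℝ, 0 ≤ t →
    ‖G (t • q)‖ ≤ Real.exp (C - c * t)

theorem isOpen_dec (G : ℂ × ℂ → ℂ) : IsOpen {p | Dec G p} := by
  rw [Metric.isOpen_iff]
  rintro p ⟨ρ, hρ, c, hc, C, h⟩
  refine ⟨ρ / 2, by positivity, fun q hq => ⟨ρ / 2, by positivity, c, hc, C, fun x hx t ht => ?_⟩⟩
  apply h x _ t ht
  rw [mem_ball, dist_eq_norm] at hq
  calc ‖x - p‖ = ‖(x - q) + (q - p)‖ := by congr 1; abel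
    _ ≤ ‖x - q‖ + ‖q - p‖ := norm_add_le _ _
    _ ≤ ρ := by linarith

variable {G : ℂ × ℂ → ℂ}

theorem dec_of_dec (hG : ∀ p w : ℂ × ℂ, Differentiable ℂ fun l : ℂ => G (p + l • w))
    (hε : ∀ ε > 0, ∃ C : ℝ, ∀ p : ℂ × ℂ, 0 ≤ p.1.re → 0 ≤ p.2.re →
      ‖G p‖ ≤ Real.exp (C + ε * ‖p‖)) {p₀ : ℂ × ℂ} (hp₀ : p₀ ∈ P) (hd : Dec G p₀) {p : ℂ × ℂ}
    (hp : p ∈ P) : Dec G p := by
  suffices h : P ⊆ {p | Dec G p} from h hp
  refine convex_P.isPreconnected.subset_of_closure_inter_subset (isOpen_dec G) ⟨p₀, hp₀, hd⟩ ?_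
  rintro p ⟨hpc, hpP⟩
  obtain ⟨η, hη, hball⟩ := Metric.isOpen_iff.1 isOpen_P p hpP
  set e := η / 5 with he
  have he0 : 0 < e := by positivity
  obtain ⟨a, ha, hap⟩ := Metric.mem_closure_iff.1 hpc e he0
  obtain ⟨ρ', hρ', c, hc, C, h⟩ := ha
  set ρ := min ρ' e with hρ
  have hρ0 : 0 < ρ := lt_min hρ' he0
  have hρe : ρ ≤ e := min_le_right _ _
  set A := ‖a‖ + 3 * e with hA
  have hA0 : 0 < A := by positivity
  have hlog1 : Real.log ρ < Real.log (2 * e) := Real.log_lt_log hρ0 (by linarith)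
  have hlog2 : Real.log (2 * e) < Real.log (3 * e) := Real.log_lt_log (by positivity) (by linarith)
  set θ₀ := (Real.log (2 * e) - Real.log ρ) / (Real.log (3 * e) - Real.log ρ) with hθ₀
  have hθ₀1 : θ₀ < 1 := by
    rw [hθ₀, div_lt_one (by linarith)]
    linarith
  have hθ₀0 : 0 ≤ θ₀ := div_nonneg (by linarith) (by linarith)
  set ε := (1 - θ₀) * c / (2 * A) with hεdef
  have hε0 : 0 < ε := by
    have : 0 < 1 - θ₀ := by linarith
    positivity
  obtain ⟨C', hC'⟩ := hε ε hε0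
  refine ⟨e, he0, (1 - θ₀) * c / 2, by have : 0 < 1 - θ₀ := by linarith
                                       positivity, |C| + |C'|, ?_⟩
  intro q hq t ht
  have hqa : ‖q - a‖ ≤ 2 * e := by
    have h1 : ‖p - a‖ < e := by rwa [dist_eq_norm] at hap
    calc ‖q - a‖ = ‖(q - p) + (p - a)‖ := by congr 1; abel
      _ ≤ ‖q - p‖ + ‖p - a‖ := norm_add_le _ _
      _ ≤ 2 * e := by linarith
  have hc' : (1 - θ₀) * c / 2 ≤ c := by nlinarith
  by_cases hqρ : ‖q - a‖ ≤ ρ
  · refine (h q (hqρ.trans (min_le_left _ _)) t ht).trans (Real.exp_le_exp.2 ?_)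
    have := mul_le_mul_of_nonneg_right hc' ht
    linarith [le_abs_self C, abs_nonneg C']
  push Not at hqρ
  set N := ‖q - a‖ with hN
  have hN0 : 0 < N := hρ0.trans hqρ
  set w : ℂ × ℂ := ((N : ℂ)⁻¹) • (q - a) with hw
  have hwn : ‖w‖ = 1 := by
    rw [hw, norm_smul, norm_inv, Complex.norm_real, Real.norm_of_nonneg hN0.le, ← hN]
    exact inv_mul_cancel₀ hN0.ne'
  have hg := hG (t • a) (t • w)
  have hrew : ∀ l : ℂ, t • a + l • t • w = t • (a + l • w) := by
    intro l
    rw [smul_add, smul_comm l t w]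
  have h3 := three_circles (g := fun l => G (t • a + l • t • w)) hg (r := ρ) (R := 3 * e)
    (a := C - c * t) (b := C' + ε * (A * t)) (z := (N : ℂ)) hρ0 (by linarith) ?_ ?_ ?_ ?_
  · have hNn : ‖(N : ℂ)‖ = N := by rw [Complex.norm_real, Real.norm_of_nonneg hN0.le]
    have hq2 : t • a + (N : ℂ) • t • w = t • q := by
      rw [hrew, hw, smul_smul, mul_inv_cancel₀ (by exact_mod_cast hN0.ne'), one_smul]
      congr 1
      abel
    simp only [hq2, hNn] at h3
    refine h3.trans (Real.exp_le_exp.2 ?_)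
    set θ := (Real.log N - Real.log ρ) / (Real.log (3 * e) - Real.log ρ) with hθ
    have hθθ₀ : θ ≤ θ₀ := by
      rw [hθ, hθ₀]
      apply div_le_div_of_nonneg_right _ (by linarith)
      have := Real.log_le_log hN0 hqa
      linarith
    have hθ0 : 0 ≤ θ := by
      apply div_nonneg _ (by linarith)
      have := Real.log_le_log hρ0 hqρ.le
      linarith
    have hθ1 : θ ≤ 1 := by linarith
    have e1 : (1 - θ) * (C - c * t) ≤ |C| - (1 - θ₀) * c * t := by
      have i1 : (1 - θ) * C ≤ |C| := by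
        calc (1 - θ) * C ≤ (1 - θ) * |C| := mul_le_mul_of_nonneg_left (le_abs_self C) (by linarith)
          _ ≤ 1 * |C| := mul_le_mul_of_nonneg_right (by linarith) (abs_nonneg C)
          _ = |C| := one_mul _
      have i2 : (1 - θ₀) * (c * t) ≤ (1 - θ) * (c * t) :=
        mul_le_mul_of_nonneg_right (by linarith) (by positivity)
      nlinarith
    have e2 : θ * (C' + ε * (A * t)) ≤ |C'| + (1 - θ₀) * c / 2 * t := by
      have i1 : θ * C' ≤ |C'| := by
        calc θ * C' ≤ θ * |C'| := mul_le_mul_of_nonneg_left (le_abs_self C') hθ0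
          _ ≤ 1 * |C'| := mul_le_mul_of_nonneg_right hθ1 (abs_nonneg C')
          _ = |C'| := one_mul _
      have i2 : ε * (A * t) = (1 - θ₀) * c / 2 * t := by
        rw [hεdef]; field_simp
      have i3 : θ * (ε * (A * t)) ≤ 1 * (ε * (A * t)) :=
        mul_le_mul_of_nonneg_right hθ1 (by positivity)
      calc θ * (C' + ε * (A * t)) = θ * C' + θ * (ε * (A * t)) := by ring
        _ ≤ |C'| + 1 * (ε * (A * t)) := add_le_add i1 i3
        _ = |C'| + (1 - θ₀) * c / 2 * t := by rw [one_mul, i2]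
    linarith
  · intro l hl
    simp only [hrew]
    apply h _ _ t ht
    rw [add_sub_cancel_left, norm_smul, hwn, mul_one]
    exact hl.trans (min_le_left _ _)
  · intro l hl
    simp only [hrew]
    have hin : a + l • w ∈ P := by
      apply hball
      rw [mem_ball, dist_eq_norm]
      have h1 : ‖p - a‖ < e := by rwa [dist_eq_norm] at hap
      calc ‖a + l • w - p‖ = ‖(a - p) + l • w‖ := by congr 1; abel
        _ ≤ ‖a - p‖ + ‖l • w‖ := norm_add_le _ _
        _ ≤ ‖p - a‖ + 3 * e := by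
          rw [norm_sub_rev a p, norm_smul, hwn, mul_one]; linarith
        _ < η := by rw [he] at *; linarith
    have hb := hC' (t • (a + l • w)) (by rw [smul_fst_re]; exact mul_nonneg ht hin.1.le)
      (by rw [smul_snd_re]; exact mul_nonneg ht hin.2.le)
    refine hb.trans (Real.exp_le_exp.2 ?_)
    have : ‖t • (a + l • w)‖ ≤ A * t := by
      rw [norm_smul, Real.norm_of_nonneg ht, mul_comm]
      apply mul_le_mul_of_nonneg_right _ ht
      calc ‖a + l • w‖ ≤ ‖a‖ + ‖l • w‖ := norm_add_le _ _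
        _ ≤ ‖a‖ + 3 * e := by rw [norm_smul, hwn, mul_one]; linarith
    have := mul_le_mul_of_nonneg_left this hε0.le
    linarith
  · rw [Complex.norm_real, Real.norm_of_nonneg hN0.le]; exact hqρ.le
  · rw [Complex.norm_real, Real.norm_of_nonneg hN0.le]; linarith

/-- decay rate along real directions, linear up to the boundary of the quadrant -/
theorem real_dec (hG : ∀ p w : ℂ × ℂ, Differentiable ℂ fun l : ℂ => G (p + l • w))
    (hε : ∀ ε > 0, ∃ C : ℝ, ∀ p : ℂ × ℂ, 0 ≤ p.1.re → 0 ≤ p.2.re →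
      ‖G p‖ ≤ Real.exp (C + ε * ‖p‖)) (hd : Dec G (1, 1)) :
    ∃ κ > 0, ∀ ε > 0, ∃ C : ℝ, ∀ s t : ℝ, 0 ≤ s → s ≤ 1 → 0 ≤ t →
      ‖G ((t : ℂ), (t : ℂ) * s)‖ ≤ Real.exp (C - κ * s * t + ε * t) := by
  obtain ⟨ρ', hρ', c, hc, C, h⟩ := hd
  set ρ := min ρ' (Real.exp (-1)) with hρ
  have hρ0 : 0 < ρ := lt_min hρ' (Real.exp_pos _)
  have hρe : ρ ≤ Real.exp (-1) := min_le_right _ _
  set L := -Real.log ρ with hL
  have hL1 : 1 ≤ L := by
    have := Real.log_le_log hρ0 hρe
    rw [Real.log_exp] at this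
    linarith
  refine ⟨c / L, by positivity, fun ε hε0 => ?_⟩
  set κ := c / L with hκ
  have hκ0 : 0 < κ := by positivity
  have hκc : κ ≤ c := div_le_self hc.le hL1
  -- choose η small
  set η := min (ε / (4 * κ)) (1 / 2) with hη
  have hη0 : 0 < η := lt_min (by positivity) (by norm_num)
  have hηε : κ * η ≤ ε / 4 := by
    have : η ≤ ε / (4 * κ) := min_le_left _ _
    calc κ * η ≤ κ * (ε / (4 * κ)) := mul_le_mul_of_nonneg_left this hκ0.le
      _ = ε / 4 := by field_simp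
  have hη2 : η ≤ 1 / 2 := min_le_right _ _
  set R := Real.exp (-η) with hR
  have hR0 : 0 < R := Real.exp_pos _
  have hlogR : Real.log R = -η := Real.log_exp _
  have hR1 : R ≤ 1 := by
    rw [hR]; exact Real.exp_le_one_iff.2 (by linarith)
  have hρR : ρ < R := lt_of_le_of_lt hρe (Real.exp_lt_exp.2 (by linarith))
  obtain ⟨C', hC'⟩ := hε (ε / 4) (by positivity)
  refine ⟨|C| + |C'|, fun s t hs0 hs1 ht => ?_⟩
  have hκst : κ * s * t ≤ c * t := by
    have : κ * s ≤ c := by nlinarith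
    exact mul_le_mul_of_nonneg_right this ht
  have hG1 : ∀ l : ℂ, ((t : ℂ), (t : ℂ)) + l • ((0 : ℂ), (t : ℂ)) = t • ((1 : ℂ), 1 + l) := by
    intro l
    ext
    · simp
    · simp
      ring
  have hst : ((t : ℂ), (t : ℂ) * s) = t • ((1 : ℂ), 1 + ((s : ℂ) - 1)) := by
    ext <;> simp
  have hnear : ∀ l : ℂ, ‖((1 : ℂ), 1 + l) - (1, 1)‖ = ‖l‖ := by
    intro l
    rw [Prod.mk_sub_mk, sub_self, add_sub_cancel_left, Prod.norm_def]
    simp
  have hs' : ‖(s : ℂ) - 1‖ = 1 - s := by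
    rw [← Complex.ofReal_one, ← Complex.ofReal_sub, Complex.norm_real, Real.norm_eq_abs,
      abs_of_nonpos (by linarith)]
    ring
  have htriv : ∀ l : ℂ, ‖l‖ ≤ 1 → ‖G (t • ((1 : ℂ), 1 + l))‖ ≤ Real.exp (C' + ε / 4 * (2 * t)) := by
    intro l hl
    refine (hC' _ ?_ ?_).trans (Real.exp_le_exp.2 ?_)
    · rw [smul_fst_re]; simpa using ht
    · rw [smul_snd_re]
      apply mul_nonneg ht
      have := (abs_le.1 (Complex.abs_re_le_norm l)).1
      simp only [add_re, one_re]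
      linarith
    · have : ‖t • ((1 : ℂ), 1 + l)‖ ≤ 2 * t := by
        rw [norm_smul, Real.norm_of_nonneg ht, mul_comm]
        apply mul_le_mul_of_nonneg_right _ ht
        rw [Prod.norm_def]
        apply max_le
        · simp
        · calc ‖1 + l‖ ≤ ‖(1 : ℂ)‖ + ‖l‖ := norm_add_le _ _
            _ ≤ 2 := by rw [norm_one]; linarith
      have := mul_le_mul_of_nonneg_left this (by positivity : 0 ≤ ε / 4)
      linarith
  rw [hst]
  by_cases h1 : 1 - s ≤ ρ
  · have := h ((1 : ℂ), 1 + ((s : ℂ) - 1)) (by rw [hnear, hs']; exact h1.trans (min_le_left _ _)) t ht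
    refine this.trans (Real.exp_le_exp.2 ?_)
    have : 0 ≤ ε * t := by positivity
    linarith [le_abs_self C, abs_nonneg C']
  push Not at h1
  by_cases h2 : 1 - s ≤ R
  · have h3 := three_circles (g := fun l => G (((t : ℂ), (t : ℂ)) + l • ((0 : ℂ), (t : ℂ))))
      (hG _ _) (r := ρ) (R := R) (a := C - c * t) (b := C' + ε / 4 * (2 * t))
      (z := (s : ℂ) - 1) hρ0 hρR ?_ ?_ (by rw [hs']; exact h1.le) (by rw [hs']; exact h2)
    · simp only [hG1, hs', hlogR] at h3
      refine h3.trans (Real.exp_le_exp.2 ?_)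
      have hlr : Real.log ρ = -L := by rw [hL]; ring
      rw [hlr]
      set m := Real.log (1 - s) with hm
      have hs1' : 0 < 1 - s := hρ0.trans h1
      have hm1 : m ≤ -s := by
        have := Real.log_le_sub_one_of_pos hs1'
        linarith
      have hm2 : m ≤ -η := by
        have := Real.log_le_log hs1' h2
        rwa [hlogR] at this
      have hm3 : -L ≤ m := by
        rw [← hlr]; exact Real.log_le_log hρ0 h1.le
      have hLη : 0 < L - η := by linarith
      set θ := (m - -L) / (-η - -L) with hθ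
      have hθ' : 1 - θ = (-η - m) / (L - η) := by
        have hden : -η - -L = L - η := by ring
        rw [hθ, hden, eq_div_iff hLη.ne', sub_mul, div_mul_cancel₀ _ hLη.ne']
        ring
      have hθ0 : 0 ≤ θ := by
        rw [hθ]; apply div_nonneg <;> linarith
      have hθ1 : 0 ≤ 1 - θ := by
        rw [hθ']; apply div_nonneg <;> linarith
      have hθ2 : (s - η) / L ≤ 1 - θ := by
        rw [hθ']
        calc (s - η) / L ≤ (-η - m) / L := by
              apply div_le_div_of_nonneg_right _ (by linarith); linarith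
          _ ≤ (-η - m) / (L - η) := by
              apply div_le_div_of_nonneg_left _ hLη (by linarith); linarith
      have e1 : (1 - θ) * (C - c * t) ≤ |C| - κ * s * t + κ * η * t := by
        have i1 : (1 - θ) * C ≤ |C| := by
          calc (1 - θ) * C ≤ (1 - θ) * |C| := mul_le_mul_of_nonneg_left (le_abs_self C) hθ1
            _ ≤ 1 * |C| := mul_le_mul_of_nonneg_right (by linarith) (abs_nonneg C)
            _ = |C| := one_mul _
        have i2 : (s - η) / L * (c * t) ≤ (1 - θ) * (c * t) :=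
          mul_le_mul_of_nonneg_right hθ2 (by positivity)
        have i3 : (s - η) / L * (c * t) = κ * s * t - κ * η * t := by
          rw [hκ]; field_simp
        nlinarith
      have e2 : θ * (C' + ε / 4 * (2 * t)) ≤ |C'| + ε / 2 * t := by
        have i1 : θ * C' ≤ |C'| := by
          calc θ * C' ≤ θ * |C'| := mul_le_mul_of_nonneg_left (le_abs_self C') hθ0
            _ ≤ 1 * |C'| := mul_le_mul_of_nonneg_right (by linarith) (abs_nonneg C')
            _ = |C'| := one_mul _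
        have i3 : θ * (ε / 2 * t) ≤ 1 * (ε / 2 * t) :=
          mul_le_mul_of_nonneg_right (by linarith) (by positivity)
        calc θ * (C' + ε / 4 * (2 * t)) = θ * C' + θ * (ε / 2 * t) := by ring
          _ ≤ |C'| + 1 * (ε / 2 * t) := add_le_add i1 i3
          _ = _ := by rw [one_mul]
      have e3 : κ * η * t ≤ ε / 4 * t := mul_le_mul_of_nonneg_right hηε ht
      have e4 : 0 ≤ ε * t := by positivity
      linarith
    · intro l hl
      simp only [hG1]
      exact h _ (by rw [hnear]; exact hl.trans (min_le_left _ _)) t ht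
    · intro l hl
      simp only [hG1]
      exact htriv l (hl.trans hR1)
  · push Not at h2
    have hsη : s ≤ η := by
      have : 1 - η ≤ R := by
        have := Real.add_one_le_exp (-η)
        rw [hR]; linarith
      linarith
    refine (htriv _ (by rw [hs']; linarith)).trans (Real.exp_le_exp.2 ?_)
    have e1 : κ * s * t ≤ ε / 4 * t := by
      have : κ * s ≤ ε / 4 := (mul_le_mul_of_nonneg_left hsη hκ0.le).trans hηε
      exact mul_le_mul_of_nonneg_right this ht
    have e4 : 0 ≤ ε * t := by positivity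
    linarith [le_abs_self C', abs_nonneg C]

/-- decay on complex multiples of real directions -/
theorem pl_dec {g : ℂ → ℂ} (hg : Differentiable ℂ g) {a C₁ C₂ ε : ℝ} (ha : 0 ≤ a) (hε : 0 ≤ ε)
    (h1 : ∀ t : ℝ, 0 ≤ t → ‖g t‖ ≤ Real.exp (C₁ - a * t + ε * t))
    (h2 : ∀ z : ℂ, 0 ≤ z.re → ‖g z‖ ≤ Real.exp (C₂ + ε * ‖z‖)) {z : ℂ} (hz : 0 ≤ z.re) :
    ‖g z‖ ≤ Real.exp (max C₁ C₂ - a * z.re + 2 * ε * ‖z‖) := by
  have key : ∀ (σ : ℝ), (σ = 1 ∨ σ = -1) → ∀ z : ℂ, 0 ≤ z.re → 0 ≤ σ * z.im →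
      ‖g z * Complex.exp (a * z - ε * ((1 - σ * I) * z))‖ ≤ Real.exp (max C₁ C₂) →
      ‖g z‖ ≤ Real.exp (max C₁ C₂ - a * z.re + 2 * ε * ‖z‖) := by
    intro σ hσ z hz hzi h
    rw [norm_mul, Complex.norm_exp] at h
    have hre : (a * z - ε * ((1 - σ * I) * z)).re = a * z.re - ε * (z.re + σ * z.im) := by
      simp
    rw [hre] at h
    have e1 : z.re + σ * z.im ≤ 2 * ‖z‖ := by
      have i1 := Complex.re_le_norm z
      have i2 : σ * z.im ≤ ‖z‖ := by
        have := (abs_le.1 (Complex.abs_im_le_norm z))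
        rcases hσ with rfl | rfl <;> linarith
      linarith
    calc ‖g z‖ = ‖g z‖ * Real.exp (a * z.re - ε * (z.re + σ * z.im)) *
          Real.exp (-(a * z.re - ε * (z.re + σ * z.im))) := by
            rw [mul_assoc, ← Real.exp_add, add_neg_cancel, Real.exp_zero, mul_one]
      _ ≤ Real.exp (max C₁ C₂) * Real.exp (-(a * z.re - ε * (z.re + σ * z.im))) :=
          mul_le_mul_of_nonneg_right h (Real.exp_pos _).le
      _ = Real.exp (max C₁ C₂ - a * z.re + ε * (z.re + σ * z.im)) := by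
          rw [← Real.exp_add]; congr 1; ring
      _ ≤ _ := by
          apply Real.exp_le_exp.2
          have := mul_le_mul_of_nonneg_left e1 hε
          linarith
  have hgrow : ∀ (σ : ℝ) (l : Filter ℂ), (σ = 1 ∨ σ = -1) → (∀ᶠ z in l, 0 ≤ z.re) →
      (fun z : ℂ => g z * Complex.exp (a * z - ε * ((1 - σ * I) * z))) =O[l]
        fun z => Real.exp ((ε + a + 2 * ε) * ‖z‖ ^ (1 : ℝ)) := by
    intro σ l hσ hl
    apply Asymptotics.IsBigO.of_bound (Real.exp C₂)
    filter_upwards [hl] with z hz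
    rw [norm_mul, Complex.norm_exp, Real.norm_of_nonneg (Real.exp_pos _).le, ← Real.exp_add]
    have hre : (a * z - ε * ((1 - σ * I) * z)).re = a * z.re - ε * (z.re + σ * z.im) := by
      simp
    rw [hre]
    calc ‖g z‖ * Real.exp (a * z.re - ε * (z.re + σ * z.im)) ≤
          Real.exp (C₂ + ε * ‖z‖) * Real.exp (a * z.re - ε * (z.re + σ * z.im)) :=
            mul_le_mul_of_nonneg_right (h2 z hz) (Real.exp_pos _).le
      _ = Real.exp (C₂ + ε * ‖z‖ + (a * z.re - ε * (z.re + σ * z.im))) := by rw [← Real.exp_add]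
      _ ≤ _ := by
          apply Real.exp_le_exp.2
          rw [Real.rpow_one]
          have i1 := mul_le_mul_of_nonneg_left (Complex.re_le_norm z) ha
          have i2 : -(z.re + σ * z.im) ≤ 2 * ‖z‖ := by
            have := (abs_le.1 (Complex.abs_im_le_norm z))
            have := (abs_le.1 (Complex.abs_re_le_norm z))
            rcases hσ with rfl | rfl <;> linarith
          have := mul_le_mul_of_nonneg_left i2 hε
          linarith
  have hdiff : ∀ σ : ℝ, Differentiable ℂ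
      (fun z : ℂ => g z * Complex.exp (a * z - ε * ((1 - σ * I) * z))) := by
    intro σ
    apply hg.mul
    apply Complex.differentiable_exp.comp
    fun_prop
  have hreal : ∀ (σ : ℝ) (x : ℝ), 0 ≤ x →
      ‖g x * Complex.exp (a * x - ε * ((1 - σ * I) * x))‖ ≤ Real.exp (max C₁ C₂) := by
    intro σ x hx
    rw [norm_mul, Complex.norm_exp]
    have hre : (a * (x : ℂ) - ε * ((1 - σ * I) * x)).re = a * x - ε * x := by simp
    rw [hre]
    calc ‖g x‖ * Real.exp (a * x - ε * x) ≤ Real.exp (C₁ - a * x + ε * x) *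
          Real.exp (a * x - ε * x) := mul_le_mul_of_nonneg_right (h1 x hx) (Real.exp_pos _).le
      _ = Real.exp C₁ := by rw [← Real.exp_add]; congr 1; ring
      _ ≤ _ := Real.exp_le_exp.2 (le_max_left _ _)
  have himag : ∀ (σ : ℝ) (y : ℝ), (σ = 1 ∨ σ = -1) → 0 ≤ σ * y →
      ‖g (y * I) * Complex.exp (a * (y * I) - ε * ((1 - σ * I) * (y * I)))‖ ≤
        Real.exp (max C₁ C₂) := by
    intro σ y hσ hy
    rw [norm_mul, Complex.norm_exp]
    have hre : (a * ((y : ℂ) * I) - ε * ((1 - σ * I) * (y * I))).re = -(ε * (σ * y)) := by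
      simp
    have hn : ‖(y : ℂ) * I‖ = σ * y := by
      rw [norm_mul, Complex.norm_I, mul_one, Complex.norm_real, Real.norm_eq_abs]
      rcases hσ with rfl | rfl
      · rw [one_mul] at hy ⊢; exact abs_of_nonneg hy
      · rw [abs_of_nonpos (by linarith)]; ring
    rw [hre]
    calc ‖g (y * I)‖ * Real.exp (-(ε * (σ * y))) ≤ Real.exp (C₂ + ε * ‖(y : ℂ) * I‖) *
          Real.exp (-(ε * (σ * y))) :=
            mul_le_mul_of_nonneg_right (h2 _ (by simp)) (Real.exp_pos _).le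
      _ = Real.exp C₂ := by rw [hn, ← Real.exp_add]; congr 1; ring
      _ ≤ _ := Real.exp_le_exp.2 (le_max_right _ _)
  rcases le_total 0 z.im with hi | hi
  · refine key 1 (Or.inl rfl) z hz (by linarith) ?_
    refine PhragmenLindelof.quadrant_I (f := fun z : ℂ => g z *
      Complex.exp (a * z - ε * ((1 - ((1 : ℝ) : ℂ) * I) * z))) (hdiff 1).diffContOnCl
      ⟨1, by norm_num, ε + a + 2 * ε, hgrow 1 _ (Or.inl rfl) ?_⟩ (fun x hx => hreal 1 x hx)
      (fun x hx => himag 1 x (Or.inl rfl) (by linarith)) hz hi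
    filter_upwards [Filter.mem_inf_of_right (Filter.mem_principal_self _)] with z hz
    exact le_of_lt hz.1
  · refine key (-1) (Or.inr rfl) z hz (by linarith) ?_
    refine PhragmenLindelof.quadrant_IV (f := fun z : ℂ => g z *
      Complex.exp (a * z - ε * ((1 - ((-1 : ℝ) : ℂ) * I) * z))) (hdiff (-1)).diffContOnCl
      ⟨1, by norm_num, ε + a + 2 * ε, hgrow (-1) _ (Or.inr rfl) ?_⟩ (fun x hx => hreal (-1) x hx)
      (fun x hx => himag (-1) x (Or.inr rfl) (by linarith)) hz hi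
    filter_upwards [Filter.mem_inf_of_right (Filter.mem_principal_self _)] with z hz
    exact le_of_lt hz.1

/-- The full growth statement (first form). -/
theorem growth_aux (hG : ∀ p w : ℂ × ℂ, Differentiable ℂ fun l : ℂ => G (p + l • w))
    (hε : ∀ ε > 0, ∃ C : ℝ, ∀ p : ℂ × ℂ, 0 ≤ p.1.re → 0 ≤ p.2.re →
      ‖G p‖ ≤ Real.exp (C + ε * ‖p‖)) (hd : Dec G (1, 1)) :
    ∃ κ > 0, ∀ ε > 0, ∃ C : ℝ, ∀ s : ℝ, 0 ≤ s → s ≤ 1 → ∀ τ : ℂ, 0 ≤ τ.re →
      ‖G (τ, τ * s)‖ ≤ Real.exp (C - κ * s * τ.re + ε * ‖τ‖) := by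
  obtain ⟨κ, hκ, h⟩ := real_dec hG hε hd
  refine ⟨κ, hκ, fun ε hε0 => ?_⟩
  obtain ⟨C₁, h1⟩ := h (ε / 2) (by positivity)
  obtain ⟨C₂, h2⟩ := hε (ε / 2) (by positivity)
  refine ⟨max C₁ C₂, fun s hs0 hs1 τ hτ => ?_⟩
  have hg : Differentiable ℂ fun z : ℂ => G (z, z * s) := by
    have := hG 0 ((1 : ℂ), (s : ℂ))
    convert this using 3 with z
    simp
  have := pl_dec (g := fun z : ℂ => G (z, z * s)) hg (a := κ * s) (C₁ := C₁) (C₂ := C₂)
    (ε := ε / 2) (by positivity) (by positivity) (fun t ht => h1 s t hs0 hs1 ht) ?_ hτ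
  · refine this.trans (le_of_eq ?_)
    congr 1
    ring
  · intro z hz
    refine (h2 (z, z * s) hz ?_).trans (Real.exp_le_exp.2 ?_)
    · simp only [mul_re, ofReal_re, ofReal_im, mul_zero, sub_zero]
      positivity
    · have : ‖((z, z * s) : ℂ × ℂ)‖ ≤ ‖z‖ := by
        rw [Prod.norm_def]
        apply max_le le_rfl
        simp only [norm_mul, Complex.norm_real, Real.norm_of_nonneg hs0]
        exact mul_le_of_le_one_right (norm_nonneg _) hs1
      have := mul_le_mul_of_nonneg_left this (by positivity : 0 ≤ ε / 2)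
      linarith

/-- The growth statement used in the Laplace transforms. -/
theorem growth {F : ℂ × ℂ → ℂ} (hF : ∀ p w : ℂ × ℂ, Differentiable ℂ fun l : ℂ => F (p + l • w))
    (hgr : ∀ ε > 0, ∃ C : ℝ, ∀ p : ℂ × ℂ, 0 ≤ p.1.re → 0 ≤ p.2.re →
      ‖F p‖ ≤ Real.exp (C + p.1.re + p.2.re + ε * ‖p‖))
    {p₀ : ℂ × ℂ} (hp₀ : p₀ ∈ P) {ρ c C₀ : ℝ} (hρ : 0 < ρ) (hc : 0 < c)
    (hd : ∀ q : ℂ × ℂ, ‖q - p₀‖ ≤ ρ → ∀ t : ℝ, 0 ≤ t →
      ‖F (t • q)‖ ≤ Real.exp (C₀ + t * (q.1.re + q.2.re - c))) :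
    ∃ κ > 0, κ ≤ 1 ∧ ∀ e : ℂ, e.re = 1 → ∀ ε > 0, ∃ C : ℝ, ∀ t u : ℝ, 0 ≤ t → 0 ≤ u →
      ‖F (e * t, e * (t + u))‖ ≤ Real.exp (C + (2 - κ + ε) * t + (1 + ε) * u) ∧
      ‖F (e * (t + u), e * t)‖ ≤ Real.exp (C + (2 - κ + ε) * t + (1 + ε) * u) := by
  -- the normalised function
  set G : ℂ × ℂ → ℂ := fun p => F p * Complex.exp (-(p.1 + p.2)) with hGdef
  have hnG : ∀ p : ℂ × ℂ, ‖G p‖ = ‖F p‖ * Real.exp (-(p.1.re + p.2.re)) := by
    intro p
    rw [hGdef]
    simp only [norm_mul, Complex.norm_exp, neg_re, add_re]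
  have hnF : ∀ p : ℂ × ℂ, ‖F p‖ = ‖G p‖ * Real.exp (p.1.re + p.2.re) := by
    intro p
    rw [hnG, mul_assoc, ← Real.exp_add, neg_add_cancel, Real.exp_zero, mul_one]
  have hG : ∀ p w : ℂ × ℂ, Differentiable ℂ fun l : ℂ => G (p + l • w) := by
    intro p w
    apply (hF p w).mul
    apply Complex.differentiable_exp.comp
    simp only [Prod.fst_add, Prod.smul_fst, Prod.snd_add, Prod.smul_snd, smul_eq_mul]
    fun_prop
  have hGε : ∀ ε > 0, ∃ C : ℝ, ∀ p : ℂ × ℂ, 0 ≤ p.1.re → 0 ≤ p.2.re →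
      ‖G p‖ ≤ Real.exp (C + ε * ‖p‖) := by
    intro ε hε
    obtain ⟨C, hC⟩ := hgr ε hε
    refine ⟨C, fun p h1 h2 => ?_⟩
    rw [hnG]
    calc ‖F p‖ * Real.exp (-(p.1.re + p.2.re)) ≤
        Real.exp (C + p.1.re + p.2.re + ε * ‖p‖) * Real.exp (-(p.1.re + p.2.re)) :=
          mul_le_mul_of_nonneg_right (hC p h1 h2) (Real.exp_pos _).le
      _ = _ := by rw [← Real.exp_add]; congr 1; ring
  have hDec₀ : Dec G p₀ := by
    refine ⟨ρ, hρ, c, hc, C₀, fun q hq t ht => ?_⟩
    rw [hnG, smul_fst_re, smul_snd_re]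
    calc ‖F (t • q)‖ * Real.exp (-(t * q.1.re + t * q.2.re)) ≤
        Real.exp (C₀ + t * (q.1.re + q.2.re - c)) * Real.exp (-(t * q.1.re + t * q.2.re)) :=
          mul_le_mul_of_nonneg_right (hd q hq t ht) (Real.exp_pos _).le
      _ = _ := by rw [← Real.exp_add]; congr 1; ring
  have hDec : Dec G (1, 1) := dec_of_dec hG hGε hp₀ hDec₀ ⟨by simp, by simp⟩
  obtain ⟨κ₁, hκ₁, h1⟩ := growth_aux hG hGε hDec
  -- the swapped function
  have hG' : ∀ p w : ℂ × ℂ, Differentiable ℂ fun l : ℂ => (G ∘ Prod.swap) (p + l • w) :=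
    fun p w => hG p.swap w.swap
  have hnsw : ∀ p : ℂ × ℂ, ‖p.swap‖ = ‖p‖ := by
    intro p
    rw [Prod.norm_def, Prod.norm_def, Prod.fst_swap, Prod.snd_swap, max_comm]
  have hGε' : ∀ ε > 0, ∃ C : ℝ, ∀ p : ℂ × ℂ, 0 ≤ p.1.re → 0 ≤ p.2.re →
      ‖(G ∘ Prod.swap) p‖ ≤ Real.exp (C + ε * ‖p‖) := by
    intro ε hε
    obtain ⟨C, hC⟩ := hGε ε hε
    refine ⟨C, fun p h1 h2 => ?_⟩
    have := hC p.swap h2 h1
    rwa [hnsw] at this
  have hDec' : Dec (G ∘ Prod.swap) (1, 1) := by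
    obtain ⟨ρ, hρ, c, hc, C, h⟩ := hDec
    refine ⟨ρ, hρ, c, hc, C, fun q hq t ht => ?_⟩
    have := h q.swap (by
      have : q.swap - (1, 1) = (q - (1, 1)).swap := rfl
      rw [this, hnsw]; exact hq) t ht
    exact this
  obtain ⟨κ₂, hκ₂, h2⟩ := growth_aux hG' hGε' hDec'
  set κ := min 1 (min κ₁ κ₂) with hκ
  have hκ0 : 0 < κ := lt_min one_pos (lt_min hκ₁ hκ₂)
  refine ⟨κ, hκ0, min_le_left _ _, fun e he ε hε => ?_⟩
  have he0 : 0 < ‖e‖ := by
    apply norm_pos_iff.2
    intro h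
    rw [h] at he
    simp at he
  obtain ⟨C₁, h1⟩ := h1 (ε / ‖e‖) (by positivity)
  obtain ⟨C₂, h2⟩ := h2 (ε / ‖e‖) (by positivity)
  refine ⟨max C₁ C₂, fun t u ht hu => ?_⟩
  rcases (add_nonneg ht hu).eq_or_lt with h0 | h0
  · have ht0 : t = 0 := by linarith
    have hu0 : u = 0 := by linarith
    subst ht0; subst hu0
    have e1 := h1 0 le_rfl zero_le_one 0 (by simp)
    have e2 := h2 0 le_rfl zero_le_one 0 (by simp)
    simp only [Function.comp] at e2
    constructor
    · rw [hnF]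
      simp at e1 ⊢
      exact e1.trans (Real.exp_le_exp.2 (le_max_left _ _))
    · rw [hnF]
      simp at e1 ⊢
      exact e1.trans (Real.exp_le_exp.2 (le_max_left _ _))
  set s := t / (t + u) with hs
  have hs0 : 0 ≤ s := div_nonneg ht h0.le
  have hs1 : s ≤ 1 := by rw [hs, div_le_one h0]; linarith
  set τ : ℂ := e * (t + u) with hτ
  have hτre : τ.re = t + u := by
    rw [hτ]; simp [he]
  have hτs : τ * s = e * t := by
    rw [hτ, mul_assoc]
    congr 1
    rw [hs]
    push_cast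
    rw [mul_div_cancel₀]
    exact_mod_cast h0.ne'
  have hsts : s * (t + u) = t := by rw [hs]; field_simp
  have hnτ : ‖τ‖ = ‖e‖ * (t + u) := by
    rw [hτ, norm_mul]
    congr 1
    rw [← Complex.ofReal_add, Complex.norm_real, Real.norm_of_nonneg h0.le]
  have hετ : ε / ‖e‖ * ‖τ‖ = ε * (t + u) := by
    rw [hnτ]; field_simp
  have hre : (e * (t : ℂ)).re = t := by simp [he]
  have key : ∀ κ' C', κ ≤ κ' → C' ≤ max C₁ C₂ →
      C' - κ' * s * τ.re + ε / ‖e‖ * ‖τ‖ + (t + (t + u)) ≤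
        max C₁ C₂ + (2 - κ + ε) * t + (1 + ε) * u := by
    intro κ' C' h1 h2
    rw [hετ, hτre, mul_assoc, hsts]
    have := mul_le_mul_of_nonneg_right h1 ht
    linarith
  constructor
  · have := h2 s hs0 hs1 τ (by rw [hτre]; exact h0.le)
    rw [hnF]
    simp only [Function.comp, Prod.swap] at this
    rw [hτs] at this
    refine (mul_le_mul_of_nonneg_right this (Real.exp_pos _).le).trans ?_
    rw [← Real.exp_add]
    apply Real.exp_le_exp.2
    have := key κ₂ C₂ ((min_le_right _ _).trans (min_le_right _ _)) (le_max_right _ _)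
    have e1 : ((e * (t : ℂ), τ) : ℂ × ℂ).1.re = t := hre
    have e2 : ((e * (t : ℂ), τ) : ℂ × ℂ).2.re = t + u := hτre
    rw [e1, e2]
    rw [hτre] at this
    linarith
  · have := h1 s hs0 hs1 τ (by rw [hτre]; exact h0.le)
    rw [hnF]
    rw [hτs] at this
    refine (mul_le_mul_of_nonneg_right this (Real.exp_pos _).le).trans ?_
    rw [← Real.exp_add]
    apply Real.exp_le_exp.2
    have := key κ₁ C₁ ((min_le_right _ _).trans (min_le_left _ _)) (le_max_left _ _)
    have e1 : ((τ, e * (t : ℂ)) : ℂ × ℂ).2.re = t := hre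
    have e2 : ((τ, e * (t : ℂ)) : ℂ × ℂ).1.re = t + u := hτre
    rw [e1, e2]
    rw [hτre] at this
    linarith

end Pool.Agent.H810R2.CSa
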