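import Mathlib

/-! Two-variable Laplace transforms. -/

set_option autoImplicit false

open Set Filter Topology Complex Metric MeasureTheory

namespace Pool.Agent.H810R2.CSb

/-- the open quadrant in the plane -/
def Q : Set (ℝ × ℝ) := Ioi 0 ×ˢ Ioi 0

theorem measurableSet_Q : MeasurableSet Q := measurableSet_Ioi.prod measurableSet_Ioi

/-- Two-variable Laplace transform. -/
noncomputable def L2 (Φ : ℝ × ℝ → ℂ) (v : ℂ × ℂ) : ℂ :=
  ∫ x in Q, Φ x * Complex.exp (-(x.1 * v.1 + x.2 * v.2))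

theorem integrableOn_exp {a b : ℝ} (ha : 0 < a) (hb : 0 < b) :
    IntegrableOn (fun x : ℝ × ℝ => Real.exp (-(a * x.1) - b * x.2)) Q := by
  have h1 : IntegrableOn (fun x : ℝ => Real.exp (-a * x)) (Ioi 0) :=
    exp_neg_integrableOn_Ioi 0 ha
  have h2 : IntegrableOn (fun x : ℝ => Real.exp (-b * x)) (Ioi 0) :=
    exp_neg_integrableOn_Ioi 0 hb
  have h := h1.mul_prod h2
  rw [Q, IntegrableOn, Measure.volume_eq_prod, ← Measure.prod_restrict]
  refine h.congr (ae_of_all _ fun x => ?_)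
  simp only
  rw [← Real.exp_add]
  congr 1
  ring

variable {Φ : ℝ × ℝ → ℂ} {C p q : ℝ}

theorem norm_integrand_le (hb : ∀ t u : ℝ, 0 < t → 0 < u → ‖Φ (t, u)‖ ≤ Real.exp (C + p * t + q * u))
    (v : ℂ × ℂ) {x : ℝ × ℝ} (hx : x ∈ Q) :
    ‖Φ x * Complex.exp (-(x.1 * v.1 + x.2 * v.2))‖ ≤
      Real.exp C * Real.exp (-((v.1.re - p) * x.1) - (v.2.re - q) * x.2) := by
  rw [norm_mul, Complex.norm_exp]
  have h1 := hb x.1 x.2 hx.1 hx.2
  have hre : (-((x.1 : ℂ) * v.1 + x.2 * v.2)).re = -(x.1 * v.1.re + x.2 * v.2.re) := by simp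
  rw [hre]
  calc ‖Φ x‖ * Real.exp (-(x.1 * v.1.re + x.2 * v.2.re)) ≤
      Real.exp (C + p * x.1 + q * x.2) * Real.exp (-(x.1 * v.1.re + x.2 * v.2.re)) :=
        mul_le_mul_of_nonneg_right h1 (Real.exp_pos _).le
    _ = _ := by rw [← Real.exp_add, ← Real.exp_add]; congr 1; ring

theorem integrable_L2 (hΦ : Continuous Φ)
    (hb : ∀ t u : ℝ, 0 < t → 0 < u → ‖Φ (t, u)‖ ≤ Real.exp (C + p * t + q * u))
    {v : ℂ × ℂ} (h1 : p < v.1.re) (h2 : q < v.2.re) :
    IntegrableOn (fun x : ℝ × ℝ => Φ x * Complex.exp (-(x.1 * v.1 + x.2 * v.2))) Q := by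
  refine Integrable.mono' ((integrableOn_exp (sub_pos.2 h1) (sub_pos.2 h2)).const_mul (Real.exp C))
    (Continuous.aestronglyMeasurable (by fun_prop)) ?_
  filter_upwards [ae_restrict_mem measurableSet_Q] with x hx
  exact norm_integrand_le hb v hx

theorem norm_L2_le (hb : ∀ t u : ℝ, 0 < t → 0 < u → ‖Φ (t, u)‖ ≤ Real.exp (C + p * t + q * u))
    {v : ℂ × ℂ} {m : ℝ} (hm : 0 < m) (h1 : p + m ≤ v.1.re) (h2 : q + m ≤ v.2.re) :
    ‖L2 Φ v‖ ≤ Real.exp C * ∫ x in Q, Real.exp (-(m * x.1) - m * x.2) := by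
  rw [L2, ← integral_const_mul]
  refine norm_integral_le_of_norm_le ((integrableOn_exp hm hm).const_mul _) ?_
  filter_upwards [ae_restrict_mem measurableSet_Q] with x hx
  refine (norm_integrand_le hb v hx).trans ?_
  apply mul_le_mul_of_nonneg_left _ (Real.exp_pos _).le
  apply Real.exp_le_exp.2
  have e1 := mul_le_mul_of_nonneg_right (show m ≤ v.1.re - p by linarith) (le_of_lt hx.1)
  have e2 := mul_le_mul_of_nonneg_right (show m ≤ v.2.re - q by linarith) (le_of_lt hx.2)
  linarith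

theorem differentiableOn_L2 (hΦ : Continuous Φ)
    (hb : ∀ t u : ℝ, 0 < t → 0 < u → ‖Φ (t, u)‖ ≤ Real.exp (C + p * t + q * u)) :
    DifferentiableOn ℂ (L2 Φ) {v : ℂ × ℂ | p < v.1.re ∧ q < v.2.re} := by
  rintro v₀ ⟨h1, h2⟩
  apply DifferentiableAt.differentiableWithinAt
  set m := min (v₀.1.re - p) (v₀.2.re - q) / 3 with hm
  have hm0 : 0 < m := by
    have : 0 < min (v₀.1.re - p) (v₀.2.re - q) := lt_min (by linarith) (by linarith)
    positivity
  have hm1 : 3 * m ≤ v₀.1.re - p := by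
    have := min_le_left (v₀.1.re - p) (v₀.2.re - q); rw [hm]; linarith
  have hm2 : 3 * m ≤ v₀.2.re - q := by
    have := min_le_right (v₀.1.re - p) (v₀.2.re - q); rw [hm]; linarith
  let D : ℝ × ℝ → (ℂ × ℂ →L[ℂ] ℂ) := fun x =>
    -((x.1 : ℂ) • ContinuousLinearMap.fst ℂ ℂ ℂ + (x.2 : ℂ) • ContinuousLinearMap.snd ℂ ℂ ℂ)
  have hD : Continuous D := by
    apply Continuous.neg
    apply Continuous.add
    · exact (Complex.continuous_ofReal.comp continuous_fst).smul continuous_const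
    · exact (Complex.continuous_ofReal.comp continuous_snd).smul continuous_const
  have hDv : ∀ x v, D x v = -(x.1 * v.1 + x.2 * v.2) := fun x v => by simp [D]
  have hDn : ∀ x ∈ Q, ‖D x‖ ≤ x.1 + x.2 := by
    intro x hx
    refine ContinuousLinearMap.opNorm_le_bound _ (add_nonneg (le_of_lt hx.1) (le_of_lt hx.2))
      fun v => ?_
    rw [hDv, norm_neg]
    calc ‖(x.1 : ℂ) * v.1 + x.2 * v.2‖ ≤ ‖(x.1 : ℂ) * v.1‖ + ‖(x.2 : ℂ) * v.2‖ := norm_add_le _ _
      _ = x.1 * ‖v.1‖ + x.2 * ‖v.2‖ := by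
        rw [norm_mul, norm_mul, Complex.norm_real, Complex.norm_real,
          Real.norm_of_nonneg (le_of_lt hx.1), Real.norm_of_nonneg (le_of_lt hx.2)]
      _ ≤ x.1 * ‖v‖ + x.2 * ‖v‖ := by
        apply add_le_add
        · exact mul_le_mul_of_nonneg_left (norm_fst_le v) (le_of_lt hx.1)
        · exact mul_le_mul_of_nonneg_left (norm_snd_le v) (le_of_lt hx.2)
      _ = (x.1 + x.2) * ‖v‖ := by ring
  have hder := hasFDerivAt_integral_of_dominated_of_fderiv_le (𝕜 := ℂ) (μ := volume.restrict Q)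
    (F := fun (v : ℂ × ℂ) (x : ℝ × ℝ) => Φ x * Complex.exp (D x v))
    (F' := fun v x => (Φ x * Complex.exp (D x v)) • D x) (x₀ := v₀)
    (bound := fun x => Real.exp C * (1 / m) * Real.exp (-(m * x.1) - m * x.2))
    (s := ball v₀ m) (ball_mem_nhds _ hm0) ?_ ?_ ?_ ?_ ?_ ?_
  · have hfun : L2 Φ = fun v => ∫ x in Q, Φ x * Complex.exp (D x v) := by
      ext v
      simp only [L2, hDv]
    rw [hfun]
    exact hder.differentiableAt
  · refine Eventually.of_forall fun v => Continuous.aestronglyMeasurable ?_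
    simp only [hDv]
    fun_prop
  · have := integrable_L2 hΦ hb h1 h2
    simp only [hDv]
    exact this
  · apply Continuous.aestronglyMeasurable
    refine Continuous.smul (f := fun x => Φ x * Complex.exp (D x v₀)) ?_ hD
    simp only [hDv]
    fun_prop
  · filter_upwards [ae_restrict_mem measurableSet_Q] with x hx v hv
    have hvn : ‖v - v₀‖ ≤ m := by rw [← dist_eq_norm]; exact (mem_ball.1 hv).le
    have hv1 : v₀.1.re - m ≤ v.1.re := by
      have := (abs_le.1 ((Complex.abs_re_le_norm (v.1 - v₀.1)).trans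
        ((norm_fst_le (v - v₀)).trans hvn))).1
      rw [sub_re] at this
      linarith
    have hv2 : v₀.2.re - m ≤ v.2.re := by
      have := (abs_le.1 ((Complex.abs_re_le_norm (v.2 - v₀.2)).trans
        ((norm_snd_le (v - v₀)).trans hvn))).1
      rw [sub_re] at this
      linarith
    rw [norm_smul]
    have e1 : ‖Φ x * Complex.exp (D x v)‖ ≤
        Real.exp C * Real.exp (-((2 * m) * x.1) - (2 * m) * x.2) := by
      have := norm_integrand_le hb v hx
      rw [hDv]
      refine this.trans ?_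
      apply mul_le_mul_of_nonneg_left _ (Real.exp_pos _).le
      apply Real.exp_le_exp.2
      have e1 := mul_le_mul_of_nonneg_right (show 2 * m ≤ v.1.re - p by linarith) (le_of_lt hx.1)
      have e2 := mul_le_mul_of_nonneg_right (show 2 * m ≤ v.2.re - q by linarith) (le_of_lt hx.2)
      linarith
    have e2 : x.1 + x.2 ≤ (1 / m) * Real.exp (m * x.1 + m * x.2) := by
      have := Real.add_one_le_exp (m * x.1 + m * x.2)
      calc x.1 + x.2 = (1 / m) * (m * x.1 + m * x.2) := by field_simp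
        _ ≤ (1 / m) * Real.exp (m * x.1 + m * x.2) :=
          mul_le_mul_of_nonneg_left (by linarith) (by positivity)
    calc ‖Φ x * Complex.exp (D x v)‖ * ‖D x‖ ≤
        (Real.exp C * Real.exp (-((2 * m) * x.1) - (2 * m) * x.2)) *
          ((1 / m) * Real.exp (m * x.1 + m * x.2)) :=
          mul_le_mul e1 ((hDn x hx).trans e2) (norm_nonneg _) (by positivity)
      _ = Real.exp C * (1 / m) * (Real.exp (-((2 * m) * x.1) - (2 * m) * x.2) *
            Real.exp (m * x.1 + m * x.2)) := by ring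
      _ = _ := by rw [← Real.exp_add]; congr 2; ring
  · exact (integrableOn_exp hm0 hm0).const_mul _
  · filter_upwards with x v _
    have h1 : HasFDerivAt (fun v : ℂ × ℂ => D x v) (D x) v := (D x).hasFDerivAt
    have h2 := h1.cexp.const_mul (Φ x)
    rw [smul_smul] at h2
    exact h2

/-- the integral `∫_0^∞ exp(-a t) dt` -/
theorem integral_exp_Ioi {a : ℂ} (ha : 0 < a.re) :
    ∫ x in Ioi (0 : ℝ), Complex.exp (-(x * a)) = a⁻¹ := by
  have h := integral_exp_mul_complex_Ioi (a := -a) (by simpa using ha) 0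
  have e : ∀ x : ℝ, Complex.exp (-(x * a)) = Complex.exp (-a * x) := by
    intro x; congr 1; ring
  simp only [e]
  rw [h]
  simp

variable {K : Type*} [TopologicalSpace K] [CompactSpace K]

/-- The exponential kernel as a continuous function. -/
noncomputable def E (A B : C(K, ℂ)) (x : ℝ × ℝ) : C(K, ℂ) :=
  ⟨fun w => Complex.exp (x.1 * A w + x.2 * B w), by fun_prop⟩

omit [CompactSpace K] in
theorem continuous_E (A B : C(K, ℂ)) : Continuous (E A B) := by
  apply ContinuousMap.continuous_of_continuous_uncurry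
  simp only [E, ContinuousMap.coe_mk, Function.uncurry_def]
  fun_prop

theorem norm_E_le (A B : C(K, ℂ)) {a b : ℝ} (ha : ∀ w, (A w).re ≤ a) (hb : ∀ w, (B w).re ≤ b)
    {x : ℝ × ℝ} (hx1 : 0 ≤ x.1) (hx2 : 0 ≤ x.2) : ‖E A B x‖ ≤ Real.exp (a * x.1 + b * x.2) := by
  rw [ContinuousMap.norm_le _ (Real.exp_pos _).le]
  intro w
  simp only [E, ContinuousMap.coe_mk, Complex.norm_exp]
  apply Real.exp_le_exp.2
  have hre : ((x.1 : ℂ) * A w + x.2 * B w).re = x.1 * (A w).re + x.2 * (B w).re := by simp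
  rw [hre]
  have e1 := mul_le_mul_of_nonneg_left (ha w) hx1
  have e2 := mul_le_mul_of_nonneg_left (hb w) hx2
  linarith

/-- In the far region the Laplace transform of `μ(exp(tA+uB))` is `μ` of the resolvent kernel. -/
theorem L2_eq (μ : C(K, ℂ) →L[ℂ] ℂ) (A B : C(K, ℂ)) {a b : ℝ} (ha : ∀ w, (A w).re ≤ a)
    (hb : ∀ w, (B w).re ≤ b) {v : ℂ × ℂ} (h1 : a < v.1.re) (h2 : b < v.2.re) (c : C(K, ℂ))
    (hc : ∀ w, c w = (v.1 - A w)⁻¹ * (v.2 - B w)⁻¹) :
    L2 (fun x => μ (E A B x)) v = μ c := by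
  -- the integrand in `C(K)`
  set H : ℝ × ℝ → C(K, ℂ) := fun x => Complex.exp (-(x.1 * v.1 + x.2 * v.2)) • E A B x with hH
  have hHc : Continuous H := by
    refine Continuous.smul (f := fun x : ℝ × ℝ =>
      Complex.exp (-(x.1 * v.1 + x.2 * v.2))) ?_ (continuous_E A B)
    fun_prop
  have hHi : IntegrableOn H Q := by
    refine Integrable.mono' (integrableOn_exp (sub_pos.2 h1) (sub_pos.2 h2))
      hHc.aestronglyMeasurable ?_
    filter_upwards [ae_restrict_mem measurableSet_Q] with x hx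
    rw [hH]
    simp only [norm_smul, Complex.norm_exp]
    have hre : (-((x.1 : ℂ) * v.1 + x.2 * v.2)).re = -(x.1 * v.1.re + x.2 * v.2.re) := by simp
    rw [hre]
    calc Real.exp (-(x.1 * v.1.re + x.2 * v.2.re)) * ‖E A B x‖ ≤
        Real.exp (-(x.1 * v.1.re + x.2 * v.2.re)) * Real.exp (a * x.1 + b * x.2) :=
          mul_le_mul_of_nonneg_left (norm_E_le A B ha hb (le_of_lt hx.1) (le_of_lt hx.2))
            (Real.exp_pos _).le
      _ = _ := by rw [← Real.exp_add]; congr 1; ring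
  have hval : ∫ x in Q, H x = c := by
    ext w
    have h3 := ContinuousLinearMap.integral_comp_comm
      (ContinuousMap.evalCLM ℂ w : C(K, ℂ) →L[ℂ] ℂ) hHi
    have h4 : (∫ x in Q, H x) w = ∫ x in Q, H x w := h3.symm
    rw [h4, hc]
    have e : ∀ x : ℝ × ℝ, H x w = Complex.exp (-(x.1 * (v.1 - A w))) *
        Complex.exp (-(x.2 * (v.2 - B w))) := by
      intro x
      rw [hH]
      simp only [ContinuousMap.smul_apply, E, ContinuousMap.coe_mk, smul_eq_mul]
      rw [← Complex.exp_add, ← Complex.exp_add]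
      congr 1
      ring
    simp only [e]
    rw [Q, Measure.volume_eq_prod, ← Measure.prod_restrict]
    rw [integral_prod_mul (fun x : ℝ => Complex.exp (-(x * (v.1 - A w))))
      (fun x : ℝ => Complex.exp (-(x * (v.2 - B w))))]
    rw [integral_exp_Ioi, integral_exp_Ioi]
    · rw [sub_re]; linarith [hb w]
    · rw [sub_re]; linarith [ha w]
  have h5 := ContinuousLinearMap.integral_comp_comm μ hHi
  rw [hval] at h5
  rw [← h5, L2]
  congr 1
  ext x
  rw [hH]
  simp only [map_smul, smul_eq_mul]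
  ring

end Pool.Agent.H810R2.CSb
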