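import Mathlib
import Pool.Agent.H810R2.CSb

/-! The kernel splitting identity and its analytic continuation. -/

set_option autoImplicit false

open Set Filter Topology Complex Metric MeasureTheory

namespace Pool.Agent.H810R2.CSc

open Pool.Agent.H810R2.CSb

variable {K : Type*} [TopologicalSpace K] [CompactSpace K]

/-- exponentials -/
noncomputable def expK (W₁ W₂ : C(K, ℂ)) (p : ℂ × ℂ) : C(K, ℂ) :=
  ⟨fun w => Complex.exp (p.1 * W₁ w + p.2 * W₂ w), by fun_prop⟩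

/-- the Fourier–Borel transform -/
noncomputable def FB (μ : C(K, ℂ) →L[ℂ] ℂ) (W₁ W₂ : C(K, ℂ)) (p : ℂ × ℂ) : ℂ := μ (expK W₁ W₂ p)

omit [CompactSpace K] in
theorem continuous_expK (W₁ W₂ : C(K, ℂ)) : Continuous (expK W₁ W₂) := by
  apply ContinuousMap.continuous_of_continuous_uncurry
  simp only [expK, ContinuousMap.coe_mk, Function.uncurry_def]
  fun_prop

omit [CompactSpace K] in
theorem continuous_FB (μ : C(K, ℂ) →L[ℂ] ℂ) (W₁ W₂ : C(K, ℂ)) : Continuous (FB μ W₁ W₂) :=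
  μ.continuous.comp (continuous_expK W₁ W₂)

variable (F : ℂ × ℂ → ℂ)

/-- First half of the splitting. -/
noncomputable def B1 (e : ℂ) (z : ℂ × ℂ) : ℂ :=
  e ^ 2 * L2 (fun x => F (e * x.1, e * (x.1 + x.2))) (e * (z.1 + z.2), e * z.2)

/-- Second half of the splitting. -/
noncomputable def B2 (e : ℂ) (z : ℂ × ℂ) : ℂ :=
  e ^ 2 * L2 (fun x => F (e * (x.1 + x.2), e * x.1)) (e * (z.1 + z.2), e * z.1)

/-- The full transform. -/
noncomputable def B3 (e₁ e₂ : ℂ) (z : ℂ × ℂ) : ℂ :=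
  e₁ * e₂ * L2 (fun x => F (e₁ * x.1, e₂ * x.2)) (e₁ * z.1, e₂ * z.2)

/-- The growth hypothesis. -/
def Grow (F : ℂ × ℂ → ℂ) (κ : ℝ) : Prop := ∀ e : ℂ, e.re = 1 → ∀ ε > 0, ∃ C : ℝ,
  ∀ t u : ℝ, 0 ≤ t → 0 ≤ u →
      ‖F (e * t, e * (t + u))‖ ≤ Real.exp (C + (2 - κ + ε) * t + (1 + ε) * u) ∧
      ‖F (e * (t + u), e * t)‖ ≤ Real.exp (C + (2 - κ + ε) * t + (1 + ε) * u)

variable {F} {κ : ℝ}

theorem differentiableAt_L2 {Φ : ℝ × ℝ → ℂ} {p q : ℝ} (hΦ : Continuous Φ)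
    (hb : ∀ ε > 0, ∃ C : ℝ, ∀ t u : ℝ, 0 < t → 0 < u →
      ‖Φ (t, u)‖ ≤ Real.exp (C + (p + ε) * t + (q + ε) * u)) {v : ℂ × ℂ} (h1 : p < v.1.re)
    (h2 : q < v.2.re) : DifferentiableAt ℂ (L2 Φ) v := by
  set ε := min (v.1.re - p) (v.2.re - q) / 2 with hε
  have hε0 : 0 < ε := by
    have : 0 < min (v.1.re - p) (v.2.re - q) := lt_min (by linarith) (by linarith)
    positivity
  have e1 : 2 * ε ≤ v.1.re - p := by
    have := min_le_left (v.1.re - p) (v.2.re - q); rw [hε]; linarith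
  have e2 : 2 * ε ≤ v.2.re - q := by
    have := min_le_right (v.1.re - p) (v.2.re - q); rw [hε]; linarith
  obtain ⟨C, hC⟩ := hb ε hε0
  have hd := differentiableOn_L2 hΦ hC
  apply hd.differentiableAt
  apply IsOpen.mem_nhds
  · exact (isOpen_lt continuous_const (Complex.continuous_re.comp continuous_fst)).inter
      (isOpen_lt continuous_const (Complex.continuous_re.comp continuous_snd))
  · exact ⟨by show p + ε < v.1.re; linarith, by show q + ε < v.2.re; linarith⟩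

theorem differentiableAt_B1 (hF : Continuous F) (hg : Grow F κ) {e : ℂ} (he : e.re = 1)
    {z : ℂ × ℂ} (h1 : 2 - κ < (e * (z.1 + z.2)).re) (h2 : 1 < (e * z.2).re) :
    DifferentiableAt ℂ (B1 F e) z := by
  have h : DifferentiableAt ℂ (L2 (fun x => F (e * x.1, e * (x.1 + x.2))))
      (e * (z.1 + z.2), e * z.2) := by
    refine differentiableAt_L2 (by fun_prop) (fun ε hε => ?_) h1 h2
    obtain ⟨C, hC⟩ := hg e he ε hε
    exact ⟨C, fun t u ht hu => (hC t u ht.le hu.le).1⟩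
  have h' : DifferentiableAt ℂ (fun z : ℂ × ℂ => ((e * (z.1 + z.2), e * z.2) : ℂ × ℂ)) z := by
    fun_prop
  exact (DifferentiableAt.comp z (f := fun z : ℂ × ℂ => ((e * (z.1 + z.2), e * z.2) : ℂ × ℂ))
    h h').const_mul _

theorem differentiableAt_B2 (hF : Continuous F) (hg : Grow F κ) {e : ℂ} (he : e.re = 1)
    {z : ℂ × ℂ} (h1 : 2 - κ < (e * (z.1 + z.2)).re) (h2 : 1 < (e * z.1).re) :
    DifferentiableAt ℂ (B2 F e) z := by
  have h : DifferentiableAt ℂ (L2 (fun x => F (e * (x.1 + x.2), e * x.1)))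
      (e * (z.1 + z.2), e * z.1) := by
    refine differentiableAt_L2 (by fun_prop) (fun ε hε => ?_) h1 h2
    obtain ⟨C, hC⟩ := hg e he ε hε
    exact ⟨C, fun t u ht hu => (hC t u ht.le hu.le).2⟩
  have h' : DifferentiableAt ℂ (fun z : ℂ × ℂ => ((e * (z.1 + z.2), e * z.1) : ℂ × ℂ)) z := by
    fun_prop
  exact (DifferentiableAt.comp z (f := fun z : ℂ × ℂ => ((e * (z.1 + z.2), e * z.1) : ℂ × ℂ))
    h h').const_mul _

section

variable (μ : C(K, ℂ) →L[ℂ] ℂ) (W₁ W₂ : C(K, ℂ))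

/-- the Cauchy kernel -/
noncomputable def ck (W : C(K, ℂ)) (z : ℂ) (h : ∀ w, z - W w ≠ 0) : C(K, ℂ) :=
  ⟨fun w => (z - W w)⁻¹, Continuous.inv₀ (by fun_prop) h⟩

theorem B3_eq {e₁ e₂ : ℂ} (he₁ : e₁ ≠ 0) (he₂ : e₂ ≠ 0) {a₁ a₂ : ℝ}
    (h₁ : ∀ w, (e₁ * W₁ w).re ≤ a₁) (h₂ : ∀ w, (e₂ * W₂ w).re ≤ a₂) {z : ℂ × ℂ}
    (hz₁ : a₁ < (e₁ * z.1).re) (hz₂ : a₂ < (e₂ * z.2).re) (c : C(K, ℂ))
    (hc : ∀ w, c w = (z.1 - W₁ w)⁻¹ * (z.2 - W₂ w)⁻¹) :
    B3 (FB μ W₁ W₂) e₁ e₂ z = μ c := by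
  have hΦ : (fun x : ℝ × ℝ => FB μ W₁ W₂ (e₁ * x.1, e₂ * x.2)) =
      fun x => μ (E (e₁ • W₁) (e₂ • W₂) x) := by
    ext x
    rw [FB]
    congr 1
    ext w
    simp only [expK, E, ContinuousMap.coe_mk, ContinuousMap.smul_apply, smul_eq_mul]
    congr 1
    ring
  have hn : ∀ w, z.1 - W₁ w ≠ 0 := by
    intro w h
    have := h₁ w
    rw [← sub_eq_zero.1 h] at this
    linarith
  have hn2 : ∀ w, z.2 - W₂ w ≠ 0 := by
    intro w h
    have := h₂ w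
    rw [← sub_eq_zero.1 h] at this
    linarith
  rw [B3, hΦ, L2_eq μ (e₁ • W₁) (e₂ • W₂) (a := a₁) (b := a₂) h₁ h₂ hz₁ hz₂
    ((e₁ * e₂)⁻¹ • c) ?_]
  · rw [map_smul, smul_eq_mul, ← mul_assoc, mul_inv_cancel₀ (mul_ne_zero he₁ he₂), one_mul]
  · intro w
    simp only [ContinuousMap.smul_apply, smul_eq_mul, hc]
    rw [← mul_sub, ← mul_sub, mul_inv, mul_inv, mul_inv]
    ring

theorem B1_eq {e : ℂ} (he : e ≠ 0) {a b : ℝ}
    (h₁ : ∀ w, (e * (W₁ w + W₂ w)).re ≤ a) (h₂ : ∀ w, (e * W₂ w).re ≤ b) {z : ℂ × ℂ}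
    (hz₁ : a < (e * (z.1 + z.2)).re) (hz₂ : b < (e * z.2).re) (c : C(K, ℂ))
    (hc : ∀ w, c w = (z.1 + z.2 - (W₁ w + W₂ w))⁻¹ * (z.2 - W₂ w)⁻¹) :
    B1 (FB μ W₁ W₂) e z = μ c := by
  have hΦ : (fun x : ℝ × ℝ => FB μ W₁ W₂ (e * x.1, e * (x.1 + x.2))) =
      fun x => μ (E (e • (W₁ + W₂)) (e • W₂) x) := by
    ext x
    rw [FB]
    congr 1
    ext w
    simp only [expK, E, ContinuousMap.coe_mk, ContinuousMap.smul_apply, smul_eq_mul,
      ContinuousMap.add_apply]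
    congr 1
    ring
  rw [B1, hΦ, L2_eq μ (e • (W₁ + W₂)) (e • W₂) (a := a) (b := b) h₁ h₂ hz₁ hz₂
    ((e ^ 2)⁻¹ • c) ?_]
  · rw [map_smul, smul_eq_mul, ← mul_assoc, mul_inv_cancel₀ (pow_ne_zero 2 he), one_mul]
  · intro w
    simp only [ContinuousMap.smul_apply, smul_eq_mul, hc, ContinuousMap.add_apply]
    rw [← mul_sub, ← mul_sub, mul_inv, mul_inv]
    ring

theorem B2_eq {e : ℂ} (he : e ≠ 0) {a b : ℝ}
    (h₁ : ∀ w, (e * (W₁ w + W₂ w)).re ≤ a) (h₂ : ∀ w, (e * W₁ w).re ≤ b) {z : ℂ × ℂ}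
    (hz₁ : a < (e * (z.1 + z.2)).re) (hz₂ : b < (e * z.1).re) (c : C(K, ℂ))
    (hc : ∀ w, c w = (z.1 + z.2 - (W₁ w + W₂ w))⁻¹ * (z.1 - W₁ w)⁻¹) :
    B2 (FB μ W₁ W₂) e z = μ c := by
  have hΦ : (fun x : ℝ × ℝ => FB μ W₁ W₂ (e * (x.1 + x.2), e * x.1)) =
      fun x => μ (E (e • (W₁ + W₂)) (e • W₁) x) := by
    ext x
    rw [FB]
    congr 1
    ext w
    simp only [expK, E, ContinuousMap.coe_mk, ContinuousMap.smul_apply, smul_eq_mul,
      ContinuousMap.add_apply]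
    congr 1
    ring
  rw [B2, hΦ, L2_eq μ (e • (W₁ + W₂)) (e • W₁) (a := a) (b := b) h₁ h₂ hz₁ hz₂
    ((e ^ 2)⁻¹ • c) ?_]
  · rw [map_smul, smul_eq_mul, ← mul_assoc, mul_inv_cancel₀ (pow_ne_zero 2 he), one_mul]
  · intro w
    simp only [ContinuousMap.smul_apply, smul_eq_mul, hc, ContinuousMap.add_apply]
    rw [← mul_sub, ← mul_sub, mul_inv, mul_inv]
    ring

/-- The splitting of the Cauchy transform, by analytic continuation. -/
theorem split (hκ : 0 < κ) (hg : Grow (FB μ W₁ W₂) κ) {e₁ e₂ : ℂ} (he₁ : e₁.re = 1)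
    (he₂ : e₂.re = 1) {a : ℝ} (ha : 1 ≤ a) (h₁₁ : ∀ w, (e₁ * W₁ w).re ≤ a)
    (h₁₂ : ∀ w, (e₁ * W₂ w).re ≤ a) (h₂₁ : ∀ w, (e₂ * W₁ w).re ≤ a)
    (h₂₂ : ∀ w, (e₂ * W₂ w).re ≤ a) {z : ℂ × ℂ} (hz₁ : a < (e₁ * z.1).re)
    (hz₂ : a < (e₂ * z.2).re) (hz₃ : 2 - κ < (e₁ * (z.1 + z.2)).re)
    (hz₄ : 2 - κ < (e₂ * (z.1 + z.2)).re) (c : C(K, ℂ))
    (hc : ∀ w, c w = (z.1 - W₁ w)⁻¹ * (z.2 - W₂ w)⁻¹) :
    μ c = B1 (FB μ W₁ W₂) e₂ z + B2 (FB μ W₁ W₂) e₁ z := by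
  set F := FB μ W₁ W₂ with hF
  have hFc : Continuous F := continuous_FB μ W₁ W₂
  have hne : ∀ {e : ℂ}, e.re = 1 → e ≠ 0 := by
    intro e he h
    rw [h] at he
    simp at he
  obtain ⟨z₁, z₂⟩ := z
  simp only at hz₁ hz₂ hz₃ hz₄ hc
  have hadd : ∀ {e : ℂ} (x y : ℂ), (e * (x + y)).re = (e * x).re + (e * y).re := by
    intro e x y
    rw [mul_add, add_re]
  rw [← B3_eq μ W₁ W₂ (hne he₁) (hne he₂) h₁₁ h₂₂ (z := (z₁, z₂)) hz₁ hz₂ c hc, ← hF]
  -- the domain in the variable `z₁`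
  set O : Set ℂ := {x | a < (e₁ * x).re} ∩ ({x | 2 - κ < (e₁ * (x + z₂)).re} ∩
    {x | 2 - κ < (e₂ * (x + z₂)).re}) with hO
  have hset : ∀ (e : ℂ) (m : ℝ), {x : ℂ | m < (e * (x + z₂)).re} =
      {x : ℂ | m - (e * z₂).re < (e * x).re} := by
    intro e m
    ext x
    show m < (e * (x + z₂)).re ↔ m - (e * z₂).re < (e * x).re
    rw [hadd]
    constructor <;> intro h <;> linarith
  have hopn : ∀ (e : ℂ) (m : ℝ), IsOpen {x : ℂ | m < (e * x).re} := by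
    intro e m
    exact isOpen_lt continuous_const (Complex.continuous_re.comp (continuous_const_mul e))
  have hcvx : ∀ (e : ℂ) (m : ℝ), Convex ℝ {x : ℂ | m < (e * x).re} := by
    intro e m x hx x' hx' s t hs ht hst
    have hx1 : m < (e * x).re := hx
    have hx2 : m < (e * x').re := hx'
    show m < (e * (s • x + t • x')).re
    have : (e * (s • x + t • x')).re = s * (e * x).re + t * (e * x').re := by
      simp; ring
    rw [this]
    have e1 : s * m + t * m = m := by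
      rw [← add_mul, hst, one_mul]
    rcases hs.eq_or_lt with h | h
    · have : t = 1 := by linarith
      rw [← h, this]; linarith
    · have := mul_lt_mul_of_pos_left hx1 h
      have := mul_le_mul_of_nonneg_left hx2.le ht
      linarith
  have hopn' : ∀ (e : ℂ) (m : ℝ), IsOpen {x : ℂ | m < (e * (x + z₂)).re} := by
    intro e m
    rw [hset]; exact hopn _ _
  have hcvx' : ∀ (e : ℂ) (m : ℝ), Convex ℝ {x : ℂ | m < (e * (x + z₂)).re} := by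
    intro e m
    rw [hset]; exact hcvx _ _
  have hOo : IsOpen O := (hopn e₁ a).inter ((hopn' _ _).inter (hopn' _ _))
  have hOc : Convex ℝ O := (hcvx e₁ a).inter ((hcvx' _ _).inter (hcvx' _ _))
  have hB3 : DifferentiableOn ℂ (fun x => B3 F e₁ e₂ (x, z₂)) O := by
    intro x hx
    apply DifferentiableAt.differentiableWithinAt
    have h : DifferentiableAt ℂ (L2 (fun x => F (e₁ * x.1, e₂ * x.2))) (e₁ * x, e₂ * z₂) := by
      refine differentiableAt_L2 (p := a) (q := a) (by fun_prop) (fun ε hε => ?_) hx.1 hz₂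
      refine ⟨‖μ‖, fun t u ht hu => ?_⟩
      have hΦ : F (e₁ * t, e₂ * u) = μ (E (e₁ • W₁) (e₂ • W₂) (t, u)) := by
        rw [hF, FB]
        congr 1
        ext w
        simp only [expK, E, ContinuousMap.coe_mk, ContinuousMap.smul_apply, smul_eq_mul]
        congr 1
        ring
      simp only [hΦ]
      calc ‖μ (E (e₁ • W₁) (e₂ • W₂) (t, u))‖ ≤ ‖μ‖ * ‖E (e₁ • W₁) (e₂ • W₂) (t, u)‖ :=
            μ.le_opNorm _
        _ ≤ Real.exp ‖μ‖ * Real.exp (a * t + a * u) := by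
            apply mul_le_mul _ (norm_E_le _ _ h₁₁ h₂₂ ht.le hu.le) (norm_nonneg _)
              (Real.exp_pos _).le
            linarith [Real.add_one_le_exp ‖μ‖]
        _ ≤ _ := by
            rw [← Real.exp_add]
            apply Real.exp_le_exp.2
            have := mul_pos hε ht
            have := mul_pos hε hu
            linarith
    have h' : DifferentiableAt ℂ (fun x : ℂ => ((e₁ * x, e₂ * z₂) : ℂ × ℂ)) x := by fun_prop
    exact (DifferentiableAt.comp x (f := fun x : ℂ => ((e₁ * x, e₂ * z₂) : ℂ × ℂ)) h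
      h').const_mul _
  have hpair : ∀ x : ℂ, DifferentiableAt ℂ (fun x : ℂ => ((x, z₂) : ℂ × ℂ)) x := fun x => by
    fun_prop
  have hB1 : DifferentiableOn ℂ (fun x => B1 F e₂ (x, z₂)) O := by
    intro x hx
    apply DifferentiableAt.differentiableWithinAt
    exact DifferentiableAt.comp x (f := fun x : ℂ => ((x, z₂) : ℂ × ℂ))
      (differentiableAt_B1 (z := (x, z₂)) hFc hg he₂ hx.2.2 (lt_of_le_of_lt ha hz₂)) (hpair x)
  have hB2 : DifferentiableOn ℂ (fun x => B2 F e₁ (x, z₂)) O := by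
    intro x hx
    apply DifferentiableAt.differentiableWithinAt
    exact DifferentiableAt.comp x (f := fun x : ℂ => ((x, z₂) : ℂ × ℂ))
      (differentiableAt_B2 (z := (x, z₂)) hFc hg he₁ hx.2.1 (lt_of_le_of_lt ha hx.1)) (hpair x)
  -- the far point
  set X : ℝ := 2 * a + |(e₁ * z₂).re| + |(e₂ * z₂).re| + 1 with hX
  have hXre : ∀ {e : ℂ}, e.re = 1 → (e * (X : ℂ)).re = X := by
    intro e he
    simp [he]
  have hXO : ∀ x : ℂ, (2 * a < (e₁ * x).re ∧ 2 * a < (e₁ * (x + z₂)).re ∧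
      2 * a < (e₂ * (x + z₂)).re) → x ∈ O := by
    rintro x ⟨i1, i2, i3⟩
    have j1 : a < (e₁ * x).re := by linarith
    have j2 : 2 - κ < (e₁ * (x + z₂)).re := by linarith
    have j3 : 2 - κ < (e₂ * (x + z₂)).re := by linarith
    exact ⟨j1, j2, j3⟩
  have hXfar : 2 * a < (e₁ * (X : ℂ)).re ∧ 2 * a < (e₁ * ((X : ℂ) + z₂)).re ∧
      2 * a < (e₂ * ((X : ℂ) + z₂)).re := by
    rw [hadd, hadd, hXre he₁, hXre he₂]
    have i1 := neg_abs_le (e₁ * z₂).re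
    have i2 := neg_abs_le (e₂ * z₂).re
    have i3 := abs_nonneg (e₁ * z₂).re
    have i4 := abs_nonneg (e₂ * z₂).re
    refine ⟨by linarith, by linarith, by linarith⟩
  have hnear : (fun x => B3 F e₁ e₂ (x, z₂)) =ᶠ[𝓝 (X : ℂ)]
      (fun x => B1 F e₂ (x, z₂) + B2 F e₁ (x, z₂)) := by
    have hop : IsOpen ({x | 2 * a < (e₁ * x).re} ∩ ({x | 2 * a < (e₁ * (x + z₂)).re} ∩
        {x | 2 * a < (e₂ * (x + z₂)).re})) := (hopn e₁ _).inter ((hopn' _ _).inter (hopn' _ _))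
    filter_upwards [hop.mem_nhds hXfar] with x hx
    obtain ⟨i1', i2', i3'⟩ := hx
    have i1 : 2 * a < (e₁ * x).re := i1'
    have i2 : 2 * a < (e₁ * (x + z₂)).re := i2'
    have i3 : 2 * a < (e₂ * (x + z₂)).re := i3'
    have n1 : ∀ w, x - W₁ w ≠ 0 := by
      intro w h
      have := h₁₁ w
      rw [← sub_eq_zero.1 h] at this
      linarith
    have n2 : ∀ w, z₂ - W₂ w ≠ 0 := by
      intro w h
      have := h₂₂ w
      rw [← sub_eq_zero.1 h] at this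
      linarith
    have n3 : ∀ w, x + z₂ - (W₁ w + W₂ w) ≠ 0 := by
      intro w h
      have e1 := h₁₁ w
      have e2 := h₁₂ w
      have e3 : (e₁ * (x + z₂)).re = (e₁ * (W₁ w + W₂ w)).re := by rw [sub_eq_zero.1 h]
      rw [hadd (W₁ w)] at e3
      linarith
    let c₃ : C(K, ℂ) := ck W₁ x n1 * ck W₂ z₂ n2
    let c₁ : C(K, ℂ) := ck (W₁ + W₂) (x + z₂) n3 * ck W₂ z₂ n2
    let c₂ : C(K, ℂ) := ck (W₁ + W₂) (x + z₂) n3 * ck W₁ x n1
    have f3 := B3_eq μ W₁ W₂ (hne he₁) (hne he₂) h₁₁ h₂₂ (z := (x, z₂))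
      (show a < (e₁ * x).re by linarith) hz₂ c₃ (fun w => rfl)
    have f1 := B1_eq μ W₁ W₂ (hne he₂) (a := 2 * a) (b := a) (z := (x, z₂))
      (fun w => by rw [hadd]; linarith [h₂₁ w, h₂₂ w]) h₂₂ i3 hz₂ c₁ (fun w => rfl)
    have f2 := B2_eq μ W₁ W₂ (hne he₁) (a := 2 * a) (b := a) (z := (x, z₂))
      (fun w => by rw [hadd]; linarith [h₁₁ w, h₁₂ w]) h₁₁ i2 (show a < (e₁ * x).re by linarith)
      c₂ (fun w => rfl)
    rw [hF, f3, f1, f2, ← map_add]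
    congr 1
    ext w
    show (x - W₁ w)⁻¹ * (z₂ - W₂ w)⁻¹ = (x + z₂ - (W₁ w + W₂ w))⁻¹ * (z₂ - W₂ w)⁻¹ +
      (x + z₂ - (W₁ w + W₂ w))⁻¹ * (x - W₁ w)⁻¹
    have m1 := n1 w
    have m2 := n2 w
    have m3 := n3 w
    field_simp
    ring
  have := (hB3.analyticOnNhd hOo).eqOn_of_preconnected_of_eventuallyEq
    ((hB1.add hB2).analyticOnNhd hOo) hOc.isPreconnected (hXO _ hXfar) hnear
  exact this ⟨hz₁, hz₃, hz₄⟩

end

end Pool.Agent.H810R2.CSc
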