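import Mathlib
import Pool.Agent.H810R2.CSd

/-! Double contour integrals. -/

set_option autoImplicit false

open Set Filter Topology Complex Metric MeasureTheory

namespace Pool.Agent.H810R2.CSd

variable {X Y : Type*} [NormedAddCommGroup X] [NormedSpace ℂ X] [CompleteSpace X]
  [NormedAddCommGroup Y] [NormedSpace ℂ Y] [CompleteSpace Y]

/-- clamped point -/
noncomputable def Seg.ptc (s : Seg) (x : ℝ) : ℂ := s.pt (max s.a (min s.b x))

theorem Seg.continuous_ptc (s : Seg) : Continuous s.ptc :=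
  s.continuous_pt.comp (by fun_prop)

theorem Seg.exists_ptc {s : Seg} (hs : s.a ≤ s.b) (x : ℝ) :
    ∃ y, s.a ≤ y ∧ y ≤ s.b ∧ s.ptc x = s.pt y :=
  ⟨_, le_max_left _ _, max_le hs (min_le_left _ _), rfl⟩

omit [CompleteSpace X] in
theorem Seg.int_eq {s : Seg} (hs : s.a ≤ s.b) (g : ℂ → X) :
    s.int g = s.ω • ∫ x in s.a..s.b, g (s.ptc x) := by
  unfold Seg.int
  congr 1
  apply intervalIntegral.integral_congr
  intro x hx
  rw [uIcc_of_le hs] at hx
  simp only [Seg.ptc]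
  rw [min_eq_right hx.2, max_eq_right hx.1]

/-- double integral -/
noncomputable def D (s t : Seg) (G : ℂ → ℂ → X) : X := s.int fun z₁ => t.int fun z₂ => G z₁ z₂

/-- continuity along the product of two segments -/
def CC (s t : Seg) (G : ℂ → ℂ → X) : Prop := Continuous fun q : ℝ × ℝ => G (s.ptc q.1) (t.ptc q.2)

omit [CompleteSpace X] in
theorem D_eq {s t : Seg} (hs : s.a ≤ s.b) (ht : t.a ≤ t.b) (G : ℂ → ℂ → X) :
    D s t G = s.ω • ∫ x in s.a..s.b, t.ω • ∫ y in t.a..t.b, G (s.ptc x) (t.ptc y) := by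
  unfold D
  rw [Seg.int_eq hs]
  congr 1
  apply intervalIntegral.integral_congr
  intro x _
  simp only
  rw [Seg.int_eq ht]

omit [CompleteSpace X] in
theorem continuous_inner {s t : Seg} {G : ℂ → ℂ → X} (hG : CC s t G) :
    Continuous fun x : ℝ => t.ω • ∫ y in t.a..t.b, G (s.ptc x) (t.ptc y) := by
  apply Continuous.const_smul
  have h : Continuous (Function.uncurry fun x y => G (s.ptc x) (t.ptc y)) := hG
  exact intervalIntegral.continuous_parametric_intervalIntegral_of_continuous' h _ _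

theorem D_clm (L : X →L[ℂ] Y) {s t : Seg} (hs : s.a ≤ s.b) (ht : t.a ≤ t.b) {G : ℂ → ℂ → X}
    (hG : CC s t G) : L (D s t G) = D s t fun z₁ z₂ => L (G z₁ z₂) := by
  rw [D_eq hs ht, D_eq hs ht, map_smul]
  congr 1
  rw [← ContinuousLinearMap.intervalIntegral_comp_comm L
    ((continuous_inner hG).intervalIntegrable _ _)]
  apply intervalIntegral.integral_congr
  intro x _
  simp only
  rw [map_smul]
  congr 1
  have : Continuous fun y => G (s.ptc x) (t.ptc y) := by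
    have := hG.comp (Continuous.prodMk_right x)
    exact this
  rw [← ContinuousLinearMap.intervalIntegral_comp_comm L (this.intervalIntegrable _ _)]

omit [CompleteSpace X] in
theorem D_add {s t : Seg} (hs : s.a ≤ s.b) (ht : t.a ≤ t.b) {G G' : ℂ → ℂ → X} (hG : CC s t G)
    (hG' : CC s t G') : (D s t fun z₁ z₂ => G z₁ z₂ + G' z₁ z₂) = D s t G + D s t G' := by
  rw [D_eq hs ht, D_eq hs ht, D_eq hs ht, ← smul_add,
    ← intervalIntegral.integral_add ((continuous_inner hG).intervalIntegrable _ _)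
      ((continuous_inner hG').intervalIntegrable _ _)]
  congr 1
  apply intervalIntegral.integral_congr
  intro x _
  simp only
  rw [← smul_add, ← intervalIntegral.integral_add]
  · exact (Continuous.intervalIntegrable (hG.comp (Continuous.prodMk_right x)) _ _)
  · exact (Continuous.intervalIntegrable (hG'.comp (Continuous.prodMk_right x)) _ _)

omit [CompleteSpace X] in
theorem D_swap {s t : Seg} (hs : s.a ≤ s.b) (ht : t.a ≤ t.b) {G : ℂ → ℂ → X} (hG : CC s t G) :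
    D s t G = D t s fun z₂ z₁ => G z₁ z₂ := by
  rw [D_eq hs ht, D_eq ht hs]
  simp only [intervalIntegral.integral_smul]
  rw [smul_smul, smul_smul, mul_comm]
  congr 1
  apply intervalIntegral_intervalIntegral_swap
  have : ContinuousOn (Function.uncurry fun x y => G (s.ptc x) (t.ptc y))
      (uIcc s.a s.b ×ˢ uIcc t.a t.b) := by
    apply Continuous.continuousOn
    exact hG
  exact (this.integrableOn_compact (isCompact_uIcc.prod isCompact_uIcc)).mono_set
    (prod_mono uIoc_subset_uIcc uIoc_subset_uIcc)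

omit [CompleteSpace X] in
theorem norm_int_le {s : Seg} (hs : s.a ≤ s.b) {g : ℂ → X} {M : ℝ}
    (h : ∀ x, s.a ≤ x → x ≤ s.b → ‖g (s.pt x)‖ ≤ M) : ‖s.int g‖ ≤ ‖s.ω‖ * ((s.b - s.a) * M) := by
  unfold Seg.int
  rw [norm_smul]
  apply mul_le_mul_of_nonneg_left _ (norm_nonneg _)
  have := intervalIntegral.norm_integral_le_of_norm_le_const (a := s.a) (b := s.b)
    (f := fun x => g (s.pt x)) (C := M) (by
      intro x hx
      rw [uIoc_of_le hs] at hx
      exact h x hx.1.le hx.2)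
  rwa [abs_of_nonneg (by linarith), mul_comm] at this

omit [CompleteSpace X] in
theorem norm_D_le {s t : Seg} (hs : s.a ≤ s.b) (ht : t.a ≤ t.b) {G : ℂ → ℂ → X} {M : ℝ}
    (h : ∀ x y, s.a ≤ x → x ≤ s.b → t.a ≤ y → y ≤ t.b → ‖G (s.pt x) (t.pt y)‖ ≤ M) :
    ‖D s t G‖ ≤ ‖s.ω‖ * ((s.b - s.a) * (‖t.ω‖ * ((t.b - t.a) * M))) :=
  norm_int_le hs fun x hx hx' => norm_int_le ht fun y hy hy' => h x y hx hx' hy hy'

omit [CompleteSpace X] in
/-- summing the inner contour -/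
theorem sum_D {ι : Type*} [Fintype ι] {s : Seg} (hs : s.a ≤ s.b) {t : ι → Seg}
    (ht : ∀ i, (t i).a ≤ (t i).b) {G : ℂ → ℂ → X} (hG : ∀ i, CC s (t i) G) :
    ∑ i, D s (t i) G = s.int fun z₁ => ∑ i, (t i).int fun z₂ => G z₁ z₂ := by
  rw [Seg.int_eq hs]
  simp only [D_eq hs (ht _)]
  rw [← Finset.smul_sum, ← intervalIntegral.integral_finsetSum]
  · congr 1
    apply intervalIntegral.integral_congr
    intro x _
    simp only
    refine Finset.sum_congr rfl fun i _ => ?_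
    rw [Seg.int_eq (ht i)]
  · intro i _
    exact (continuous_inner (hG i)).intervalIntegrable _ _

section resolvent

variable {K : Type*} [TopologicalSpace K] [CompactSpace K]

/-- resolvent kernel -/
noncomputable def rs (W : C(K, ℂ)) (z : ℂ) : C(K, ℂ) := Ring.inverse (algebraMap ℂ C(K, ℂ) z - W)

omit [CompactSpace K] in
theorem isUnit_sub (W : C(K, ℂ)) {z : ℂ} (h : ∀ w, z - W w ≠ 0) :
    IsUnit (algebraMap ℂ C(K, ℂ) z - W) := by
  rw [ContinuousMap.isUnit_iff_forall_ne_zero]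
  intro w
  simpa using h w

omit [CompactSpace K] in
theorem rs_apply (W : C(K, ℂ)) {z : ℂ} (h : ∀ w, z - W w ≠ 0) (w : K) :
    rs W z w = (z - W w)⁻¹ := by
  have h1 := Ring.mul_inverse_cancel _ (isUnit_sub W h)
  have h2 := congrArg (fun f : C(K, ℂ) => f w) h1
  simp only [ContinuousMap.mul_apply, ContinuousMap.sub_apply, ContinuousMap.one_apply] at h2
  have h3 : (algebraMap ℂ C(K, ℂ) z) w = z := by simp
  rw [h3] at h2
  exact eq_inv_of_mul_eq_one_right h2

theorem continuous_rs (W : C(K, ℂ)) {p : ℝ → ℂ} (hp : Continuous p)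
    (h : ∀ x w, p x - W w ≠ 0) : Continuous fun x => rs W (p x) := by
  rw [continuous_iff_continuousAt]
  intro x
  obtain ⟨u, hu⟩ := isUnit_sub W (h x)
  have h1 : ContinuousAt Ring.inverse (algebraMap ℂ C(K, ℂ) (p x) - W) := by
    rw [← hu]
    exact NormedRing.inverse_continuousAt u
  have h2 : Continuous fun x => algebraMap ℂ C(K, ℂ) (p x) - W :=
    ((algebraMapCLM ℂ C(K, ℂ)).continuous.comp hp).sub continuous_const
  exact ContinuousAt.comp (f := fun x => algebraMap ℂ C(K, ℂ) (p x) - W) h1 h2.continuousAt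

theorem norm_rs_le (W : C(K, ℂ)) {z : ℂ} {d : ℝ} (hd : 0 < d) (h : ∀ w, d ≤ ‖z - W w‖) :
    ‖rs W z‖ ≤ d⁻¹ := by
  have hne : ∀ w, z - W w ≠ 0 := fun w hw => by
    have := h w
    rw [hw, norm_zero] at this
    linarith
  rw [ContinuousMap.norm_le _ (by positivity)]
  intro w
  rw [rs_apply W hne, norm_inv]
  exact inv_anti₀ hd (h w)

/-- Cauchy's formula in two variables, applied to a functional. -/
theorem cauchy2 {ι : Type*} [Fintype ι] {Γ : ι → Seg} (hΓ : ∀ i, (Γ i).a ≤ (Γ i).b)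
    (W₁ W₂ : C(K, ℂ)) (hne₁ : ∀ i x w, (Γ i).pt x - W₁ w ≠ 0) (hne₂ : ∀ i x w, (Γ i).pt x - W₂ w ≠ 0)
    (hC₁ : ∀ g : ℂ → ℂ, Differentiable ℂ g → ∀ w, ∑ i, (Γ i).int (fun z => (z - W₁ w)⁻¹ * g z) =
      2 * Real.pi * I * g (W₁ w))
    (hC₂ : ∀ g : ℂ → ℂ, Differentiable ℂ g → ∀ w, ∑ i, (Γ i).int (fun z => (z - W₂ w)⁻¹ * g z) =
      2 * Real.pi * I * g (W₂ w))
    (μ : C(K, ℂ) →L[ℂ] ℂ) {f : ℂ × ℂ → ℂ} (hf : Differentiable ℂ f) (c : C(K, ℂ))
    (hc : ∀ w, c w = f (W₁ w, W₂ w)) :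
    (2 * Real.pi * I) ^ 2 * μ c =
      ∑ i, ∑ j, D (Γ i) (Γ j) fun z₁ z₂ => f (z₁, z₂) * μ (rs W₁ z₁ * rs W₂ z₂) := by
  have hne₁' : ∀ i x w, (Γ i).ptc x - W₁ w ≠ 0 := fun i x w => hne₁ i _ w
  have hne₂' : ∀ i x w, (Γ i).ptc x - W₂ w ≠ 0 := fun i x w => hne₂ i _ w
  have hCC : ∀ i j, CC (Γ i) (Γ j) fun z₁ z₂ => f (z₁, z₂) • (rs W₁ z₁ * rs W₂ z₂) := by
    intro i j
    have c1 : Continuous fun q : ℝ × ℝ => f ((Γ i).ptc q.1, (Γ j).ptc q.2) :=
      hf.continuous.comp (((Γ i).continuous_ptc.comp continuous_fst).prodMk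
        ((Γ j).continuous_ptc.comp continuous_snd))
    have c2 : Continuous fun q : ℝ × ℝ => rs W₁ ((Γ i).ptc q.1) :=
      (continuous_rs W₁ (Γ i).continuous_ptc (hne₁' i)).comp continuous_fst
    have c3 : Continuous fun q : ℝ × ℝ => rs W₂ ((Γ j).ptc q.2) :=
      (continuous_rs W₂ (Γ j).continuous_ptc (hne₂' j)).comp continuous_snd
    exact c1.smul (c2.mul c3)
  have hval : ∑ i, ∑ j, D (Γ i) (Γ j) (fun z₁ z₂ => f (z₁, z₂) • (rs W₁ z₁ * rs W₂ z₂)) =
      ((2 * Real.pi * I) ^ 2 : ℂ) • c := by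
    ext w
    have e1 := map_sum (ContinuousMap.evalCLM ℂ w : C(K, ℂ) →L[ℂ] ℂ)
      (fun i => ∑ j, D (Γ i) (Γ j) (fun z₁ z₂ => f (z₁, z₂) • (rs W₁ z₁ * rs W₂ z₂)))
      Finset.univ
    have e2 : (∑ i, ∑ j, D (Γ i) (Γ j) (fun z₁ z₂ => f (z₁, z₂) • (rs W₁ z₁ * rs W₂ z₂))) w =
        ∑ i, ∑ j, D (Γ i) (Γ j) fun z₁ z₂ => (f (z₁, z₂) • (rs W₁ z₁ * rs W₂ z₂)) w := by
      refine e1.trans (Finset.sum_congr rfl fun i _ => ?_)
      rw [map_sum]
      refine Finset.sum_congr rfl fun j _ => ?_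
      exact D_clm (ContinuousMap.evalCLM ℂ w : C(K, ℂ) →L[ℂ] ℂ) (hΓ i) (hΓ j) (hCC i j)
    rw [e2]
    -- evaluate the resolvents
    have e3 : ∀ i j, (D (Γ i) (Γ j) fun z₁ z₂ => (f (z₁, z₂) • (rs W₁ z₁ * rs W₂ z₂)) w) =
        D (Γ i) (Γ j) fun z₁ z₂ => (z₁ - W₁ w)⁻¹ * ((z₂ - W₂ w)⁻¹ * f (z₁, z₂)) := by
      intro i j
      rw [D_eq (hΓ i) (hΓ j), D_eq (hΓ i) (hΓ j)]
      congr 1
      apply intervalIntegral.integral_congr
      intro x _
      simp only
      congr 1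
      apply intervalIntegral.integral_congr
      intro y _
      simp only [ContinuousMap.smul_apply, ContinuousMap.mul_apply, smul_eq_mul]
      rw [rs_apply W₁ (hne₁' i x), rs_apply W₂ (hne₂' j y)]
      ring
    simp only [e3]
    have hCC' : ∀ i j, CC (Γ i) (Γ j) fun z₁ z₂ => (z₁ - W₁ w)⁻¹ * ((z₂ - W₂ w)⁻¹ * f (z₁, z₂)) := by
      intro i j
      have c1 : Continuous fun q : ℝ × ℝ => f ((Γ i).ptc q.1, (Γ j).ptc q.2) :=
        hf.continuous.comp (((Γ i).continuous_ptc.comp continuous_fst).prodMk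
          ((Γ j).continuous_ptc.comp continuous_snd))
      have c2 : Continuous fun q : ℝ × ℝ => ((Γ i).ptc q.1 - W₁ w)⁻¹ :=
        Continuous.inv₀ (((Γ i).continuous_ptc.comp continuous_fst).sub continuous_const)
          fun q => hne₁' i _ w
      have c3 : Continuous fun q : ℝ × ℝ => ((Γ j).ptc q.2 - W₂ w)⁻¹ :=
        Continuous.inv₀ (((Γ j).continuous_ptc.comp continuous_snd).sub continuous_const)
          fun q => hne₂' j _ w
      exact c2.mul (c3.mul c1)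
    have e4 : ∀ i, ∑ j, (D (Γ i) (Γ j) fun z₁ z₂ => (z₁ - W₁ w)⁻¹ * ((z₂ - W₂ w)⁻¹ * f (z₁, z₂))) =
        (Γ i).int fun z₁ => (z₁ - W₁ w)⁻¹ * (2 * Real.pi * I * f (z₁, W₂ w)) := by
      intro i
      rw [sum_D (hΓ i) hΓ (hCC' i)]
      congr 1
      ext z₁
      have : Differentiable ℂ fun z₂ => f (z₁, z₂) := hf.comp (by fun_prop)
      rw [← hC₂ _ this w, Finset.mul_sum]
      refine Finset.sum_congr rfl fun j _ => ?_
      unfold Seg.int
      simp only [smul_eq_mul, intervalIntegral.integral_const_mul]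
      ring
    simp only [e4]
    have : Differentiable ℂ fun z₁ => 2 * Real.pi * I * f (z₁, W₂ w) :=
      (hf.comp (by fun_prop)).const_mul _
    rw [hC₁ _ this w]
    simp only [ContinuousMap.smul_apply, smul_eq_mul, hc]
    ring
  have h5 := congrArg μ hval
  rw [map_smul, smul_eq_mul] at h5
  rw [← h5, map_sum]
  refine Finset.sum_congr rfl fun i _ => ?_
  rw [map_sum]
  refine Finset.sum_congr rfl fun j _ => ?_
  rw [D_clm μ (hΓ i) (hΓ j) (hCC i j)]
  simp only [map_smul, smul_eq_mul]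

end resolvent

end Pool.Agent.H810R2.CSd
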