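import Mathlib
import Pool.Agent.H810R2.CSc
import Pool.Agent.H810R2.CSe

/-! The main estimate: a functional with improved growth is carried by the cut square. -/

set_option autoImplicit false

open Set Filter Topology Complex Metric MeasureTheory

namespace Pool.Agent.H810R2.CSf

open Pool.Agent.H810R2.CSb Pool.Agent.H810R2.CSc Pool.Agent.H810R2.CSd

variable {K : Type*} [TopologicalSpace K] [CompactSpace K]

/-- three sides of the right rectangle -/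
noncomputable def gam (r d : ℝ) : Fin 3 → Seg :=
  ![⟨-(r * I), 1, 1, 1 - d, 1 + r⟩, ⟨1 + r, I, I, -r, r⟩, ⟨r * I, 1, -1, 1 - d, 1 + r⟩]

/-- three sides of the left rectangle -/
noncomputable def alp (r d : ℝ) : Fin 3 → Seg :=
  ![⟨-(r * I), 1, 1, -1 - r, 1 - d⟩, ⟨-1 - r, I, -I, -r, r⟩, ⟨r * I, 1, -1, -1 - r, 1 - d⟩]

/-- the cut -/
noncomputable def ell (r d : ℝ) : Seg := ⟨1 - d, I, I, -r, r⟩

/-- the directions -/
noncomputable def dir (q : ℝ) : Fin 3 → ℂ := ![1 + q * I, 1, 1 - q * I]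

theorem dir_re (q : ℝ) (i : Fin 3) : (dir q i).re = 1 := by
  fin_cases i <;> simp [dir]

theorem dir_im {q : ℝ} (hq : 0 ≤ q) (i : Fin 3) : |(dir q i).im| ≤ q := by
  fin_cases i <;> simp [dir, abs_of_nonneg hq, hq]

theorem dir_mul_re (q : ℝ) (i : Fin 3) (z : ℂ) : (dir q i * z).re = z.re - (dir q i).im * z.im := by
  rw [mul_re, dir_re, one_mul]

theorem le_dir_mul_re {q : ℝ} (hq : 0 ≤ q) (i : Fin 3) {z : ℂ} {m r : ℝ} (h1 : m ≤ z.re)
    (h2 : |z.im| ≤ r) : m - q * r ≤ (dir q i * z).re := by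
  rw [dir_mul_re]
  have : |(dir q i).im * z.im| ≤ q * r := by
    rw [abs_mul]
    exact mul_le_mul (dir_im hq i) h2 (abs_nonneg _) hq
  have := (abs_le.1 this).2
  linarith

theorem dir_mul_re_le {q : ℝ} (hq : 0 ≤ q) (i : Fin 3) {z : ℂ} {m r : ℝ} (h1 : z.re ≤ m)
    (h2 : |z.im| ≤ r) : (dir q i * z).re ≤ m + q * r := by
  rw [dir_mul_re]
  have : |(dir q i).im * z.im| ≤ q * r := by
    rw [abs_mul]
    exact mul_le_mul (dir_im hq i) h2 (abs_nonneg _) hq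
  have := (abs_le.1 this).1
  linarith

section geom

variable {r d q : ℝ}

theorem gam_le (hr : 0 < r) (hd : 0 < d) (i : Fin 3) : (gam r d i).a ≤ (gam r d i).b := by
  fin_cases i <;> simp [gam] <;> linarith

theorem alp_le (hr : 0 < r) (hd1 : d ≤ 1) (i : Fin 3) : (alp r d i).a ≤ (alp r d i).b := by
  fin_cases i <;> simp [alp] <;> linarith

theorem ell_le (hr : 0 < r) : (ell r d).a ≤ (ell r d).b := by
  simp [ell]; linarith

/-- points of `gam` -/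
theorem gam_pt (hr : 0 < r) (hd : 0 < d) (i : Fin 3) {x : ℝ} (h1 : (gam r d i).a ≤ x)
    (h2 : x ≤ (gam r d i).b) : 1 - d ≤ ((gam r d i).pt x).re ∧ ((gam r d i).pt x).re ≤ 1 + r ∧
      |((gam r d i).pt x).im| ≤ r := by
  fin_cases i
  · simp [gam, Seg.pt] at h1 h2 ⊢
    exact ⟨h1, h2, (abs_of_pos hr).le⟩
  · simp [gam, Seg.pt] at h1 h2 ⊢
    exact ⟨by linarith, abs_le.2 ⟨h1, h2⟩⟩
  · simp [gam, Seg.pt] at h1 h2 ⊢
    exact ⟨h1, h2, (abs_of_pos hr).le⟩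

theorem gam_far (hq : q * r = 2 * d) (i : Fin 3) {x : ℝ}
    (h1 : (gam r d i).a ≤ x) :
    min (1 + d) (1 + r) ≤ (dir q i * (gam r d i).pt x).re := by
  fin_cases i
  · simp [gam, Seg.pt, dir] at h1 ⊢
    left; linarith
  · simp [gam, Seg.pt, dir] at h1 ⊢
  · simp [gam, Seg.pt, dir] at h1 ⊢
    left; linarith

theorem alp_pt (hr : 0 < r) (hd1 : d ≤ 1) (i : Fin 3) {x : ℝ} (h1 : (alp r d i).a ≤ x)
    (h2 : x ≤ (alp r d i).b) : -1 - r ≤ ((alp r d i).pt x).re ∧ ((alp r d i).pt x).re ≤ 1 - d ∧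
      |((alp r d i).pt x).im| ≤ r := by
  fin_cases i
  · simp [alp, Seg.pt] at h1 h2 ⊢
    exact ⟨h1, h2, (abs_of_pos hr).le⟩
  · simp [alp, Seg.pt] at h1 h2 ⊢
    exact ⟨by linarith, abs_le.2 ⟨h1, h2⟩⟩
  · simp [alp, Seg.pt] at h1 h2 ⊢
    exact ⟨h1, h2, (abs_of_pos hr).le⟩

theorem ell_pt {x : ℝ} (h1 : (ell r d).a ≤ x) (h2 : x ≤ (ell r d).b) :
    ((ell r d).pt x).re = 1 - d ∧ |((ell r d).pt x).im| ≤ r := by
  simp [ell, Seg.pt] at h1 h2 ⊢
  exact abs_le.2 ⟨h1, h2⟩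

/-- the full contour -/
noncomputable def tot (r d : ℝ) : Fin 3 ⊕ Fin 3 → Seg := Sum.elim (alp r d) (gam r d)

theorem tot_le (hr : 0 < r) (hd : 0 < d) (hd1 : d ≤ 1) (i : Fin 3 ⊕ Fin 3) :
    (tot r d i).a ≤ (tot r d i).b := by
  rcases i with i | i
  · exact alp_le hr hd1 i
  · exact gam_le hr hd i

/-- distance of the full contour from the support -/
theorem tot_dist {ρ : ℝ} (i : Fin 3 ⊕ Fin 3) (x : ℝ) {w : ℂ}
    (h1 : |w.re| ≤ 1 + ρ) (h2 : |w.im| ≤ ρ) : r - ρ ≤ ‖(tot r d i).pt x - w‖ := by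
  have a1 := (abs_le.1 h1)
  have a2 := (abs_le.1 h2)
  have hre := Complex.abs_re_le_norm ((tot r d i).pt x - w)
  have him := Complex.abs_im_le_norm ((tot r d i).pt x - w)
  have hre1 := (abs_le.1 hre)
  have him1 := (abs_le.1 him)
  rw [sub_re] at hre1
  rw [sub_im] at him1
  rcases i with i | i
  · fin_cases i
    · simp [tot, alp, Seg.pt] at hre1 him1 ⊢; linarith
    · simp [tot, alp, Seg.pt] at hre1 him1 ⊢; linarith
    · simp [tot, alp, Seg.pt] at hre1 him1 ⊢; linarith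
  · fin_cases i
    · simp [tot, gam, Seg.pt] at hre1 him1 ⊢; linarith
    · simp [tot, gam, Seg.pt] at hre1 him1 ⊢; linarith
    · simp [tot, gam, Seg.pt] at hre1 him1 ⊢; linarith

/-- Cauchy formula for the full contour -/
theorem tot_cauchy {ρ : ℝ} (hρ : ρ < r) {g : ℂ → ℂ} (hg : Differentiable ℂ g) {w : ℂ}
    (h1 : |w.re| ≤ 1 + ρ) (h2 : |w.im| ≤ ρ) :
    ∑ i, (tot r d i).int (fun z => (z - w)⁻¹ * g z) = 2 * Real.pi * I * g w := by
  have a1 := (abs_le.1 h1)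
  have a2 := (abs_le.1 h2)
  rw [← rect_cauchy (x₀ := -1 - r) (x₁ := 1 + r) (y₀ := -r) (y₁ := r) hg (w := w) (by linarith)
    (by linarith) (by linarith) (by linarith)]
  rw [Fintype.sum_sum_type, Fin.sum_univ_three, Fin.sum_univ_three]
  simp only [tot, Sum.elim_inl, Sum.elim_inr, alp, gam, Matrix.cons_val_zero, Matrix.cons_val_one,
    Matrix.cons_val, Seg.int, Seg.pt]
  have hb : Continuous fun x : ℝ => ((-(r * I) + x * 1 : ℂ) - w)⁻¹ * g (-(r * I) + x * 1) := by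
    refine (Continuous.inv₀ (by fun_prop) ?_).mul (hg.continuous.comp (by fun_prop))
    intro x h
    have := congrArg Complex.im h; simp at this; linarith
  have ht : Continuous fun x : ℝ => ((r * I + x * 1 : ℂ) - w)⁻¹ * g (r * I + x * 1) := by
    refine (Continuous.inv₀ (by fun_prop) ?_).mul (hg.continuous.comp (by fun_prop))
    intro x h
    have := congrArg Complex.im h; simp at this; linarith
  have e1 := intervalIntegral.integral_add_adjacent_intervals (μ := volume)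
    (hb.intervalIntegrable (-1 - r) (1 - d)) (hb.intervalIntegrable (1 - d) (1 + r))
  have e2 := intervalIntegral.integral_add_adjacent_intervals (μ := volume)
    (ht.intervalIntegrable (-1 - r) (1 - d)) (ht.intervalIntegrable (1 - d) (1 + r))
  unfold rect
  have f1 : (∫ x in (-1 - r)..(1 + r), ((x : ℂ) + ((-r : ℝ) : ℂ) * I - w)⁻¹ *
      g (x + ((-r : ℝ) : ℂ) * I)) =
      ∫ x in (-1 - r)..(1 + r), ((-(r * I) + x * 1 : ℂ) - w)⁻¹ * g (-(r * I) + x * 1) := by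
    apply intervalIntegral.integral_congr
    intro x _
    simp only
    have : (x : ℂ) + ((-r : ℝ) : ℂ) * I = -(r * I) + x * 1 := by push_cast; ring
    rw [this]
  have f2 : (∫ x in (-1 - r)..(1 + r), ((x : ℂ) + (r : ℂ) * I - w)⁻¹ * g (x + (r : ℂ) * I)) =
      ∫ x in (-1 - r)..(1 + r), ((r * I + x * 1 : ℂ) - w)⁻¹ * g (r * I + x * 1) := by
    apply intervalIntegral.integral_congr
    intro x _
    simp only
    have : (x : ℂ) + (r : ℂ) * I = r * I + x * 1 := by ring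
    rw [this]
  rw [f1, f2, ← e1, ← e2]
  simp only [smul_eq_mul]
  push_cast
  ring

/-- Cauchy's theorem for the right rectangle -/
theorem gam_ell (hr : 0 < r) (hd : 0 < d) {g : ℂ → ℂ}
    (hg : ∀ z : ℂ, 1 - d ≤ z.re → z.re ≤ 1 + r → |z.im| ≤ r → DifferentiableAt ℂ g z) :
    ∑ i, (gam r d i).int g = (ell r d).int g := by
  have h := integral_boundary_rect_eq_zero_of_differentiableOn g (⟨1 - d, -r⟩ : ℂ) (⟨1 + r, r⟩ : ℂ)
    (by
      intro z hz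
      rw [uIcc_of_le (by simp; linarith), uIcc_of_le (by simp; linarith)] at hz
      obtain ⟨h1, h2⟩ := hz
      exact (hg z h1.1 h1.2 (abs_le.2 ⟨h2.1, h2.2⟩)).differentiableWithinAt)
  simp only at h
  rw [Fin.sum_univ_three]
  simp only [gam, ell, Matrix.cons_val_zero, Matrix.cons_val_one,
    Matrix.cons_val, Seg.int, Seg.pt]
  have f1 : (∫ x in (1 - d)..(1 + r), g (x + ((-r : ℝ) : ℂ) * I)) =
      ∫ x in (1 - d)..(1 + r), g (-(r * I) + x * 1) := by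
    apply intervalIntegral.integral_congr
    intro x _
    simp only
    congr 1
    push_cast; ring
  have f2 : (∫ x in (1 - d)..(1 + r), g (x + (r : ℂ) * I)) =
      ∫ x in (1 - d)..(1 + r), g (r * I + x * 1) := by
    apply intervalIntegral.integral_congr
    intro x _
    simp only
    congr 1
    ring
  have f3 : (∫ y in (-r)..r, g (((1 + r : ℝ) : ℂ) + y * I)) = ∫ y in (-r)..r, g (1 + r + y * I) := by
    push_cast; rfl
  have f4 : (∫ y in (-r)..r, g (((1 - d : ℝ) : ℂ) + y * I)) = ∫ y in (-r)..r, g (1 - d + y * I) := by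
    push_cast; rfl
  rw [f1, f2, f3, f4] at h
  simp only [smul_eq_mul] at h ⊢
  linear_combination h

end geom

theorem D_congr {X : Type*} [NormedAddCommGroup X] [NormedSpace ℂ X] {s t : Seg} (hs : s.a ≤ s.b)
    (ht : t.a ≤ t.b) {G G' : ℂ → ℂ → X}
    (h : ∀ x y, G (s.ptc x) (t.ptc y) = G' (s.ptc x) (t.ptc y)) : D s t G = D s t G' := by
  rw [D_eq hs ht, D_eq hs ht]
  simp only [h]

theorem int_congr {X : Type*} [NormedAddCommGroup X] [NormedSpace ℂ X] {s : Seg} (hs : s.a ≤ s.b)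
    {g g' : ℂ → X} (h : ∀ x, g (s.ptc x) = g' (s.ptc x)) : s.int g = s.int g' := by
  rw [Seg.int_eq hs, Seg.int_eq hs]
  simp only [h]

section estimate

variable {κ r ρ : ℝ} (μ : C(K, ℂ) →L[ℂ] ℂ) (W₁ W₂ : C(K, ℂ))

/-- parameters -/
structure Par (κ r d q : ℝ) : Prop where
  hκ : 0 < κ
  hκ1 : κ ≤ 1
  hr : 0 < r
  hd : d = κ / 8
  hq : q * r = 2 * d
  hq0 : 0 ≤ q

variable {d q : ℝ}

theorem Par.hd0 (h : Par κ r d q) : 0 < d := by have := h.hκ; rw [h.hd]; linarith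

theorem Par.hd1 (h : Par κ r d q) : d ≤ 1 := by have := h.hκ1; rw [h.hd]; linarith

theorem Par.one_lt (h : Par κ r d q) : 1 < min (1 + d) (1 + r) :=
  lt_min (by linarith [h.hd0]) (by linarith [h.hr])

theorem region (h : Par κ r d q) (j : Fin 3) {z₁ z₂ : ℂ} (h1 : 1 - d ≤ z₁.re) (h2 : |z₁.im| ≤ r)
    (h3 : 1 < (dir q j * z₂).re) : 2 - κ < (dir q j * (z₁ + z₂)).re := by
  rw [mul_add, add_re]
  have := le_dir_mul_re h.hq0 j h1 h2
  rw [h.hq] at this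
  have h4 := h.hd
  have := h.hκ
  linarith

theorem gam_ptc (h : Par κ r d q) (i : Fin 3) (x : ℝ) :
    1 - d ≤ ((gam r d i).ptc x).re ∧ ((gam r d i).ptc x).re ≤ 1 + r ∧
      |((gam r d i).ptc x).im| ≤ r ∧ min (1 + d) (1 + r) ≤ (dir q i * (gam r d i).ptc x).re := by
  obtain ⟨y, h1, h2, h3⟩ := Seg.exists_ptc (gam_le h.hr h.hd0 i) x
  rw [h3]
  obtain ⟨g1, g2, g3⟩ := gam_pt h.hr h.hd0 i h1 h2
  exact ⟨g1, g2, g3, gam_far h.hq i h1⟩

theorem ell_ptc (h : Par κ r d q) (x : ℝ) :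
    ((ell r d).ptc x).re = 1 - d ∧ |((ell r d).ptc x).im| ≤ r := by
  obtain ⟨y, h1, h2, h3⟩ := Seg.exists_ptc (ell_le (d := d) h.hr) x
  rw [h3]
  exact ell_pt h1 h2

variable {μ W₁ W₂}

theorem cont_B1 (h : Par κ r d q) (hg : Grow (FB μ W₁ W₂) κ) (j : Fin 3) {A : Type*}
    [TopologicalSpace A] {p₁ p₂ : A → ℂ} (hp₁ : Continuous p₁) (hp₂ : Continuous p₂)
    (h1 : ∀ x, 1 - d ≤ (p₁ x).re) (h2 : ∀ x, |(p₁ x).im| ≤ r)
    (h3 : ∀ x, 1 < (dir q j * p₂ x).re) :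
    Continuous fun x => B1 (FB μ W₁ W₂) (dir q j) (p₁ x, p₂ x) := by
  rw [continuous_iff_continuousAt]
  intro x
  have := (differentiableAt_B1 (z := (p₁ x, p₂ x)) (continuous_FB μ W₁ W₂) hg (dir_re q j)
    (region h j (h1 x) (h2 x) (h3 x)) (h3 x)).continuousAt
  exact ContinuousAt.comp (f := fun x => (p₁ x, p₂ x)) this (hp₁.prodMk hp₂).continuousAt

theorem cont_B2 (h : Par κ r d q) (hg : Grow (FB μ W₁ W₂) κ) (j : Fin 3) {A : Type*}
    [TopologicalSpace A] {p₁ p₂ : A → ℂ} (hp₁ : Continuous p₁) (hp₂ : Continuous p₂)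
    (h1 : ∀ x, 1 - d ≤ (p₂ x).re) (h2 : ∀ x, |(p₂ x).im| ≤ r)
    (h3 : ∀ x, 1 < (dir q j * p₁ x).re) :
    Continuous fun x => B2 (FB μ W₁ W₂) (dir q j) (p₁ x, p₂ x) := by
  rw [continuous_iff_continuousAt]
  intro x
  have := (differentiableAt_B2 (z := (p₁ x, p₂ x)) (continuous_FB μ W₁ W₂) hg (dir_re q j)
    (by have := region h j (h1 x) (h2 x) (h3 x)
        rwa [add_comm] at this) (h3 x)).continuousAt
  exact ContinuousAt.comp (f := fun x => (p₁ x, p₂ x)) this (hp₁.prodMk hp₂).continuousAt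

/-- The local piece near the vertex can be pushed to the cut. -/
theorem gg (h : Par κ r d q) (hg : Grow (FB μ W₁ W₂) κ) (hρ0 : 0 < ρ)
    (hρ : ρ * (1 + q) ≤ min d r / 2) (h1r : ∀ w, |(W₁ w).re| ≤ 1 + ρ) (h1i : ∀ w, |(W₁ w).im| ≤ ρ)
    (h2r : ∀ w, |(W₂ w).re| ≤ 1 + ρ) (h2i : ∀ w, |(W₂ w).im| ≤ ρ) {f : ℂ × ℂ → ℂ}
    (hf : Differentiable ℂ f) :
    ∑ i, ∑ j, (D (gam r d i) (gam r d j) fun z₁ z₂ => f (z₁, z₂) * μ (rs W₁ z₁ * rs W₂ z₂)) =
      ∑ j, (D (gam r d j) (ell r d) fun z₂ z₁ =>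
        f (z₁, z₂) * B1 (FB μ W₁ W₂) (dir q j) (z₁, z₂)) +
      ∑ i, (D (gam r d i) (ell r d) fun z₁ z₂ =>
        f (z₁, z₂) * B2 (FB μ W₁ W₂) (dir q i) (z₁, z₂)) := by
  have hgl := fun i => gam_le (r := r) h.hr h.hd0 i
  have hel := ell_le (d := d) h.hr
  have hone := h.one_lt
  have hmin0 : 0 < min d r := lt_min h.hd0 h.hr
  have hmin : 1 + min d r = min (1 + d) (1 + r) := by
    rcases le_total d r with h' | h'
    · rw [min_eq_left h', min_eq_left (by linarith)]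
    · rw [min_eq_right h', min_eq_right (by linarith)]
  have hρr : ρ < r := by
    have := min_le_right d r
    have := h.hr
    have := mul_nonneg hρ0.le h.hq0
    linarith
  -- the splitting on `gam × gam`
  have hsplit : ∀ i j x y, μ (rs W₁ ((gam r d i).ptc x) * rs W₂ ((gam r d j).ptc y)) =
      B1 (FB μ W₁ W₂) (dir q j) ((gam r d i).ptc x, (gam r d j).ptc y) +
      B2 (FB μ W₁ W₂) (dir q i) ((gam r d i).ptc x, (gam r d j).ptc y) := by
    intro i j x y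
    obtain ⟨a1, a2, a3, a4⟩ := gam_ptc h i x
    obtain ⟨b1, b2, b3, b4⟩ := gam_ptc h j y
    have hd1 : ∀ w, (gam r d i).ptc x - W₁ w ≠ 0 := by
      intro w hw
      have h' : ‖(gam r d i).ptc x - W₁ w‖ = 0 := by rw [hw, norm_zero]
      have h'' : r - ρ ≤ ‖(gam r d i).ptc x - W₁ w‖ := tot_dist (Sum.inr i) _ (h1r w) (h1i w)
      linarith
    have hd2 : ∀ w, (gam r d j).ptc y - W₂ w ≠ 0 := by
      intro w hw
      have h' : ‖(gam r d j).ptc y - W₂ w‖ = 0 := by rw [hw, norm_zero]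
      have h'' : r - ρ ≤ ‖(gam r d j).ptc y - W₂ w‖ := tot_dist (Sum.inr j) _ (h2r w) (h2i w)
      linarith
    have hb : ∀ (i : Fin 3) (W : C(K, ℂ)), (∀ w, |(W w).re| ≤ 1 + ρ) → (∀ w, |(W w).im| ≤ ρ) →
        ∀ w, (dir q i * W w).re ≤ 1 + ρ * (1 + q) := by
      intro i W hr hi w
      have := dir_mul_re_le h.hq0 i (abs_le.1 (hr w)).2 (hi w)
      linarith
    refine split μ W₁ W₂ h.hκ hg (dir_re q i) (dir_re q j) (a := 1 + ρ * (1 + q)) ?_
      (hb i W₁ h1r h1i) (hb i W₂ h2r h2i) (hb j W₁ h1r h1i) (hb j W₂ h2r h2i)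
      (z := ((gam r d i).ptc x, (gam r d j).ptc y)) ?_ ?_ ?_ ?_ _ ?_
    · have := mul_nonneg hρ0.le (show 0 ≤ 1 + q by linarith [h.hq0])
      linarith
    · show 1 + ρ * (1 + q) < (dir q i * (gam r d i).ptc x).re
      linarith
    · show 1 + ρ * (1 + q) < (dir q j * (gam r d j).ptc y).re
      linarith
    · show 2 - κ < (dir q i * ((gam r d i).ptc x + (gam r d j).ptc y)).re
      rw [add_comm]
      exact region h i b1 b3 (by linarith)
    · exact region h j a1 a3 (by linarith)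
    · intro w
      show rs W₁ ((gam r d i).ptc x) w * rs W₂ ((gam r d j).ptc y) w = _
      rw [rs_apply W₁ hd1, rs_apply W₂ hd2]
  have hcf : ∀ s t : Seg, Continuous fun q : ℝ × ℝ => f (s.ptc q.1, t.ptc q.2) := by
    intro s t
    exact hf.continuous.comp ((s.continuous_ptc.comp continuous_fst).prodMk
      (t.continuous_ptc.comp continuous_snd))
  have hCC1 : ∀ i j, CC (gam r d i) (gam r d j) fun z₁ z₂ =>
      f (z₁, z₂) * B1 (FB μ W₁ W₂) (dir q j) (z₁, z₂) := by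
    intro i j
    refine (hcf _ _).mul (cont_B1 h hg j ((gam r d i).continuous_ptc.comp continuous_fst)
      ((gam r d j).continuous_ptc.comp continuous_snd) (fun x => (gam_ptc h i _).1)
      (fun x => (gam_ptc h i _).2.2.1) fun x => ?_)
    have := (gam_ptc h j x.2).2.2.2
    show 1 < _
    linarith
  have hCC2 : ∀ i j, CC (gam r d i) (gam r d j) fun z₁ z₂ =>
      f (z₁, z₂) * B2 (FB μ W₁ W₂) (dir q i) (z₁, z₂) := by
    intro i j
    refine (hcf _ _).mul (cont_B2 h hg i ((gam r d i).continuous_ptc.comp continuous_fst)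
      ((gam r d j).continuous_ptc.comp continuous_snd) (fun x => (gam_ptc h j _).1)
      (fun x => (gam_ptc h j _).2.2.1) fun x => ?_)
    have := (gam_ptc h i x.1).2.2.2
    show 1 < _
    linarith
  have e1 : ∀ i j, (D (gam r d i) (gam r d j) fun z₁ z₂ =>
      f (z₁, z₂) * μ (rs W₁ z₁ * rs W₂ z₂)) =
      D (gam r d i) (gam r d j) (fun z₁ z₂ =>
        f (z₁, z₂) * B1 (FB μ W₁ W₂) (dir q j) (z₁, z₂)) +
      D (gam r d i) (gam r d j) (fun z₁ z₂ =>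
        f (z₁, z₂) * B2 (FB μ W₁ W₂) (dir q i) (z₁, z₂)) := by
    intro i j
    rw [← D_add (hgl i) (hgl j) (hCC1 i j) (hCC2 i j)]
    apply D_congr (hgl i) (hgl j)
    intro x y
    rw [hsplit, mul_add]
  simp only [e1, Finset.sum_add_distrib]
  congr 1
  · rw [Finset.sum_comm]
    refine Finset.sum_congr rfl fun j _ => ?_
    have e2 : ∀ i, (D (gam r d i) (gam r d j) fun z₁ z₂ =>
        f (z₁, z₂) * B1 (FB μ W₁ W₂) (dir q j) (z₁, z₂)) =
        D (gam r d j) (gam r d i) fun z₂ z₁ =>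
          f (z₁, z₂) * B1 (FB μ W₁ W₂) (dir q j) (z₁, z₂) :=
      fun i => D_swap (hgl i) (hgl j) (hCC1 i j)
    simp only [e2]
    rw [sum_D (hgl j) hgl]
    · rw [D]
      apply int_congr (hgl j)
      intro y
      obtain ⟨b1, b2, b3, b4⟩ := gam_ptc h j y
      apply gam_ell h.hr h.hd0
      intro z hz1 hz2 hz3
      have hp : DifferentiableAt ℂ (fun z : ℂ => ((z, (gam r d j).ptc y) : ℂ × ℂ)) z := by
        fun_prop
      apply DifferentiableAt.mul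
      · exact (hf _).comp z hp
      · exact DifferentiableAt.comp z (f := fun z : ℂ => ((z, (gam r d j).ptc y) : ℂ × ℂ))
          (differentiableAt_B1 (z := (z, (gam r d j).ptc y)) (continuous_FB μ W₁ W₂) hg
            (dir_re q j) (region h j hz1 hz3 (by linarith))
            (show 1 < (dir q j * (gam r d j).ptc y).re by linarith)) hp
    · intro i
      exact (hCC1 i j).comp continuous_swap
  · refine Finset.sum_congr rfl fun i _ => ?_
    rw [sum_D (hgl i) hgl]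
    · rw [D]
      apply int_congr (hgl i)
      intro x
      obtain ⟨b1, b2, b3, b4⟩ := gam_ptc h i x
      apply gam_ell h.hr h.hd0
      intro z hz1 hz2 hz3
      have hp : DifferentiableAt ℂ (fun z : ℂ => (((gam r d i).ptc x, z) : ℂ × ℂ)) z := by
        fun_prop
      apply DifferentiableAt.mul
      · exact (hf _).comp z hp
      · exact DifferentiableAt.comp z (f := fun z : ℂ => (((gam r d i).ptc x, z) : ℂ × ℂ))
          (differentiableAt_B2 (z := ((gam r d i).ptc x, z)) (continuous_FB μ W₁ W₂) hg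
            (dir_re q i) (by
              have := region h i hz1 hz3 (z₂ := (gam r d i).ptc x) (by linarith)
              rwa [add_comm] at this)
            (show 1 < (dir q i * (gam r d i).ptc x).re by linarith)) hp
    · intro j
      exact hCC2 i j

/-- The closed neighbourhood of the cut square. -/
def N (r d : ℝ) : Set (ℂ × ℂ) := {z | |z.1.im| ≤ r ∧ |z.2.im| ≤ r ∧ |z.1.re| ≤ 1 + r ∧
  |z.2.re| ≤ 1 + r ∧ (z.1.re ≤ 1 - d ∨ z.2.re ≤ 1 - d)}

/-- boundedness of a functional by the supremum over `N` -/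
def Bd (r d : ℝ) (Ψ : (ℂ × ℂ → ℂ) → ℂ) : Prop := ∃ C : ℝ, ∀ f : ℂ × ℂ → ℂ, ∀ M : ℝ,
  (∀ z ∈ N r d, ‖f z‖ ≤ M) → ‖Ψ f‖ ≤ C * M

theorem Bd.add {Ψ Ψ' : (ℂ × ℂ → ℂ) → ℂ} (h : Bd r d Ψ) (h' : Bd r d Ψ') :
    Bd r d fun f => Ψ f + Ψ' f := by
  obtain ⟨C, hC⟩ := h
  obtain ⟨C', hC'⟩ := h'
  refine ⟨C + C', fun f M hM => ?_⟩
  calc ‖Ψ f + Ψ' f‖ ≤ ‖Ψ f‖ + ‖Ψ' f‖ := norm_add_le _ _
    _ ≤ (C + C') * M := by rw [add_mul]; exact add_le_add (hC f M hM) (hC' f M hM)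

theorem Bd.sum {ι : Type*} (s : Finset ι) {Ψ : ι → (ℂ × ℂ → ℂ) → ℂ} (h : ∀ i, Bd r d (Ψ i)) :
    Bd r d fun f => ∑ i ∈ s, Ψ i f := by
  classical
  choose C hC using h
  refine ⟨∑ i ∈ s, C i, fun f M hM => ?_⟩
  rw [Finset.sum_mul]
  exact (norm_sum_le _ _).trans (Finset.sum_le_sum fun i _ => hC i f M hM)

theorem bd_D {s t : Seg} (hs : s.a ≤ s.b) (ht : t.a ≤ t.b) {b : ℂ → ℂ → ℂ} {B : ℝ}
    (hB : ∀ x y, s.a ≤ x → x ≤ s.b → t.a ≤ y → y ≤ t.b → ‖b (s.pt x) (t.pt y)‖ ≤ B)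
    (hN : ∀ x y, s.a ≤ x → x ≤ s.b → t.a ≤ y → y ≤ t.b → (s.pt x, t.pt y) ∈ N r d) :
    Bd r d fun f => D s t fun z₁ z₂ => f (z₁, z₂) * b z₁ z₂ := by
  refine ⟨‖s.ω‖ * ((s.b - s.a) * (‖t.ω‖ * ((t.b - t.a) * B))), fun f M hM => ?_⟩
  refine (norm_D_le hs ht (M := M * B) fun x y h1 h2 h3 h4 => ?_).trans (le_of_eq (by ring))
  rw [norm_mul]
  have := hM _ (hN x y h1 h2 h3 h4)
  exact mul_le_mul this (hB x y h1 h2 h3 h4) (norm_nonneg _) ((norm_nonneg _).trans this)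

theorem bd_D' {s t : Seg} (hs : s.a ≤ s.b) (ht : t.a ≤ t.b) {b : ℂ → ℂ → ℂ} {B : ℝ}
    (hB : ∀ x y, s.a ≤ x → x ≤ s.b → t.a ≤ y → y ≤ t.b → ‖b (s.pt x) (t.pt y)‖ ≤ B)
    (hN : ∀ x y, s.a ≤ x → x ≤ s.b → t.a ≤ y → y ≤ t.b → (t.pt y, s.pt x) ∈ N r d) :
    Bd r d fun f => D s t fun z₂ z₁ => f (z₁, z₂) * b z₂ z₁ := by
  refine ⟨‖s.ω‖ * ((s.b - s.a) * (‖t.ω‖ * ((t.b - t.a) * B))), fun f M hM => ?_⟩
  refine (norm_D_le hs ht (M := M * B) fun x y h1 h2 h3 h4 => ?_).trans (le_of_eq (by ring))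
  rw [norm_mul]
  have := hM _ (hN x y h1 h2 h3 h4)
  exact mul_le_mul this (hB x y h1 h2 h3 h4) (norm_nonneg _) ((norm_nonneg _).trans this)

theorem exists_bound {s t : Seg} (hs : s.a ≤ s.b) (ht : t.a ≤ t.b) {b : ℂ → ℂ → ℂ}
    (hb : CC s t b) : ∃ B, ∀ x y, s.a ≤ x → x ≤ s.b → t.a ≤ y → y ≤ t.b →
      ‖b (s.pt x) (t.pt y)‖ ≤ B := by
  have hc : IsCompact (Icc s.a s.b ×ˢ Icc t.a t.b) := isCompact_Icc.prod isCompact_Icc
  obtain ⟨B, hB⟩ := hc.exists_bound_of_continuousOn (Continuous.continuousOn hb)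
  refine ⟨B, fun x y h1 h2 h3 h4 => ?_⟩
  have := hB (x, y) ⟨⟨h1, h2⟩, ⟨h3, h4⟩⟩
  simp only [Seg.ptc] at this
  rwa [min_eq_right h2, max_eq_right h1, min_eq_right h4, max_eq_right h3] at this

/-- **Main estimate.** -/
theorem main_estimate (h : Par κ r d q) (hg : Grow (FB μ W₁ W₂) κ) (hρ0 : 0 < ρ)
    (hρ : ρ * (1 + q) ≤ min d r / 2) (h1r : ∀ w, |(W₁ w).re| ≤ 1 + ρ) (h1i : ∀ w, |(W₁ w).im| ≤ ρ)
    (h2r : ∀ w, |(W₂ w).re| ≤ 1 + ρ) (h2i : ∀ w, |(W₂ w).im| ≤ ρ) :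
    ∃ C : ℝ, ∀ f : ℂ × ℂ → ℂ, Differentiable ℂ f → ∀ M : ℝ, (∀ z ∈ N r d, ‖f z‖ ≤ M) →
      ∀ c : C(K, ℂ), (∀ w, c w = f (W₁ w, W₂ w)) → ‖μ c‖ ≤ C * M := by
  have hgl := fun i => gam_le (r := r) h.hr h.hd0 i
  have hal := fun i => alp_le (r := r) h.hr h.hd1 i
  have hel := ell_le (d := d) h.hr
  have hone := h.one_lt
  have hd0 := h.hd0
  have hd1 := h.hd1
  have hr := h.hr
  have hρr : ρ < r := by
    have := min_le_right d r
    have := h.hr
    have := mul_nonneg hρ0.le h.hq0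
    linarith
  have hdist1 : ∀ i x w, r - ρ ≤ ‖(tot r d i).pt x - W₁ w‖ := fun i x w =>
    tot_dist i x (h1r w) (h1i w)
  have hdist2 : ∀ i x w, r - ρ ≤ ‖(tot r d i).pt x - W₂ w‖ := fun i x w =>
    tot_dist i x (h2r w) (h2i w)
  have hne1 : ∀ i x w, (tot r d i).pt x - W₁ w ≠ 0 := by
    intro i x w hw
    have := hdist1 i x w
    rw [hw, norm_zero] at this
    linarith
  have hne2 : ∀ i x w, (tot r d i).pt x - W₂ w ≠ 0 := by
    intro i x w hw
    have := hdist2 i x w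
    rw [hw, norm_zero] at this
    linarith
  -- bound for the kernel on the contours
  have hker : ∀ i j x y, ‖μ (rs W₁ ((tot r d i).pt x) * rs W₂ ((tot r d j).pt y))‖ ≤
      ‖μ‖ * ((r - ρ)⁻¹ * (r - ρ)⁻¹) := by
    intro i j x y
    refine (μ.le_opNorm _).trans (mul_le_mul_of_nonneg_left ?_ (norm_nonneg _))
    refine (norm_mul_le _ _).trans ?_
    have hpos : 0 < r - ρ := by linarith
    exact mul_le_mul (norm_rs_le W₁ hpos (hdist1 i x)) (norm_rs_le W₂ hpos (hdist2 j y))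
      (norm_nonneg _) (by positivity)
  have habs : ∀ {z : ℂ}, -1 - r ≤ z.re → z.re ≤ 1 + r → |z.re| ≤ 1 + r := by
    intro z h1 h2
    exact abs_le.2 ⟨by linarith, h2⟩
  have hAA : ∀ i j, Bd r d fun f => D (alp r d i) (alp r d j) fun z₁ z₂ =>
      f (z₁, z₂) * μ (rs W₁ z₁ * rs W₂ z₂) := by
    intro i j
    refine bd_D (hal i) (hal j) (B := ‖μ‖ * ((r - ρ)⁻¹ * (r - ρ)⁻¹))
      (fun x y _ _ _ _ => hker (Sum.inl i) (Sum.inl j) x y) fun x y h1 h2 h3 h4 => ?_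
    obtain ⟨a1, a2, a3⟩ := alp_pt hr hd1 i h1 h2
    obtain ⟨b1, b2, b3⟩ := alp_pt hr hd1 j h3 h4
    exact ⟨a3, b3, habs a1 (by linarith), habs b1 (by linarith), Or.inl a2⟩
  have hAG : ∀ i j, Bd r d fun f => D (alp r d i) (gam r d j) fun z₁ z₂ =>
      f (z₁, z₂) * μ (rs W₁ z₁ * rs W₂ z₂) := by
    intro i j
    refine bd_D (hal i) (hgl j) (B := ‖μ‖ * ((r - ρ)⁻¹ * (r - ρ)⁻¹))
      (fun x y _ _ _ _ => hker (Sum.inl i) (Sum.inr j) x y) fun x y h1 h2 h3 h4 => ?_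
    obtain ⟨a1, a2, a3⟩ := alp_pt hr hd1 i h1 h2
    obtain ⟨b1, b2, b3⟩ := gam_pt hr hd0 j h3 h4
    exact ⟨a3, b3, habs a1 (by linarith), habs (by linarith) (by linarith), Or.inl a2⟩
  have hGA : ∀ i j, Bd r d fun f => D (gam r d i) (alp r d j) fun z₁ z₂ =>
      f (z₁, z₂) * μ (rs W₁ z₁ * rs W₂ z₂) := by
    intro i j
    refine bd_D (hgl i) (hal j) (B := ‖μ‖ * ((r - ρ)⁻¹ * (r - ρ)⁻¹))
      (fun x y _ _ _ _ => hker (Sum.inr i) (Sum.inl j) x y) fun x y h1 h2 h3 h4 => ?_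
    obtain ⟨a1, a2, a3⟩ := gam_pt hr hd0 i h1 h2
    obtain ⟨b1, b2, b3⟩ := alp_pt hr hd1 j h3 h4
    exact ⟨a3, b3, habs (by linarith) (by linarith), habs b1 (by linarith), Or.inr b2⟩
  have hG1 : ∀ j, Bd r d fun f => D (gam r d j) (ell r d) fun z₂ z₁ =>
      f (z₁, z₂) * B1 (FB μ W₁ W₂) (dir q j) (z₁, z₂) := by
    intro j
    have hc : CC (gam r d j) (ell r d) fun z₂ z₁ => B1 (FB μ W₁ W₂) (dir q j) (z₁, z₂) := by
      refine cont_B1 h hg j ((ell r d).continuous_ptc.comp continuous_snd)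
        ((gam r d j).continuous_ptc.comp continuous_fst) (fun x => (ell_ptc h _).1.ge)
        (fun x => (ell_ptc h _).2) fun x => ?_
      have := (gam_ptc h j x.1).2.2.2
      show 1 < _
      linarith
    obtain ⟨B, hB⟩ := exists_bound (hgl j) hel hc
    refine bd_D' (hgl j) hel hB fun x y h1 h2 h3 h4 => ?_
    obtain ⟨a1, a2, a3⟩ := gam_pt hr hd0 j h1 h2
    obtain ⟨b1, b2⟩ := ell_pt h3 h4
    exact ⟨b2, a3, habs (by linarith) (by linarith), habs (by linarith) (by linarith),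
      Or.inl b1.le⟩
  have hG2 : ∀ i, Bd r d fun f => D (gam r d i) (ell r d) fun z₁ z₂ =>
      f (z₁, z₂) * B2 (FB μ W₁ W₂) (dir q i) (z₁, z₂) := by
    intro i
    have hc : CC (gam r d i) (ell r d) fun z₁ z₂ => B2 (FB μ W₁ W₂) (dir q i) (z₁, z₂) := by
      refine cont_B2 h hg i ((gam r d i).continuous_ptc.comp continuous_fst)
        ((ell r d).continuous_ptc.comp continuous_snd) (fun x => (ell_ptc h _).1.ge)
        (fun x => (ell_ptc h _).2) fun x => ?_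
      have := (gam_ptc h i x.1).2.2.2
      show 1 < _
      linarith
    obtain ⟨B, hB⟩ := exists_bound (hgl i) hel hc
    refine bd_D (hgl i) hel hB fun x y h1 h2 h3 h4 => ?_
    obtain ⟨a1, a2, a3⟩ := gam_pt hr hd0 i h1 h2
    obtain ⟨b1, b2⟩ := ell_pt h3 h4
    exact ⟨a3, b2, habs (by linarith) (by linarith), habs (by linarith) (by linarith),
      Or.inr b1.le⟩
  obtain ⟨C, hC⟩ := ((((Bd.sum Finset.univ fun i => Bd.sum Finset.univ fun j => hAA i j).add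
    (Bd.sum Finset.univ fun i => Bd.sum Finset.univ fun j => hAG i j)).add
    (Bd.sum Finset.univ fun i => Bd.sum Finset.univ fun j => hGA i j)).add
    (Bd.sum Finset.univ fun j => hG1 j)).add (Bd.sum Finset.univ fun i => hG2 i)
  have hpi : (0 : ℝ) < ‖((2 * Real.pi * I) ^ 2 : ℂ)‖ := by
    apply norm_pos_iff.2
    apply pow_ne_zero
    simp [Real.pi_ne_zero]
  refine ⟨‖((2 * Real.pi * I) ^ 2 : ℂ)‖⁻¹ * C, fun f hf M hM c hc => ?_⟩
  have h2 := cauchy2 (fun i => tot_le hr hd0 hd1 i) W₁ W₂ hne1 hne2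
    (fun g hg w => tot_cauchy hρr hg (h1r w) (h1i w))
    (fun g hg w => tot_cauchy hρr hg (h2r w) (h2i w)) μ hf c hc
  rw [Fintype.sum_sum_type] at h2
  simp only [Fintype.sum_sum_type, Finset.sum_add_distrib, tot, Sum.elim_inl, Sum.elim_inr] at h2
  rw [gg h hg hρ0 hρ h1r h1i h2r h2i hf] at h2
  have h3 := hC f M hM
  beta_reduce at h3
  have h4 : (2 * Real.pi * I) ^ 2 * μ c = (∑ i, ∑ j, (D (alp r d i) (alp r d j) fun z₁ z₂ =>
      f (z₁, z₂) * μ (rs W₁ z₁ * rs W₂ z₂)) + ∑ i, ∑ j, (D (alp r d i) (gam r d j) fun z₁ z₂ =>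
      f (z₁, z₂) * μ (rs W₁ z₁ * rs W₂ z₂)) + ∑ i, ∑ j, (D (gam r d i) (alp r d j) fun z₁ z₂ =>
      f (z₁, z₂) * μ (rs W₁ z₁ * rs W₂ z₂)) + ∑ j, (D (gam r d j) (ell r d) fun z₂ z₁ =>
      f (z₁, z₂) * B1 (FB μ W₁ W₂) (dir q j) (z₁, z₂))) + ∑ i, (D (gam r d i) (ell r d) fun z₁ z₂ =>
      f (z₁, z₂) * B2 (FB μ W₁ W₂) (dir q i) (z₁, z₂)) := by
    rw [h2]; ring
  rw [← h4, norm_mul] at h3
  calc ‖μ c‖ = ‖((2 * Real.pi * I) ^ 2 : ℂ)‖⁻¹ * (‖((2 * Real.pi * I) ^ 2 : ℂ)‖ * ‖μ c‖) := by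
        rw [← mul_assoc, inv_mul_cancel₀ hpi.ne', one_mul]
    _ ≤ ‖((2 * Real.pi * I) ^ 2 : ℂ)‖⁻¹ * (C * M) :=
        mul_le_mul_of_nonneg_left h3 (by positivity)
    _ = _ := by ring

end estimate

end Pool.Agent.H810R2.CSf
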