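import Mathlib
import Pool.Agent.H810R2.CSa
import Pool.Agent.H810R2.CSf
import Pool.Agent.H810R2.CSg

/-! The real square is a unique C-support. -/

set_option autoImplicit false

open Set Filter Topology Complex Metric

namespace Pool.Agent.H810R2.CSh

open Pool.Agent.H810R2.CSg Pool.Agent.H810R2.CSc Pool.Agent.H810R2.CSf

/-- the real square -/
def sq : Set (Fin 2 → ℂ) := {z | ∀ j, (z j).im = 0 ∧ |(z j).re| ≤ 1}

/-- the cut square -/
def cut (s₁ s₂ d : ℝ) : Set (Fin 2 → ℂ) := {z | z ∈ sq ∧ s₁ * (z 0).re + s₂ * (z 1).re ≤ 2 - d}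

theorem isClosed_sq : IsClosed sq := by
  have : sq = ⋂ j, ({z : Fin 2 → ℂ | (z j).im = 0} ∩ {z : Fin 2 → ℂ | |(z j).re| ≤ 1}) := by
    ext z; simp [sq]
  rw [this]
  refine isClosed_iInter fun j => IsClosed.inter ?_ ?_
  · exact isClosed_eq (by fun_prop) (by fun_prop)
  · exact isClosed_le (by fun_prop) (by fun_prop)

theorem norm_le_of_mem_sq {z : Fin 2 → ℂ} (hz : z ∈ sq) : ‖z‖ ≤ 1 := by
  rw [pi_norm_le_iff_of_nonneg zero_le_one]
  intro j
  have := hz j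
  have h : z j = ((z j).re : ℂ) := by
    apply Complex.ext <;> simp [this.1]
  rw [h, Complex.norm_real]
  exact this.2

theorem isCompact_sq : IsCompact sq :=
  (isCompact_closedBall (0 : Fin 2 → ℂ) 1).of_isClosed_subset isClosed_sq
    fun z hz => by simpa using norm_le_of_mem_sq hz

theorem convex_sq : Convex ℝ sq := by
  intro x hx y hy a b ha hb hab j
  have h1 := hx j
  have h2 := hy j
  refine ⟨by simp [h1.1, h2.1], ?_⟩
  simp only [Pi.add_apply, Pi.smul_apply, add_re, Complex.smul_re, smul_eq_mul]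
  have h1' := abs_le.1 h1.2
  have h2' := abs_le.1 h2.2
  rw [abs_le]
  constructor
  · nlinarith
  · nlinarith

theorem isCompact_cut (s₁ s₂ d : ℝ) : IsCompact (cut s₁ s₂ d) := by
  refine isCompact_sq.of_isClosed_subset ?_ fun z hz => hz.1
  exact isClosed_sq.inter (isClosed_le (by fun_prop) (by fun_prop) :
    IsClosed {z : Fin 2 → ℂ | s₁ * (z 0).re + s₂ * (z 1).re ≤ 2 - d})

theorem convex_cut (s₁ s₂ d : ℝ) : Convex ℝ (cut s₁ s₂ d) := by
  intro x hx y hy a b ha hb hab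
  refine ⟨convex_sq hx.1 hy.1 ha hb hab, ?_⟩
  have h1 := hx.2
  have h2 := hy.2
  simp only [Pi.add_apply, Pi.smul_apply, add_re, Complex.smul_re, smul_eq_mul]
  have e1 := mul_le_mul_of_nonneg_left h1 ha
  have e2 := mul_le_mul_of_nonneg_left h2 hb
  have : 2 - d = a * (2 - d) + b * (2 - d) := by rw [← add_mul, hab, one_mul]
  rw [this]
  linarith

/-- exponentials -/
noncomputable def expE (s₁ s₂ : ℝ) (p : ℂ × ℂ) : Entire 2 :=
  ⟨⟨fun z => Complex.exp (p.1 * (s₁ * z 0) + p.2 * (s₂ * z 1)), by fun_prop⟩, by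
    show Differentiable ℂ fun z : Fin 2 → ℂ => Complex.exp (p.1 * (s₁ * z 0) + p.2 * (s₂ * z 1))
    fun_prop⟩

/-- the Fourier–Borel transform -/
noncomputable def FT (T : AnFun 2) (s₁ s₂ : ℝ) (p : ℂ × ℂ) : ℂ := T (expE s₁ s₂ p)

theorem FT_le {T : AnFun 2} {K' : Set (Fin 2 → ℂ)} {C : ℝ} (h : Est T K' C) {s₁ s₂ : ℝ}
    {p : ℂ × ℂ} {m : ℝ} (hm : ∀ z ∈ K', (p.1 * (s₁ * z 0) + p.2 * (s₂ * z 1)).re ≤ m) :
    ‖FT T s₁ s₂ p‖ ≤ Real.exp (C + m) := by
  refine (h (expE s₁ s₂ p) (Real.exp m) (Real.exp_pos _).le fun z hz => ?_).trans ?_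
  · show ‖Complex.exp (p.1 * (s₁ * z 0) + p.2 * (s₂ * z 1))‖ ≤ _
    rw [Complex.norm_exp]
    exact Real.exp_le_exp.2 (hm z hz)
  · rw [Real.exp_add]
    refine mul_le_mul_of_nonneg_right ?_ (Real.exp_pos _).le
    have := Real.add_one_le_exp C
    linarith

/-- coordinate functions on a set -/
noncomputable def Wc (K' : Set (Fin 2 → ℂ)) (s : ℝ) (j : Fin 2) : C(K', ℂ) :=
  ⟨fun z => s * z.1 j, continuous_const.mul ((continuous_apply j).comp continuous_subtype_val)⟩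

theorem FT_eq_FB {T : AnFun 2} {K' : Set (Fin 2 → ℂ)} [CompactSpace K'] {μ : C(K', ℂ) →L[ℂ] ℂ}
    (hμ : ∀ f : Entire 2, μ (rK K' f) = T f) (s₁ s₂ : ℝ) :
    FT T s₁ s₂ = FB μ (Wc K' s₁ 0) (Wc K' s₂ 1) := by
  ext p
  unfold FT FB
  rw [← hμ]
  rfl

theorem differentiable_FB {K : Type*} [TopologicalSpace K] [CompactSpace K]
    (μ : C(K, ℂ) →L[ℂ] ℂ) (W₁ W₂ : C(K, ℂ)) (p w : ℂ × ℂ) :
    Differentiable ℂ fun l : ℂ => FB μ W₁ W₂ (p + l • w) := by
  have h1 : ∀ l : ℂ, expK W₁ W₂ (p + l • w) =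
      NormedSpace.exp ((p.1 + l * w.1) • W₁ + (p.2 + l * w.2) • W₂) := by
    intro l
    rw [NormedSpace.exp_continuousMap_eq]
    ext x
    simp [expK, Complex.exp_eq_exp_ℂ]
  have h2 : Differentiable ℂ fun l : ℂ => (p.1 + l * w.1) • W₁ + (p.2 + l * w.2) • W₂ := by
    fun_prop
  have h3 : Differentiable ℂ (NormedSpace.exp : C(K, ℂ) → C(K, ℂ)) := fun x =>
    (hasFDerivAt_exp (𝕂 := ℂ)).differentiableAt
  have h4 : (fun l : ℂ => FB μ W₁ W₂ (p + l • w)) =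
      μ ∘ NormedSpace.exp ∘ fun l : ℂ => (p.1 + l * w.1) • W₁ + (p.2 + l * w.2) • W₂ := by
    ext l
    simp only [FB, Function.comp, h1]
  rw [h4]
  exact μ.differentiable.comp (h3.comp h2)

/-- open box around the real square -/
def box (η : ℝ) : Set (Fin 2 → ℂ) := {z | ∀ j, |(z j).re| < 1 + η ∧ |(z j).im| < η}

theorem isOpen_box (η : ℝ) : IsOpen (box η) := by
  have : box η = ⋂ j, ({z : Fin 2 → ℂ | |(z j).re| < 1 + η} ∩ {z : Fin 2 → ℂ | |(z j).im| < η}) := by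
    ext z; simp [box]
  rw [this]
  refine isOpen_iInter_of_finite fun j => IsOpen.inter ?_ ?_
  · exact isOpen_lt (by fun_prop) (by fun_prop)
  · exact isOpen_lt (by fun_prop) (by fun_prop)

theorem sq_subset_box {η : ℝ} (hη : 0 < η) : sq ⊆ box η := by
  intro z hz j
  obtain ⟨h1, h2⟩ := hz j
  exact ⟨by linarith, by rw [h1, abs_zero]; exact hη⟩

theorem re_mul_le {p z : ℂ} {s η : ℝ} (hs : |s| = 1) (hp : 0 ≤ p.re) (h1 : |z.re| ≤ 1 + η)
    (h2 : |z.im| ≤ η) : (p * (s * z)).re ≤ p.re + 2 * η * ‖p‖ := by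
  have hη : 0 ≤ η := (abs_nonneg _).trans h2
  have e : (p * (s * z)).re = p.re * (s * z.re) - p.im * (s * z.im) := by
    simp [mul_re, mul_im]
  rw [e]
  have a1 : p.re * (s * z.re) ≤ p.re * (1 + η) := by
    refine mul_le_mul_of_nonneg_left ?_ hp
    refine (le_abs_self _).trans ?_
    rw [abs_mul, hs, one_mul]
    exact h1
  have a2 : -(p.im * (s * z.im)) ≤ ‖p‖ * η := by
    refine (neg_le_abs _).trans ?_
    rw [abs_mul, abs_mul, hs, one_mul]
    exact mul_le_mul (Complex.abs_im_le_norm p) h2 (abs_nonneg _) (norm_nonneg _)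
  have a3 : p.re * η ≤ ‖p‖ * η :=
    mul_le_mul_of_nonneg_right ((le_abs_self _).trans (Complex.abs_re_le_norm p)) hη
  linarith

/-- growth from the carrier `sq` -/
theorem growth_sq {T : AnFun 2} (hT : IsCarrier T sq) {s₁ s₂ : ℝ} (h1 : |s₁| = 1) (h2 : |s₂| = 1) :
    ∀ ε > 0, ∃ C : ℝ, ∀ p : ℂ × ℂ, 0 ≤ p.1.re → 0 ≤ p.2.re →
      ‖FT T s₁ s₂ p‖ ≤ Real.exp (C + p.1.re + p.2.re + ε * ‖p‖) := by
  intro ε hε
  obtain ⟨K', hK', -, C, hC, hest⟩ := hT.est (isOpen_box (ε / 4)) (sq_subset_box (by positivity))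
  refine ⟨C, fun p hp1 hp2 => ?_⟩
  refine (FT_le hest (m := p.1.re + p.2.re + ε * ‖p‖) fun z hz => ?_).trans (le_of_eq (by ring_nf))
  have hz' := hK' hz
  rw [add_re]
  have a1 := re_mul_le h1 hp1 (hz' 0).1.le (hz' 0).2.le
  have a2 := re_mul_le h2 hp2 (hz' 1).1.le (hz' 1).2.le
  have b1 : ‖p.1‖ ≤ ‖p‖ := norm_fst_le p
  have b2 : ‖p.2‖ ≤ ‖p‖ := norm_snd_le p
  have c1 := mul_le_mul_of_nonneg_left b1 (by positivity : 0 ≤ 2 * (ε / 4))
  have c2 := mul_le_mul_of_nonneg_left b2 (by positivity : 0 ≤ 2 * (ε / 4))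
  linarith

theorem lin_eq (f : (Fin 2 → ℂ) →L[ℂ] ℂ) (z : Fin 2 → ℂ) :
    f z = f (Pi.single 0 1) * z 0 + f (Pi.single 1 1) * z 1 := by
  conv_lhs => rw [show z = z 0 • (Pi.single 0 1 : Fin 2 → ℂ) + z 1 • (Pi.single 1 1 : Fin 2 → ℂ) by
    ext j; fin_cases j <;> simp]
  rw [map_add, map_smul, map_smul, smul_eq_mul, smul_eq_mul]
  ring

/-- decay from another carrier -/
theorem decay {T : AnFun 2} {L : Set (Fin 2 → ℂ)} (hL : IsCarrier T L) (hc : Convex ℝ L)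
    (hn : ¬ sq ⊆ L) : ∃ s₁ s₂ : ℝ, (|s₁| = 1 ∧ |s₂| = 1) ∧ ∃ p₀ ∈ CSa.P, ∃ ρ > 0, ∃ c > 0, ∃ C₀ : ℝ,
      ∀ q : ℂ × ℂ, ‖q - p₀‖ ≤ ρ → ∀ t : ℝ, 0 ≤ t →
        ‖FT T s₁ s₂ (t • q)‖ ≤ Real.exp (C₀ + t * (q.1.re + q.2.re - c)) := by
  obtain ⟨x, hx, hxL⟩ := not_subset.1 hn
  obtain ⟨f, u, hfu, hux⟩ := RCLike.geometric_hahn_banach_closed_point (𝕜 := ℂ) hc hL.1.isClosed hxL
  simp only [RCLike.re_to_complex] at hfu hux
  obtain ⟨R, hR0, hR⟩ : ∃ R : ℝ, 0 < R ∧ ∀ z ∈ L, ‖z‖ < R := by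
    obtain ⟨R, hR⟩ := hL.1.isBounded.exists_norm_le
    exact ⟨max R 0 + 1, by positivity, fun z hz => by
      have := hR z hz
      have := le_max_left R 0
      linarith⟩
  set a := f (Pi.single 0 1) with ha
  set b := f (Pi.single 1 1) with hb
  set g := (f x).re - u with hg
  have hg0 : 0 < g := by linarith
  set δ := g / (8 * (R + 1)) with hδ
  have hδ0 : 0 < δ := by positivity
  have hδg : 8 * (R + 1) * δ = g := by rw [hδ]; field_simp
  set s₁ : ℝ := if 0 ≤ a.re then 1 else -1 with hs₁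
  set s₂ : ℝ := if 0 ≤ b.re then 1 else -1 with hs₂
  have h1 : |s₁| = 1 ∧ s₁ * s₁ = 1 ∧ s₁ * a.re = |a.re| := by
    rw [hs₁]; split_ifs with h
    · simp [abs_of_nonneg h]
    · push Not at h; simp [abs_of_neg h]
  have h2 : |s₂| = 1 ∧ s₂ * s₂ = 1 ∧ s₂ * b.re = |b.re| := by
    rw [hs₂]; split_ifs with h
    · simp [abs_of_nonneg h]
    · push Not at h; simp [abs_of_neg h]
  obtain ⟨h1a, h1b, h1c⟩ := h1
  obtain ⟨h2a, h2b, h2c⟩ := h2
  have h1b' : (s₁ : ℂ) * s₁ = 1 := by exact_mod_cast h1b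
  have h2b' : (s₂ : ℂ) * s₂ = 1 := by exact_mod_cast h2b
  -- the open set
  set ω : Set (Fin 2 → ℂ) := {z | (f z).re < u} ∩ {z | ‖z‖ < R} with hω
  have hωo : IsOpen ω := (isOpen_lt (by fun_prop) (by fun_prop)).inter
    (isOpen_lt (by fun_prop) (by fun_prop))
  obtain ⟨K', hK', -, C, hC, hest⟩ := hL.est hωo fun z hz => ⟨hfu z hz, hR z hz⟩
  refine ⟨s₁, s₂, ⟨h1a, h2a⟩, (s₁ * a + δ, s₂ * b + δ), ?_, δ, hδ0, g / 2, by positivity, C,
    fun q hq t ht => ?_⟩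
  · constructor
    · simp only [add_re, mul_re, ofReal_re, ofReal_im, zero_mul, sub_zero, h1c]
      positivity
    · simp only [add_re, mul_re, ofReal_re, ofReal_im, zero_mul, sub_zero, h2c]
      positivity
  refine FT_le hest fun z hz => ?_
  obtain ⟨hz1, hz2⟩ := hK' hz
  simp only [mem_ofPred_eq] at hz1 hz2
  -- coordinates
  have hz0 : ‖z 0‖ ≤ R := (norm_le_pi_norm z 0).trans hz2.le
  have hz1' : ‖z 1‖ ≤ R := (norm_le_pi_norm z 1).trans hz2.le
  set e₁ := q.1 - (s₁ * a + δ) with he₁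
  set e₂ := q.2 - (s₂ * b + δ) with he₂
  have hq1 : ‖e₁‖ ≤ δ := (norm_fst_le (q - (s₁ * a + δ, s₂ * b + δ))).trans hq
  have hq2 : ‖e₂‖ ≤ δ := (norm_snd_le (q - (s₁ * a + δ, s₂ * b + δ))).trans hq
  have hqe1 : q.1 = s₁ * a + δ + e₁ := by rw [he₁]; ring
  have hqe2 : q.2 = s₂ * b + δ + e₂ := by rw [he₂]; ring
  have key : ((t • q).1 * (s₁ * z 0) + (t • q).2 * (s₂ * z 1)).re =
      t * ((f z).re + ((δ + e₁) * (s₁ * z 0)).re + ((δ + e₂) * (s₂ * z 1)).re) := by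
    rw [lin_eq f z, ← ha, ← hb]
    have : (t • q).1 * (s₁ * z 0) + (t • q).2 * (s₂ * z 1) =
        (t : ℂ) * ((a * z 0 + b * z 1) + (δ + e₁) * (s₁ * z 0) + (δ + e₂) * (s₂ * z 1)) := by
      simp only [Prod.smul_fst, Prod.smul_snd, Complex.real_smul]
      rw [hqe1, hqe2]
      linear_combination (t : ℂ) * a * z 0 * h1b' + (t : ℂ) * b * z 1 * h2b'
    rw [this, re_ofReal_mul, add_re, add_re]
  rw [key]
  refine mul_le_mul_of_nonneg_left ?_ ht
  have hb1 : ∀ (s : ℝ) (e w : ℂ), |s| = 1 → ‖e‖ ≤ δ → ‖w‖ ≤ R → ((δ + e) * (s * w)).re ≤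
      2 * δ * R := by
    intro s e w hs he hw
    refine (Complex.re_le_norm _).trans ?_
    rw [norm_mul, norm_mul, Complex.norm_real, Real.norm_eq_abs, hs, one_mul]
    refine mul_le_mul ((norm_add_le _ _).trans ?_) hw (norm_nonneg _) (by positivity)
    rw [Complex.norm_real, Real.norm_of_nonneg hδ0.le]
    linarith
  have k1 := hb1 s₁ e₁ (z 0) h1a hq1 hz0
  have k2 := hb1 s₂ e₂ (z 1) h2a hq2 hz1'
  -- the value at x
  have hfx : (f x).re ≤ |a.re| + |b.re| := by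
    rw [lin_eq f x, ← ha, ← hb, add_re]
    have hx0 := hx 0
    have hx1 := hx 1
    have t1 : (a * x 0).re ≤ |a.re| := by
      rw [mul_re, hx0.1, mul_zero, sub_zero]
      refine (le_abs_self _).trans ?_
      rw [abs_mul]
      exact mul_le_of_le_one_right (abs_nonneg _) hx0.2
    have t2 : (b * x 1).re ≤ |b.re| := by
      rw [mul_re, hx1.1, mul_zero, sub_zero]
      refine (le_abs_self _).trans ?_
      rw [abs_mul]
      exact mul_le_of_le_one_right (abs_nonneg _) hx1.2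
    linarith
  have hqr1 : |a.re| + δ - δ ≤ q.1.re := by
    rw [hqe1]
    simp only [add_re, mul_re, ofReal_re, ofReal_im, zero_mul, sub_zero, h1c]
    have := (abs_le.1 ((Complex.abs_re_le_norm e₁).trans hq1)).1
    linarith
  have hqr2 : |b.re| + δ - δ ≤ q.2.re := by
    rw [hqe2]
    simp only [add_re, mul_re, ofReal_re, ofReal_im, zero_mul, sub_zero, h2c]
    have := (abs_le.1 ((Complex.abs_re_le_norm e₂).trans hq2)).1
    linarith
  have : 2 * δ * R + 2 * δ * R ≤ g / 2 := by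
    rw [← hδg]
    nlinarith
  linarith

theorem exists_grow {T : AnFun 2} (hT : IsCarrier T sq) {L : Set (Fin 2 → ℂ)}
    (hL : IsCarrier T L) (hc : Convex ℝ L) (hn : ¬ sq ⊆ L) :
    ∃ s₁ s₂ : ℝ, (|s₁| = 1 ∧ |s₂| = 1) ∧ ∃ κ > 0, κ ≤ 1 ∧ Grow (FT T s₁ s₂) κ := by
  obtain ⟨s₁, s₂, ⟨h1, h2⟩, p₀, hp₀, ρ, hρ, c, hc0, C₀, hd⟩ := decay hL hc hn
  refine ⟨s₁, s₂, ⟨h1, h2⟩, ?_⟩
  obtain ⟨K', -, hK', C, hC, hest⟩ := hT.est isOpen_univ (subset_univ _)
  have : CompactSpace K' := isCompact_iff_compactSpace.1 hK'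
  obtain ⟨μ, hμ⟩ := hest.exists_measure
  have hF : ∀ p w : ℂ × ℂ, Differentiable ℂ fun l : ℂ => FT T s₁ s₂ (p + l • w) := by
    rw [FT_eq_FB hμ]
    exact differentiable_FB _ _ _
  exact CSa.growth hF (growth_sq hT h1 h2) hp₀ hρ hc0 hd

/-- clamp -/
theorem exists_clamp {z : ℂ} {r m s : ℝ} (hs : |s| = 1) (h1 : |z.im| ≤ r) (h2 : |z.re| ≤ 1 + r)
    (hr : 0 ≤ r) (hm0 : -1 ≤ m) (hm : z.re ≤ m + r) (hm1 : m ≤ 1) :
    ∃ x : ℝ, |s * x| ≤ 1 ∧ x ≤ m ∧ ‖(s : ℂ) * z - ((s * x : ℝ) : ℂ)‖ ≤ 2 * r := by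
  have h2' := abs_le.1 h2
  have e : ∀ x : ℝ, |z.re - x| ≤ r → ‖(s : ℂ) * z - ((s * x : ℝ) : ℂ)‖ ≤ 2 * r := by
    intro x hx
    have : (s : ℂ) * z - ((s * x : ℝ) : ℂ) = s * (z - x) := by push_cast; ring
    rw [this, norm_mul, Complex.norm_real, Real.norm_eq_abs, hs, one_mul]
    refine (Complex.norm_le_abs_re_add_abs_im _).trans ?_
    simp only [sub_re, ofReal_re, sub_im, ofReal_im, sub_zero]
    linarith
  refine ⟨max (-1) (min z.re m), ?_, ?_, e _ ?_⟩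
  · rw [abs_mul, hs, one_mul, abs_le]
    exact ⟨le_max_left _ _, max_le (by norm_num) ((min_le_right _ _).trans hm1)⟩
  · exact max_le hm0 (min_le_right _ _)
  · rcases le_total z.re m with h | h
    · rw [min_eq_left h]
      rcases le_total (-1) z.re with h' | h'
      · rw [max_eq_right h', sub_self, abs_zero]; exact hr
      · rw [max_eq_left h', abs_le]
        constructor <;> linarith
    · rw [min_eq_right h, max_eq_right hm0, abs_le]
      constructor <;> linarith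

/-- **The cut square is a carrier.** -/
theorem cut_carrier {T : AnFun 2} (hT : IsCarrier T sq) {s₁ s₂ κ : ℝ} (h1 : |s₁| = 1)
    (h2 : |s₂| = 1) (hκ : 0 < κ) (hκ1 : κ ≤ 1) (hg : Grow (FT T s₁ s₂) κ) :
    IsCarrier T (cut s₁ s₂ (κ / 8)) := by
  have h1b : s₁ * s₁ = 1 := by rw [← abs_mul_abs_self, h1, one_mul]
  have h2b : s₂ * s₂ = 1 := by rw [← abs_mul_abs_self, h2, one_mul]
  have h1b' : (s₁ : ℂ) * s₁ = 1 := by exact_mod_cast h1b
  have h2b' : (s₂ : ℂ) * s₂ = 1 := by exact_mod_cast h2b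
  refine isCarrier_of_est (isCompact_cut _ _ _) fun ω hω hsub => ?_
  obtain ⟨δ, hδ, hδω⟩ := (isCompact_cut s₁ s₂ (κ / 8)).exists_cthickening_subset_open hω hsub
  set d := κ / 8 with hd
  set r := δ / 2 with hr
  have hr0 : 0 < r := by positivity
  set q := 2 * d / r with hq
  have hd0 : 0 < d := by positivity
  have hq0 : 0 ≤ q := by positivity
  have hpar : Par κ r d q := ⟨hκ, hκ1, hr0, rfl, by rw [hq]; field_simp, hq0⟩
  have hmin0 : 0 < min d r := lt_min hd0 hr0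
  set ρ := min d r / 2 / (1 + q) with hρ
  have hρ0 : 0 < ρ := by positivity
  have hρq : ρ * (1 + q) ≤ min d r / 2 := by rw [hρ, div_mul_cancel₀ _ (by positivity)]
  -- the measure
  obtain ⟨K', hK'ω, hK', C, hC, hest⟩ := hT.est (isOpen_box ρ) (sq_subset_box hρ0)
  have : CompactSpace K' := isCompact_iff_compactSpace.1 hK'
  obtain ⟨μ, hμ⟩ := hest.exists_measure
  rw [FT_eq_FB hμ] at hg
  have hre : ∀ (s : ℝ) (j : Fin 2), |s| = 1 → ∀ w : K', |(Wc K' s j w).re| ≤ 1 + ρ := by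
    intro s j hs w
    show |((s : ℂ) * w.1 j).re| ≤ _
    rw [re_ofReal_mul, abs_mul, hs, one_mul]
    exact (hK'ω w.2 j).1.le
  have him : ∀ (s : ℝ) (j : Fin 2), |s| = 1 → ∀ w : K', |(Wc K' s j w).im| ≤ ρ := by
    intro s j hs w
    show |((s : ℂ) * w.1 j).im| ≤ _
    rw [im_ofReal_mul, abs_mul, hs, one_mul]
    exact (hK'ω w.2 j).2.le
  obtain ⟨C', hC'⟩ := main_estimate hpar hg hρ0 hρq (hre s₁ 0 h1) (him s₁ 0 h1) (hre s₂ 1 h2)
    (him s₂ 1 h2)
  -- the compact set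
  let φ : ℂ × ℂ → (Fin 2 → ℂ) := fun p => ![s₁ * p.1, s₂ * p.2]
  have hφ : Differentiable ℂ φ := by
    rw [differentiable_pi]
    intro j
    fin_cases j
    · show Differentiable ℂ fun p : ℂ × ℂ => (s₁ : ℂ) * p.1
      fun_prop
    · show Differentiable ℂ fun p : ℂ × ℂ => (s₂ : ℂ) * p.2
      fun_prop
  have hNc : IsCompact (N r d) := by
    have hcl : IsClosed (N r d) := by
      have : N r d = {z : ℂ × ℂ | |z.1.im| ≤ r} ∩ ({z : ℂ × ℂ | |z.2.im| ≤ r} ∩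
          ({z : ℂ × ℂ | |z.1.re| ≤ 1 + r} ∩ ({z : ℂ × ℂ | |z.2.re| ≤ 1 + r} ∩
          ({z : ℂ × ℂ | z.1.re ≤ 1 - d} ∪ {z : ℂ × ℂ | z.2.re ≤ 1 - d})))) := rfl
      rw [this]
      exact (isClosed_le (by fun_prop) (by fun_prop)).inter
        ((isClosed_le (by fun_prop) (by fun_prop)).inter
        ((isClosed_le (by fun_prop) (by fun_prop)).inter
        ((isClosed_le (by fun_prop) (by fun_prop)).inter
        ((isClosed_le (by fun_prop) (by fun_prop)).union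
        (isClosed_le (by fun_prop) (by fun_prop))))))
    refine (isCompact_closedBall (0 : ℂ × ℂ) (1 + 2 * r)).of_isClosed_subset hcl ?_
    intro z hz
    obtain ⟨a1, a2, a3, a4, -⟩ := hz
    rw [mem_closedBall, dist_zero_right, Prod.norm_def]
    apply max_le
    · exact (Complex.norm_le_abs_re_add_abs_im _).trans (by linarith)
    · exact (Complex.norm_le_abs_re_add_abs_im _).trans (by linarith)
  refine ⟨φ '' N r d, ?_, hNc.image hφ.continuous, |C'|, abs_nonneg _, fun f M hM hf => ?_⟩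
  · rintro _ ⟨z, hz, rfl⟩
    apply hδω
    obtain ⟨a1, a2, a3, a4, a5⟩ := hz
    have hd1 := hpar.hd1
    -- find the nearby point
    have key : ∃ x y : ℝ, |s₁ * x| ≤ 1 ∧ |s₂ * y| ≤ 1 ∧ x + y ≤ 2 - d ∧
        ‖(s₁ : ℂ) * z.1 - ((s₁ * x : ℝ) : ℂ)‖ ≤ 2 * r ∧
        ‖(s₂ : ℂ) * z.2 - ((s₂ * y : ℝ) : ℂ)‖ ≤ 2 * r := by
      rcases a5 with a5 | a5
      · obtain ⟨x, x1, x2, x3⟩ := exists_clamp (m := 1 - d) h1 a1 a3 hr0.le (by linarith)
          (by linarith) (by linarith)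
        obtain ⟨y, y1, y2, y3⟩ := exists_clamp (m := 1) h2 a2 a4 hr0.le (by linarith)
          (by linarith [(abs_le.1 a4).2]) (by linarith)
        exact ⟨x, y, x1, y1, by linarith, x3, y3⟩
      · obtain ⟨x, x1, x2, x3⟩ := exists_clamp (m := 1) h1 a1 a3 hr0.le (by linarith)
          (by linarith [(abs_le.1 a3).2]) (by linarith)
        obtain ⟨y, y1, y2, y3⟩ := exists_clamp (m := 1 - d) h2 a2 a4 hr0.le (by linarith)
          (by linarith) (by linarith)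
        exact ⟨x, y, x1, y1, by linarith, x3, y3⟩
    obtain ⟨x, y, x1, y1, hxy, hx, hy⟩ := key
    refine mem_cthickening_of_dist_le _ ![((s₁ * x : ℝ) : ℂ), ((s₂ * y : ℝ) : ℂ)] δ _ ?_ ?_
    · refine ⟨fun j => ?_, ?_⟩
      · fin_cases j
        · exact ⟨ofReal_im _, by simpa using x1⟩
        · exact ⟨ofReal_im _, by simpa using y1⟩
      · have e1 : s₁ * (s₁ * x) = x := by rw [← mul_assoc, h1b, one_mul]
        have e2 : s₂ * (s₂ * y) = y := by rw [← mul_assoc, h2b, one_mul]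
        simp only [Matrix.cons_val_zero, Matrix.cons_val_one, ofReal_re]
        rw [e1, e2]
        exact hxy
    · rw [dist_eq_norm, pi_norm_le_iff_of_nonneg hδ.le]
      have h2r : 2 * r = δ := by rw [hr]; ring
      rw [h2r] at hx hy
      intro j
      fin_cases j
      · exact hx
      · exact hy
  · have hf' : ∀ z ∈ N r d, ‖(fun p => f.1 (φ p)) z‖ ≤ M := fun z hz => hf _ ⟨z, hz, rfl⟩
    have hdiff : Differentiable ℂ (fun p => f.1 (φ p)) := (show Differentiable ℂ f.1 from f.2).comp hφ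
    have h3 := hC' _ hdiff M hf' (rK K' f) (fun w => by
      show f.1 w.1 = f.1 (φ (s₁ * w.1 0, s₂ * w.1 1))
      congr 1
      ext j
      fin_cases j
      · show w.1 0 = s₁ * (s₁ * w.1 0)
        rw [← mul_assoc, h1b', one_mul]
      · show w.1 1 = s₂ * (s₂ * w.1 1)
        rw [← mul_assoc, h2b', one_mul])
    rw [hμ f] at h3
    exact h3.trans (mul_le_mul_of_nonneg_right (le_abs_self _) hM)

/-- **Uniqueness**: any convex carrier of a functional with C-support `sq` contains `sq`. -/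
theorem sq_subset {T : AnFun 2} (hT : IsCSupport T sq) {L : Set (Fin 2 → ℂ)}
    (hL : IsCarrier T L) (hc : Convex ℝ L) : sq ⊆ L := by
  by_contra hn
  obtain ⟨s₁, s₂, ⟨h1, h2⟩, κ, hκ, hκ1, hg⟩ := exists_grow hT.prop.2 hL hc hn
  have hcar := cut_carrier hT.prop.2 h1 h2 hκ hκ1 hg
  have hle := hT.le_of_le ⟨convex_cut s₁ s₂ (κ / 8), hcar⟩ fun z hz => hz.1
  have hv : (![(s₁ : ℂ), (s₂ : ℂ)] : Fin 2 → ℂ) ∈ sq := by
    intro j
    fin_cases j
    · exact ⟨ofReal_im _, by simpa using h1.le⟩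
    · exact ⟨ofReal_im _, by simpa using h2.le⟩
  have := (hle hv).2
  simp only [Matrix.cons_val_zero, Matrix.cons_val_one, ofReal_re] at this
  have h1b : s₁ * s₁ = 1 := by rw [← abs_mul_abs_self, h1, one_mul]
  have h2b : s₂ * s₂ = 1 := by rw [← abs_mul_abs_self, h2, one_mul]
  rw [h1b, h2b] at this
  linarith

theorem isUniqueCSupport_sq : IsUniqueCSupport sq := by
  refine ⟨convex_sq, isCompact_sq, fun T hT L hL => ?_⟩
  have h1 := sq_subset hT hL.prop.2 hL.prop.1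
  exact (hL.le_of_le hT.prop h1).antisymm h1

end Pool.Agent.H810R2.CSh
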