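import Mathlib
import Pool.Agent.H810R2.CSh

/-! Geometry of the real square and non-vacuity. -/

set_option autoImplicit false

open Set Filter Topology Complex Metric

namespace Pool.Agent.H810R2.CSi

open Pool.Agent.H810R2.CSg Pool.Agent.H810R2.CSh

/-- The real hyperplane `{z : Re ∑ ξ_j z_j = c}` of `ℂⁿ = ℝ²ⁿ`, coded by `h = (ξ, c)`. -/
def hyp {n : ℕ} (h : (Fin n → ℂ) × ℝ) : Set (Fin n → ℂ) := {z | (∑ j, h.1 j * z j).re = h.2}

/-- The set `𝒮(K)` of supporting hyperplanes of `K`, as pairs (unit normal, offset). -/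
def Supp {n : ℕ} (K : Set (Fin n → ℂ)) : Set ((Fin n → ℂ) × ℝ) :=
  {h | ∑ j, ‖h.1 j‖ ^ 2 = 1 ∧ (hyp h ∩ K).Nonempty ∧
    ((∀ z ∈ K, (∑ j, h.1 j * z j).re ≤ h.2) ∨ (∀ z ∈ K, h.2 ≤ (∑ j, h.1 j * z j).re))}

/-- `A` is a complex affine hyperplane of `V(K) = affineSpan ℂ K` which meets `K` but not the
relative interior `I K`. -/
def IsCSuppHyp {n : ℕ} (I : Set (Fin n → ℂ) → Set (Fin n → ℂ)) (K : Set (Fin n → ℂ))
    (A : AffineSubspace ℂ (Fin n → ℂ)) : Prop :=
  A ≤ affineSpan ℂ K ∧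
  Module.finrank ℂ A.direction + 1 = Module.finrank ℂ (affineSpan ℂ K).direction ∧
  ((A : Set (Fin n → ℂ)) ∩ K).Nonempty ∧ Disjoint (A : Set (Fin n → ℂ)) (I K)

/-- The set `𝒮₀(K)`: those supporting hyperplanes which contain an extreme point of `K` lying in
exactly one complex supporting hyperplane of `K` with respect to `V(K)`. -/
def Supp₀ {n : ℕ} (I : Set (Fin n → ℂ) → Set (Fin n → ℂ)) (K : Set (Fin n → ℂ)) :
    Set ((Fin n → ℂ) × ℝ) :=
  {h | h ∈ Supp K ∧ ∃ v ∈ K.extremePoints ℝ, v ∈ hyp h ∧ ∃! A : AffineSubspace ℂ (Fin n → ℂ),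
    IsCSuppHyp I K A ∧ v ∈ A}

/-- The topological interior of `K` relative to the complex affine subspace `V(K)`. -/
def relInt {n : ℕ} (K : Set (Fin n → ℂ)) : Set (Fin n → ℂ) :=
  {z | z ∈ K ∧ ∃ U : Set (Fin n → ℂ), IsOpen U ∧ z ∈ U ∧ U ∩ affineSpan ℂ K ⊆ K}

/-- a common weakening of both notions of relative interior -/
def RI {n : ℕ} (K : Set (Fin n → ℂ)) : Set (Fin n → ℂ) :=
  {z | z ∈ K ∧ ∃ U ∈ 𝓝 z, U ∩ affineSpan ℝ K ⊆ K}

/-- A complex affine subspace, seen as a real one. -/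
def realAff {n : ℕ} (A : AffineSubspace ℂ (Fin n → ℂ)) : AffineSubspace ℝ (Fin n → ℂ) where
  carrier := A
  smul_vsub_vadd_mem' := by
    intro c p₁ p₂ p₃ h1 h2 h3
    have := A.smul_vsub_vadd_mem (c : ℂ) h1 h2 h3
    have e : (c : ℂ) • (p₁ -ᵥ p₂) = c • (p₁ -ᵥ p₂) := Complex.coe_smul c _
    rwa [e] at this

theorem relInt_subset {n : ℕ} (K : Set (Fin n → ℂ)) : relInt K ⊆ RI K := by
  rintro z ⟨hz, U, hU, hzU, h⟩
  refine ⟨hz, U, hU.mem_nhds hzU, fun w hw => h ⟨hw.1, ?_⟩⟩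
  have h1 : affineSpan ℝ K ≤ realAff (affineSpan ℂ K) := by
    rw [affineSpan_le]
    exact subset_affineSpan ℂ K
  exact h1 hw.2

theorem intrinsicInterior_subset' {n : ℕ} (K : Set (Fin n → ℂ)) :
    intrinsicInterior ℝ K ⊆ RI K := by
  intro z hz
  refine ⟨intrinsicInterior_subset hz, ?_⟩
  rw [mem_intrinsicInterior] at hz
  obtain ⟨y, hy, rfl⟩ := hz
  rw [mem_interior_iff_mem_nhds, nhds_subtype_eq_comap, Filter.mem_comap] at hy
  obtain ⟨U, hU, h⟩ := hy
  exact ⟨U, hU, fun w hw => h (show (⟨w, hw.2⟩ : affineSpan ℝ K).1 ∈ U from hw.1)⟩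

theorem extreme_not_mem_RI {n : ℕ} {K : Set (Fin n → ℂ)} {v w : Fin n → ℂ}
    (hv : v ∈ K.extremePoints ℝ) (hw : w ∈ K) (hne : w ≠ v) : v ∉ RI K := by
  rintro ⟨hvK, U, hU, h⟩
  -- points beyond v
  have hcont : Continuous fun t : ℝ => v + t • (v - w) := by fun_prop
  have h1 : ∀ᶠ t in 𝓝 (0 : ℝ), v + t • (v - w) ∈ U := by
    have : Tendsto (fun t : ℝ => v + t • (v - w)) (𝓝 0) (𝓝 v) := by
      have := hcont.tendsto 0
      simpa using this
    exact this hU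
  obtain ⟨ε, hε, hball⟩ := Metric.eventually_nhds_iff.1 h1
  have h2 := hball (y := ε / 2) (by rw [dist_zero_right, Real.norm_of_nonneg (by positivity)]; linarith)
  have h3 : v + (ε / 2) • (v - w) ∈ affineSpan ℝ K := by
    have hv' := subset_affineSpan ℝ K hvK
    have hw' := subset_affineSpan ℝ K hw
    have := AffineMap.lineMap_mem (-(ε / 2)) hv' hw'
    rw [AffineMap.lineMap_apply_module'] at this
    have e : v + (ε / 2) • (v - w) = -(ε / 2) • (w - v) + v := by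
      module
    rw [e]; exact this
  have h4 := h ⟨h2, h3⟩
  have h5 : v ∈ openSegment ℝ w (v + (ε / 2) • (v - w)) := by
    refine ⟨(ε / 2) / (1 + ε / 2), 1 / (1 + ε / 2), by positivity, by positivity, ?_, ?_⟩
    · field_simp; ring
    · have : (1 + ε / 2) ≠ 0 := by positivity
      ext j
      simp only [Pi.add_apply, Pi.smul_apply, Pi.sub_apply, Complex.real_smul]
      push_cast
      have hc : (1 + (ε : ℂ) / 2) ≠ 0 := by exact_mod_cast this
      have hc' : (2 + (ε : ℂ)) ≠ 0 := by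
        intro h0
        apply hc
        linear_combination h0 / 2
      field_simp
      ring
  have := hv.2 hw h4 h5
  exact hne this

end Pool.Agent.H810R2.CSi
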