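import Mathlib
import Pool.Agent.H810R2.CSi

/-! Geometry of the real square and non-vacuity. -/

set_option autoImplicit false

open Set Filter Topology Complex Metric

namespace Pool.Agent.H810R2.CSj

open Pool.Agent.H810R2.CSg Pool.Agent.H810R2.CSh Pool.Agent.H810R2.CSi

/-- a vertex of the square -/
def vert (s₁ s₂ : ℝ) : Fin 2 → ℂ := ![(s₁ : ℂ), (s₂ : ℂ)]

theorem vert_mem {s₁ s₂ : ℝ} (h1 : |s₁| ≤ 1) (h2 : |s₂| ≤ 1) : vert s₁ s₂ ∈ sq := by
  intro j
  fin_cases j
  · exact ⟨ofReal_im _, by simpa [vert] using h1⟩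
  · exact ⟨ofReal_im _, by simpa [vert] using h2⟩

theorem affineSpan_sq : affineSpan ℂ sq = ⊤ := by
  have h0 : (0 : Fin 2 → ℂ) ∈ affineSpan ℂ sq := by
    apply subset_affineSpan
    intro j; simp
  have h1 : (vert 1 0) ∈ affineSpan ℂ sq := subset_affineSpan ℂ _ (vert_mem (by simp) (by simp))
  have h2 : (vert 0 1) ∈ affineSpan ℂ sq := subset_affineSpan ℂ _ (vert_mem (by simp) (by simp))
  rw [eq_top_iff]
  intro z _
  have e1 := (affineSpan ℂ sq).smul_vsub_vadd_mem (z 0) h1 h0 h0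
  have e2 := (affineSpan ℂ sq).smul_vsub_vadd_mem (z 1) h2 h0 e1
  have : z = z 1 • (vert 0 1 -ᵥ (0 : Fin 2 → ℂ)) +ᵥ (z 0 • (vert 1 0 -ᵥ (0 : Fin 2 → ℂ)) +ᵥ
      (0 : Fin 2 → ℂ)) := by
    ext j
    fin_cases j <;> simp [vert]
  rw [this]
  exact e2

/-- the two complex lines -/
def line (v : Fin 2 → ℂ) (c : ℂ) : AffineSubspace ℂ (Fin 2 → ℂ) :=
  AffineSubspace.mk' v (Submodule.span ℂ {![1, c]})

theorem mem_line {v : Fin 2 → ℂ} {c : ℂ} {z : Fin 2 → ℂ} :
    z ∈ line v c ↔ z 1 - v 1 = c * (z 0 - v 0) := by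
  rw [line, AffineSubspace.mem_mk', Submodule.mem_span_singleton]
  constructor
  · rintro ⟨a, ha⟩
    have h0 := congrFun ha 0
    have h1 := congrFun ha 1
    simp at h0 h1
    rw [← h0, ← h1]; ring
  · intro h
    refine ⟨z 0 - v 0, ?_⟩
    ext j
    fin_cases j
    · simp
    · simp [h]; ring

theorem finrank_line (v : Fin 2 → ℂ) (c : ℂ) : Module.finrank ℂ (line v c).direction = 1 := by
  rw [line, AffineSubspace.direction_mk']
  apply finrank_span_singleton
  intro h
  have := congrFun h 0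
  simp at this

/-- a line of non-real slope through a point of the square meets the square only there -/
theorem line_inter {v : Fin 2 → ℂ} (hv : v ∈ sq) {c : ℂ} (hc : c.im ≠ 0) {z : Fin 2 → ℂ}
    (hz : z ∈ sq) (hl : z ∈ line v c) : z = v := by
  rw [mem_line] at hl
  have v0 := (hv 0).1
  have v1 := (hv 1).1
  have z0 := (hz 0).1
  have z1 := (hz 1).1
  have him := congrArg Complex.im hl
  simp only [sub_im, v1, z1, mul_im, z0, v0, sub_zero, sub_re, mul_zero, zero_add] at him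
  have h0 : (z 0).re - (v 0).re = 0 := by
    rcases mul_eq_zero.1 him.symm with h | h
    · exact absurd h hc
    · exact h
  have h0' : z 0 - v 0 = 0 := by
    apply Complex.ext
    · simpa using h0
    · simp [z0, v0]
  rw [h0', mul_zero] at hl
  ext j
  fin_cases j
  · exact sub_eq_zero.1 h0'
  · exact sub_eq_zero.1 hl

theorem line_csupp {I : Set (Fin 2 → ℂ) → Set (Fin 2 → ℂ)} (hI : I sq ⊆ RI sq)
    {v : Fin 2 → ℂ} (hv : v ∈ sq.extremePoints ℝ) {c : ℂ} (hc : c.im ≠ 0) :
    IsCSuppHyp I sq (line v c) := by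
  refine ⟨by rw [affineSpan_sq]; exact le_top, ?_, ⟨v, ?_, hv.1⟩, ?_⟩
  · rw [finrank_line, affineSpan_sq, AffineSubspace.direction_top, finrank_top]
    simp
  · show v ∈ line v c
    rw [mem_line]; ring
  · rw [Set.disjoint_left]
    intro z hz hzI
    have hz' := hI hzI
    have hzv := line_inter hv.1 hc hz'.1 hz
    subst hzv
    -- another point of the square
    by_cases h : vert 1 1 = z
    · exact extreme_not_mem_RI hv (w := vert (-1) (-1)) (vert_mem (by simp) (by simp)) (by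
        rw [← h]
        intro h'
        have := congrFun h' 0
        simp [vert] at this
        norm_num [Complex.ext_iff] at this) hz'
    · exact extreme_not_mem_RI hv (w := vert 1 1) (vert_mem (by simp) (by simp)) h hz'

theorem Supp₀_sq {I : Set (Fin 2 → ℂ) → Set (Fin 2 → ℂ)} (hI : I sq ⊆ RI sq) :
    Supp₀ I sq = ∅ := by
  rw [Set.eq_empty_iff_forall_notMem]
  rintro h ⟨-, v, hv, -, A, -, huniq⟩
  have h1 := huniq (line v Complex.I) ⟨line_csupp hI hv (by simp), by rw [mem_line]; ring⟩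
  have h2 := huniq (line v (-Complex.I)) ⟨line_csupp hI hv (by simp), by rw [mem_line]; ring⟩
  have h3 : (fun j => v j + ![1, Complex.I] j) ∈ line v Complex.I := by
    rw [mem_line]; simp
  rw [h1, ← h2, mem_line] at h3
  simp at h3
  norm_num [Complex.ext_iff] at h3

theorem Supp_sq_nonempty : (Supp sq).Nonempty := by
  refine ⟨(![1, 0], 1), ?_, ⟨vert 1 1, ?_, vert_mem (by simp) (by simp)⟩, Or.inl fun z hz => ?_⟩
  · simp [Fin.sum_univ_two]
  · simp [hyp, Fin.sum_univ_two, vert]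
  · have := (abs_le.1 (hz 0).2).2
    simpa [Fin.sum_univ_two] using this

/-- The sum of the four point evaluations at the vertices. -/
noncomputable def T₀ : AnFun 2 where
  toFun f := f.1 (vert 1 1) + f.1 (vert 1 (-1)) + f.1 (vert (-1) 1) + f.1 (vert (-1) (-1))
  map_add' f g := by
    show (f.1 _ + g.1 _) + (f.1 _ + g.1 _) + (f.1 _ + g.1 _) + (f.1 _ + g.1 _) = _
    ring
  map_smul' c f := by
    show (c * f.1 _) + (c * f.1 _) + (c * f.1 _) + (c * f.1 _) = c * _
    ring
  cont := by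
    have h : ∀ v : Fin 2 → ℂ, Continuous fun f : Entire 2 => f.1 v := fun v =>
      (continuous_eval_const v).comp continuous_subtype_val
    exact (((h _).add (h _)).add (h _)).add (h _)

theorem T₀_carrier : IsCarrier T₀ sq := by
  refine isCarrier_of_est isCompact_sq fun ω hω hsub => ⟨sq, hsub, isCompact_sq, 4, by norm_num,
    fun f M hM hf => ?_⟩
  show ‖f.1 (vert 1 1) + f.1 (vert 1 (-1)) + f.1 (vert (-1) 1) + f.1 (vert (-1) (-1))‖ ≤ 4 * M
  have h1 := hf (vert 1 1) (vert_mem (by simp) (by simp))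
  have h2 := hf (vert 1 (-1)) (vert_mem (by simp) (by simp))
  have h3 := hf (vert (-1) 1) (vert_mem (by simp) (by simp))
  have h4 := hf (vert (-1) (-1)) (vert_mem (by simp) (by simp))
  refine (norm_add_le _ _).trans ?_
  refine (add_le_add_left ((norm_add_le _ _).trans (add_le_add_left (norm_add_le _ _) _)) _).trans ?_
  linarith

theorem FT_T₀ {s₁ s₂ : ℝ} (h1 : |s₁| = 1) (h2 : |s₂| = 1) (p : ℂ × ℂ) :
    FT T₀ s₁ s₂ p = (Complex.exp p.1 + Complex.exp (-p.1)) * (Complex.exp p.2 + Complex.exp (-p.2)) := by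
  have e : FT T₀ s₁ s₂ p = Complex.exp (p.1 * (s₁ * (1 : ℝ)) + p.2 * (s₂ * (1 : ℝ))) +
      Complex.exp (p.1 * (s₁ * (1 : ℝ)) + p.2 * (s₂ * (-1 : ℝ))) +
      Complex.exp (p.1 * (s₁ * (-1 : ℝ)) + p.2 * (s₂ * (1 : ℝ))) +
      Complex.exp (p.1 * (s₁ * (-1 : ℝ)) + p.2 * (s₂ * (-1 : ℝ))) := rfl
  rw [e]
  rcases (abs_eq one_pos.le).1 h1 with rfl | rfl <;> rcases (abs_eq one_pos.le).1 h2 with rfl | rfl <;>
    · push_cast
      simp only [mul_one, mul_neg, neg_neg, Complex.exp_add]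
      ring

theorem T₀_csupport : IsCSupport T₀ sq := by
  refine ⟨⟨convex_sq, T₀_carrier⟩, fun L hL hle => ?_⟩
  by_contra hn
  obtain ⟨s₁, s₂, ⟨h1, h2⟩, p₀, hp₀, ρ, hρ, c, hc0, C₀, hd⟩ := decay hL.2 hL.1 hn
  have hd' := hd p₀ (by simp [hρ.le])
  set a := p₀.1.re with ha
  set b := p₀.2.re with hb
  have ha0 : 0 < a := hp₀.1
  have hb0 : 0 < b := hp₀.2
  -- lower bound
  have hlow : ∀ t : ℝ, 0 ≤ t → (Real.exp (t * a) - Real.exp (-(t * a))) *
      (Real.exp (t * b) - Real.exp (-(t * b))) ≤ ‖FT T₀ s₁ s₂ (t • p₀)‖ := by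
    intro t ht
    rw [FT_T₀ h1 h2, norm_mul]
    have key : ∀ z : ℂ, Real.exp z.re - Real.exp (-z.re) ≤ ‖Complex.exp z + Complex.exp (-z)‖ := by
      intro z
      have := norm_sub_norm_le (Complex.exp z) (-Complex.exp (-z))
      rw [norm_neg, Complex.norm_exp, Complex.norm_exp, neg_re, sub_neg_eq_add] at this
      exact this
    have k1 := key ((t • p₀).1)
    have k2 := key ((t • p₀).2)
    have r1 : ((t • p₀).1).re = t * a := by simp [ha]
    have r2 : ((t • p₀).2).re = t * b := by simp [hb]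
    rw [r1] at k1
    rw [r2] at k2
    refine mul_le_mul k1 k2 ?_ (norm_nonneg _)
    have : Real.exp (-(t * b)) ≤ Real.exp (t * b) := by
      apply Real.exp_le_exp.2
      have := mul_nonneg ht hb0.le
      linarith
    linarith
  -- contradiction for large t
  have hlim : ∃ t : ℝ, 0 ≤ t ∧ Real.exp (-(2 * (t * a))) ≤ 1 / 2 ∧ Real.exp (-(2 * (t * b))) ≤ 1 / 2 ∧
      Real.exp (C₀ - c * t) < 1 / 4 := by
    have t1 : Tendsto (fun t : ℝ => Real.exp (-(2 * (t * a)))) atTop (𝓝 0) := by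
      apply Real.tendsto_exp_atBot.comp
      have : (fun t : ℝ => -(2 * (t * a))) = fun t : ℝ => (-(2 * a)) * t := by ext t; ring
      rw [this]
      exact tendsto_id.const_mul_atTop_of_neg (by linarith)
    have t2 : Tendsto (fun t : ℝ => Real.exp (-(2 * (t * b)))) atTop (𝓝 0) := by
      apply Real.tendsto_exp_atBot.comp
      have : (fun t : ℝ => -(2 * (t * b))) = fun t : ℝ => (-(2 * b)) * t := by ext t; ring
      rw [this]
      exact tendsto_id.const_mul_atTop_of_neg (by linarith)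
    have t3 : Tendsto (fun t : ℝ => Real.exp (C₀ - c * t)) atTop (𝓝 0) := by
      apply Real.tendsto_exp_atBot.comp
      have : (fun t : ℝ => C₀ - c * t) = fun t : ℝ => C₀ + (-c) * t := by ext t; ring
      rw [this]
      exact tendsto_atBot_add_const_left _ _ (tendsto_id.const_mul_atTop_of_neg (by linarith))
    have e1 := t1.eventually (gt_mem_nhds (by norm_num : (0 : ℝ) < 1 / 2))
    have e2 := t2.eventually (gt_mem_nhds (by norm_num : (0 : ℝ) < 1 / 2))
    have e3 := t3.eventually (gt_mem_nhds (by norm_num : (0 : ℝ) < 1 / 4))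
    obtain ⟨t, ⟨⟨h1, h2⟩, h3⟩, h4⟩ := (((e1.and e2).and e3).and (eventually_ge_atTop 0)).exists
    exact ⟨t, h4, h1.le, h2.le, h3⟩
  obtain ⟨t, ht, g1, g2, g3⟩ := hlim
  have h3 := (hlow t ht).trans (hd' t ht)
  have e1 : Real.exp (t * a) - Real.exp (-(t * a)) = Real.exp (t * a) * (1 - Real.exp (-(2 * (t * a)))) := by
    rw [mul_sub, mul_one, ← Real.exp_add]; ring_nf
  have e2 : Real.exp (t * b) - Real.exp (-(t * b)) = Real.exp (t * b) * (1 - Real.exp (-(2 * (t * b)))) := by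
    rw [mul_sub, mul_one, ← Real.exp_add]; ring_nf
  have e3 : Real.exp (C₀ + t * (a + b - c)) = Real.exp (t * a) * Real.exp (t * b) * Real.exp (C₀ - c * t) := by
    rw [← Real.exp_add, ← Real.exp_add]; ring_nf
  rw [e1, e2, e3] at h3
  have p1 := Real.exp_pos (t * a)
  have p2 := Real.exp_pos (t * b)
  have h4 : Real.exp (t * a) * Real.exp (t * b) * (1 / 4) ≤
      Real.exp (t * a) * (1 - Real.exp (-(2 * (t * a)))) *
        (Real.exp (t * b) * (1 - Real.exp (-(2 * (t * b))))) := by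
    have q1 : 1 / 2 ≤ 1 - Real.exp (-(2 * (t * a))) := by linarith
    have q2 : 1 / 2 ≤ 1 - Real.exp (-(2 * (t * b))) := by linarith
    have q3 : (1 : ℝ) / 4 ≤ (1 - Real.exp (-(2 * (t * a)))) * (1 - Real.exp (-(2 * (t * b)))) := by
      nlinarith
    calc _ ≤ Real.exp (t * a) * Real.exp (t * b) *
        ((1 - Real.exp (-(2 * (t * a)))) * (1 - Real.exp (-(2 * (t * b))))) :=
          mul_le_mul_of_nonneg_left q3 (by positivity)
      _ = _ := by ring
  have h5 : Real.exp (t * a) * Real.exp (t * b) * Real.exp (C₀ - c * t) <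
      Real.exp (t * a) * Real.exp (t * b) * (1 / 4) :=
    mul_lt_mul_of_pos_left g3 (by positivity)
  linarith

end Pool.Agent.H810R2.CSj
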